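import Pool.Agent.Helper427.Chern.Defs

open scoped ContDiff RealInnerProductSpace Topology
open Real

open scoped ContDiff RealInnerProductSpace Topology
open Real

namespace ChernG2

theorem gen1 (α β τ : ℝ × ℝ → ℝ) (w : ℝ × ℝ) (hα : DifferentiableAt ℝ α w)
    (hβ : DifferentiableAt ℝ β w) (hτ : DifferentiableAt ℝ τ w) (e : ℝ × ℝ) :
    fderiv ℝ (fun w' => τ w' ^ 2 + (1 - cos (α w')) * (1 - cos (β w'))) w e =
      sin (α w) * (1 - cos (β w)) * fderiv ℝ α w e + sin (β w) * (1 - cos (α w)) * fderiv ℝ β w e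
      + 2 * τ w * fderiv ℝ τ w e := by
  have h1 := hα.hasFDerivAt.cos.const_sub 1
  have h2 := hβ.hasFDerivAt.cos.const_sub 1
  have h3 := hτ.hasFDerivAt.pow 2
  have h4 := h3.add (h1.mul h2)
  have h5 : HasFDerivAt (fun w' => τ w' ^ 2 + (1 - cos (α w')) * (1 - cos (β w'))) _ w := h4
  rw [h5.fderiv]
  simp
  ring

theorem gen0 (ε : ℝ) (α β τ : ℝ × ℝ → ℝ) (w : ℝ × ℝ) (hα : DifferentiableAt ℝ α w)
    (hβ : DifferentiableAt ℝ β w) (hτ : DifferentiableAt ℝ τ w) (e : ℝ × ℝ)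
    (h : ∀ᶠ w' in 𝓝 w, τ w' ^ 2 + (1 - cos (α w')) * (1 - cos (β w')) = ε) :
    sin (α w) * (1 - cos (β w)) * fderiv ℝ α w e + sin (β w) * (1 - cos (α w)) * fderiv ℝ β w e
      + 2 * τ w * fderiv ℝ τ w e = 0 := by
  rw [← gen1 α β τ w hα hβ hτ e]
  have h1 : (fun w' => τ w' ^ 2 + (1 - cos (α w')) * (1 - cos (β w'))) =ᶠ[𝓝 w] fun _ => ε := h
  rw [h1.fderiv_eq]
  simp

theorem diff_dir (f : ℝ × ℝ → ℝ) (hf : ContDiff ℝ 4 f) (e : ℝ × ℝ) :
    Differentiable ℝ (fun x => fderiv ℝ f x e) := by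
  have h1 : ContDiff ℝ 3 (fderiv ℝ f) := hf.fderiv_right (by norm_num)
  have h2 : Differentiable ℝ (fderiv ℝ f) := h1.differentiable (by norm_num)
  exact fun x => (h2 x).clm_apply (differentiableAt_const e)

theorem gen2 (ε : ℝ) (α β τ : ℝ × ℝ → ℝ) (hα : ContDiff ℝ 4 α) (hβ : ContDiff ℝ 4 β)
    (hτ : ContDiff ℝ 4 τ) (w : ℝ × ℝ) (e e' : ℝ × ℝ)
    (h : ∀ᶠ w' in 𝓝 w, τ w' ^ 2 + (1 - cos (α w')) * (1 - cos (β w')) = ε) :
    sin (α w) * (1 - cos (β w)) * fderiv ℝ (fun x => fderiv ℝ α x e) w e'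
      + sin (β w) * (1 - cos (α w)) * fderiv ℝ (fun x => fderiv ℝ β x e) w e'
      + 2 * τ w * fderiv ℝ (fun x => fderiv ℝ τ x e) w e'
      + (cos (α w) * (1 - cos (β w)) * (fderiv ℝ α w e' * fderiv ℝ α w e)
        + (sin (α w) * sin (β w)) * (fderiv ℝ α w e' * fderiv ℝ β w e
          + fderiv ℝ α w e * fderiv ℝ β w e')
        + cos (β w) * (1 - cos (α w)) * (fderiv ℝ β w e' * fderiv ℝ β w e)
        + 2 * (fderiv ℝ τ w e' * fderiv ℝ τ w e)) = 0 := by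
  have dα : Differentiable ℝ α := hα.differentiable (by norm_num)
  have dβ : Differentiable ℝ β := hβ.differentiable (by norm_num)
  have dτ : Differentiable ℝ τ := hτ.differentiable (by norm_num)
  have hev : (fun x => sin (α x) * (1 - cos (β x)) * fderiv ℝ α x e
      + sin (β x) * (1 - cos (α x)) * fderiv ℝ β x e + 2 * τ x * fderiv ℝ τ x e)
      =ᶠ[𝓝 w] fun _ => (0 : ℝ) := by
    filter_upwards [h.eventually_nhds] with x hx
    exact gen0 ε α β τ x (dα x) (dβ x) (dτ x) e hx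
  have hfd := congrArg (fun L : ℝ × ℝ →L[ℝ] ℝ => L e') hev.fderiv_eq
  have a1 := (((dα w).hasFDerivAt.sin.mul ((dβ w).hasFDerivAt.cos.const_sub 1)).mul
    (diff_dir α hα e w).hasFDerivAt)
  have a2 := (((dβ w).hasFDerivAt.sin.mul ((dα w).hasFDerivAt.cos.const_sub 1)).mul
    (diff_dir β hβ e w).hasFDerivAt)
  have a3 := (((dτ w).hasFDerivAt.const_mul 2).mul (diff_dir τ hτ e w).hasFDerivAt)
  have a4 : HasFDerivAt (fun x => sin (α x) * (1 - cos (β x)) * fderiv ℝ α x e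
      + sin (β x) * (1 - cos (α x)) * fderiv ℝ β x e + 2 * τ x * fderiv ℝ τ x e) _ w :=
    (a1.add a2).add a3
  rw [a4.fderiv] at hfd
  simp at hfd
  rw [← hfd]
  ring

theorem constraint1 (ε : ℝ) (α β τ : ℝ × ℝ → ℝ) (hα : ContDiff ℝ 4 α) (hβ : ContDiff ℝ 4 β)
    (hτ : ContDiff ℝ 4 τ) (w : ℝ × ℝ)
    (h : ∀ᶠ w' in 𝓝 w, τ w' ^ 2 + (1 - cos (α w')) * (1 - cos (β w')) = ε) :
    (sin (α w) * (1 - cos (β w)) * Du α w + sin (β w) * (1 - cos (α w)) * Du β w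
      + 2 * τ w * Du τ w = 0) ∧
    (sin (α w) * (1 - cos (β w)) * Dv α w + sin (β w) * (1 - cos (α w)) * Dv β w
      + 2 * τ w * Dv τ w = 0) := by
  have dα : Differentiable ℝ α := hα.differentiable (by norm_num)
  have dβ : Differentiable ℝ β := hβ.differentiable (by norm_num)
  have dτ : Differentiable ℝ τ := hτ.differentiable (by norm_num)
  exact ⟨gen0 ε α β τ w (dα w) (dβ w) (dτ w) _ h, gen0 ε α β τ w (dα w) (dβ w) (dτ w) _ h⟩

theorem constraint2 (ε : ℝ) (α β τ : ℝ × ℝ → ℝ) (hα : ContDiff ℝ 4 α) (hβ : ContDiff ℝ 4 β)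
    (hτ : ContDiff ℝ 4 τ) (w : ℝ × ℝ)
    (h : ∀ᶠ w' in 𝓝 w, τ w' ^ 2 + (1 - cos (α w')) * (1 - cos (β w')) = ε) :
    (sin (α w) * (1 - cos (β w)) * Du (Du α) w + sin (β w) * (1 - cos (α w)) * Du (Du β) w
      + 2 * τ w * Du (Du τ) w
      + (cos (α w) * (1 - cos (β w)) * Du α w ^ 2
        + 2 * (sin (α w) * sin (β w)) * (Du α w * Du β w)
        + cos (β w) * (1 - cos (α w)) * Du β w ^ 2 + 2 * Du τ w ^ 2) = 0) ∧
    (sin (α w) * (1 - cos (β w)) * Du (Dv α) w + sin (β w) * (1 - cos (α w)) * Du (Dv β) w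
      + 2 * τ w * Du (Dv τ) w
      + (cos (α w) * (1 - cos (β w)) * (Du α w * Dv α w)
        + (sin (α w) * sin (β w)) * (Du α w * Dv β w + Dv α w * Du β w)
        + cos (β w) * (1 - cos (α w)) * (Du β w * Dv β w) + 2 * (Du τ w * Dv τ w)) = 0) ∧
    (sin (α w) * (1 - cos (β w)) * Dv (Dv α) w + sin (β w) * (1 - cos (α w)) * Dv (Dv β) w
      + 2 * τ w * Dv (Dv τ) w
      + (cos (α w) * (1 - cos (β w)) * Dv α w ^ 2
        + 2 * (sin (α w) * sin (β w)) * (Dv α w * Dv β w)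
        + cos (β w) * (1 - cos (α w)) * Dv β w ^ 2 + 2 * Dv τ w ^ 2) = 0) := by
  have eDu : ∀ f : ℝ × ℝ → ℝ, Du f = fun x => fderiv ℝ f x (1, 0) := fun f => rfl
  have eDv : ∀ f : ℝ × ℝ → ℝ, Dv f = fun x => fderiv ℝ f x (0, 1) := fun f => rfl
  refine ⟨?_, ?_, ?_⟩
  · have h1 := gen2 ε α β τ hα hβ hτ w (1, 0) (1, 0) h
    rw [← h1]
    simp only [eDu, eDv]
    ring
  · have h1 := gen2 ε α β τ hα hβ hτ w (0, 1) (1, 0) h
    rw [← h1]
    simp only [eDu, eDv]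
  · have h1 := gen2 ε α β τ hα hβ hτ w (0, 1) (0, 1) h
    rw [← h1]
    simp only [eDu, eDv]
    ring


end ChernG2
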