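import Pool.Agent.Helper427.Chern.Defs

open scoped ContDiff RealInnerProductSpace Topology
open Real

open scoped ContDiff RealInnerProductSpace Topology
open Real

namespace ChernG2

section Calc
variable {V : Type} [NormedAddCommGroup V] [NormedSpace ℝ V]

theorem contDiff_Du {f : ℝ × ℝ → V} {n m : ℕ} (hnm : m + 1 ≤ n) (hf : ContDiff ℝ n f) :
    ContDiff ℝ m (Du f) := by
  have h1 : ContDiff ℝ m (fderiv ℝ f) := hf.fderiv_right (by exact_mod_cast hnm)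
  exact h1.clm_apply contDiff_const

theorem contDiff_Dv {f : ℝ × ℝ → V} {n m : ℕ} (hnm : m + 1 ≤ n) (hf : ContDiff ℝ n f) :
    ContDiff ℝ m (Dv f) := by
  have h1 : ContDiff ℝ m (fderiv ℝ f) := hf.fderiv_right (by exact_mod_cast hnm)
  exact h1.clm_apply contDiff_const

theorem Dv_Du {f : ℝ × ℝ → V} {n : ℕ} (hn : 2 ≤ n) (hf : ContDiff ℝ n f) :
    Dv (Du f) = Du (Dv f) := by
  have hf2 : ContDiff ℝ 2 f := hf.of_le (by exact_mod_cast hn)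
  have h1 : ContDiff ℝ 1 (fderiv ℝ f) := hf2.fderiv_right (by norm_num)
  have hd : Differentiable ℝ (fderiv ℝ f) := h1.differentiable (by norm_num)
  funext w
  have hsym : IsSymmSndFDerivAt ℝ f w := hf2.contDiffAt.isSymmSndFDerivAt (by simp)
  have e1 : ∀ (a b : ℝ × ℝ), fderiv ℝ (fun z => fderiv ℝ f z a) w b
      = fderiv ℝ (fderiv ℝ f) w b a := by
    intro a b
    have := fderiv_clm_apply (hd w) (differentiableAt_const (𝕜 := ℝ) (c := a) (x := w))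
    rw [this]
    simp
  change fderiv ℝ (fun z => fderiv ℝ f z (1, 0)) w (0, 1)
    = fderiv ℝ (fun z => fderiv ℝ f z (0, 1)) w (1, 0)
  rw [e1, e1]
  exact hsym _ _

end Calc

theorem Du_inner {f g : ℝ × ℝ → E4} {n m : ℕ} (hn : 1 ≤ n) (hm : 1 ≤ m) (hf : ContDiff ℝ n f)
    (hg : ContDiff ℝ m g) :
    Du (fun w => ⟪f w, g w⟫) = fun w => ⟪f w, Du g w⟫ + ⟪Du f w, g w⟫ := by
  funext w
  have h1 : DifferentiableAt ℝ f w :=
    (hf.differentiable (by exact_mod_cast (by omega : n ≠ 0))) w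
  have h2 : DifferentiableAt ℝ g w :=
    (hg.differentiable (by exact_mod_cast (by omega : m ≠ 0))) w
  exact fderiv_inner_apply ℝ h1 h2 _

theorem Dv_inner {f g : ℝ × ℝ → E4} {n m : ℕ} (hn : 1 ≤ n) (hm : 1 ≤ m) (hf : ContDiff ℝ n f)
    (hg : ContDiff ℝ m g) :
    Dv (fun w => ⟪f w, g w⟫) = fun w => ⟪f w, Dv g w⟫ + ⟪Dv f w, g w⟫ := by
  funext w
  have h1 : DifferentiableAt ℝ f w :=
    (hf.differentiable (by exact_mod_cast (by omega : n ≠ 0))) w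
  have h2 : DifferentiableAt ℝ g w :=
    (hg.differentiable (by exact_mod_cast (by omega : m ≠ 0))) w
  exact fderiv_inner_apply ℝ h1 h2 _

theorem Du_add {f g : ℝ × ℝ → ℝ} {n m : ℕ} (hn : 1 ≤ n) (hm : 1 ≤ m) (hf : ContDiff ℝ n f)
    (hg : ContDiff ℝ m g) : Du (fun w => f w + g w) = fun w => Du f w + Du g w := by
  funext w
  have h1 : DifferentiableAt ℝ f w :=
    (hf.differentiable (by exact_mod_cast (by omega : n ≠ 0))) w
  have h2 : DifferentiableAt ℝ g w :=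
    (hg.differentiable (by exact_mod_cast (by omega : m ≠ 0))) w
  change fderiv ℝ (fun w => f w + g w) w (1, 0) = _
  rw [fderiv_fun_add h1 h2]
  rfl

theorem Dv_add {f g : ℝ × ℝ → ℝ} {n m : ℕ} (hn : 1 ≤ n) (hm : 1 ≤ m) (hf : ContDiff ℝ n f)
    (hg : ContDiff ℝ m g) : Dv (fun w => f w + g w) = fun w => Dv f w + Dv g w := by
  funext w
  have h1 : DifferentiableAt ℝ f w :=
    (hf.differentiable (by exact_mod_cast (by omega : n ≠ 0))) w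
  have h2 : DifferentiableAt ℝ g w :=
    (hg.differentiable (by exact_mod_cast (by omega : m ≠ 0))) w
  change fderiv ℝ (fun w => f w + g w) w (0, 1) = _
  rw [fderiv_fun_add h1 h2]
  rfl

theorem gaussK_formula (ψ : ℝ × ℝ → E4) (hψ : ContDiff ℝ 4 ψ) (w : ℝ × ℝ) :
    gaussK ψ w =
      (gram3 (Du (Du ψ) w) (Dv (Dv ψ) w) (Du ψ w) (Dv ψ w)
        - gram3 (Du (Dv ψ) w) (Du (Dv ψ) w) (Du ψ w) (Dv ψ w)) /
      (⟪Du ψ w, Du ψ w⟫ * ⟪Dv ψ w, Dv ψ w⟫ - ⟪Du ψ w, Dv ψ w⟫ ^ 2) ^ 2 := by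
  have hψ4 : ContDiff ℝ ((4 : ℕ) : ℕ∞) ψ := hψ
  obtain ⟨P, hP⟩ : ∃ P, P = Du ψ := ⟨_, rfl⟩
  obtain ⟨Q, hQ⟩ : ∃ Q, Q = Dv ψ := ⟨_, rfl⟩
  have cP : ContDiff ℝ ((3 : ℕ) : ℕ∞) P := hP ▸ contDiff_Du (by norm_num) hψ4
  have cQ : ContDiff ℝ ((3 : ℕ) : ℕ∞) Q := hQ ▸ contDiff_Dv (by norm_num) hψ4
  have hR : Dv P = Du Q := by rw [hP, hQ]; exact Dv_Du (by norm_num) hψ4
  obtain ⟨R, hRR⟩ : ∃ R, R = Du Q := ⟨_, rfl⟩
  obtain ⟨S, hS⟩ : ∃ S, S = Du P := ⟨_, rfl⟩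
  obtain ⟨T, hT⟩ : ∃ T, T = Dv Q := ⟨_, rfl⟩
  have cR : ContDiff ℝ ((2 : ℕ) : ℕ∞) R := hRR ▸ contDiff_Du (by norm_num) cQ
  have cS : ContDiff ℝ ((2 : ℕ) : ℕ∞) S := hS ▸ contDiff_Du (by norm_num) cP
  have cT : ContDiff ℝ ((2 : ℕ) : ℕ∞) T := hT ▸ contDiff_Dv (by norm_num) cQ
  have hTR : Du T = Dv R := by rw [hT, hRR]; exact (Dv_Du (by norm_num) cQ).symm
  rw [← hRR] at hR
  -- first derivatives
  have Eu : Du (fun w => ⟪P w, P w⟫) = fun w => ⟪P w, S w⟫ + ⟪S w, P w⟫ := by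
    rw [Du_inner (by norm_num) (by norm_num) cP cP, ← hS]
  have Ev : Dv (fun w => ⟪P w, P w⟫) = fun w => ⟪P w, R w⟫ + ⟪R w, P w⟫ := by
    rw [Dv_inner (by norm_num) (by norm_num) cP cP, hR]
  have Fu : Du (fun w => ⟪P w, Q w⟫) = fun w => ⟪P w, R w⟫ + ⟪S w, Q w⟫ := by
    rw [Du_inner (by norm_num) (by norm_num) cP cQ, ← hS, ← hRR]
  have Fv : Dv (fun w => ⟪P w, Q w⟫) = fun w => ⟪P w, T w⟫ + ⟪R w, Q w⟫ := by
    rw [Dv_inner (by norm_num) (by norm_num) cP cQ, hR, ← hT]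
  have Gu : Du (fun w => ⟪Q w, Q w⟫) = fun w => ⟪Q w, R w⟫ + ⟪R w, Q w⟫ := by
    rw [Du_inner (by norm_num) (by norm_num) cQ cQ, ← hRR]
  have Gv : Dv (fun w => ⟪Q w, Q w⟫) = fun w => ⟪Q w, T w⟫ + ⟪T w, Q w⟫ := by
    rw [Dv_inner (by norm_num) (by norm_num) cQ cQ, ← hT]
  have ci : ∀ {f g : ℝ × ℝ → E4}, ContDiff ℝ ((3 : ℕ) : ℕ∞) f → ContDiff ℝ ((2 : ℕ) : ℕ∞) g →
      ContDiff ℝ ((2 : ℕ) : ℕ∞) (fun w => ⟪f w, g w⟫) := fun hf hg =>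
    (hf.of_le (by norm_num)).inner ℝ hg
  have ci' : ∀ {f g : ℝ × ℝ → E4}, ContDiff ℝ ((2 : ℕ) : ℕ∞) f → ContDiff ℝ ((3 : ℕ) : ℕ∞) g →
      ContDiff ℝ ((2 : ℕ) : ℕ∞) (fun w => ⟪f w, g w⟫) := fun hf hg =>
    hf.inner ℝ (hg.of_le (by norm_num))
  -- second derivatives
  have Evv : Dv (Dv (fun w => ⟪P w, P w⟫)) = fun w =>
      (⟪P w, Dv R w⟫ + ⟪R w, R w⟫) + (⟪R w, R w⟫ + ⟪Dv R w, P w⟫) := by
    rw [Ev, Dv_add (by norm_num) (by norm_num) (ci cP cR) (ci' cR cP),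
      Dv_inner (by norm_num) (by norm_num) cP cR, Dv_inner (by norm_num) (by norm_num) cR cP, hR]
  have Fuv : Du (Dv (fun w => ⟪P w, Q w⟫)) = fun w =>
      (⟪P w, Dv R w⟫ + ⟪S w, T w⟫) + (⟪R w, R w⟫ + ⟪Du R w, Q w⟫) := by
    rw [Fv, Du_add (by norm_num) (by norm_num) (ci cP cT) (ci' cR cQ),
      Du_inner (by norm_num) (by norm_num) cP cT, Du_inner (by norm_num) (by norm_num) cR cQ,
      ← hS, hTR, ← hRR]
  have Guu : Du (Du (fun w => ⟪Q w, Q w⟫)) = fun w =>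
      (⟪Q w, Du R w⟫ + ⟪R w, R w⟫) + (⟪R w, R w⟫ + ⟪Du R w, Q w⟫) := by
    rw [Gu, Du_add (by norm_num) (by norm_num) (ci cQ cR) (ci' cR cQ),
      Du_inner (by norm_num) (by norm_num) cQ cR, Du_inner (by norm_num) (by norm_num) cR cQ, ← hRR]
  unfold gaussK brioschi gram3
  simp only [← hP, ← hQ, ← hS, ← hT, ← hRR]
  rw [Evv, Fuv, Guu, Eu, Ev, Fu, Fv, Gu, Gv]
  congr 1
  simp only [Matrix.det_fin_three, Matrix.of_apply, Matrix.cons_val', Matrix.cons_val_zero,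
    Matrix.cons_val_one, Matrix.cons_val, Matrix.cons_val_fin_one]
  rw [real_inner_comm (P w) (S w), real_inner_comm (P w) (R w), real_inner_comm (P w) (T w),
    real_inner_comm (Q w) (S w), real_inner_comm (Q w) (R w), real_inner_comm (Q w) (T w),
    real_inner_comm (P w) (Dv R w), real_inner_comm (Q w) (Du R w)]
  ring

end ChernG2
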