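import Pool.Agent.Helper427.Chern.Defs

open scoped ContDiff RealInnerProductSpace Topology
open Real

open scoped ContDiff RealInnerProductSpace Topology
open Real

namespace ChernG2

theorem comp4 (f0 f1 f2 f3 : ℝ × ℝ → ℝ) (w e : ℝ × ℝ) (h0 : DifferentiableAt ℝ f0 w)
    (h1 : DifferentiableAt ℝ f1 w) (h2 : DifferentiableAt ℝ f2 w)
    (h3 : DifferentiableAt ℝ f3 w) :
    fderiv ℝ (fun w => (!₂[f0 w, f1 w, f2 w, f3 w] : E4)) w e =
      !₂[fderiv ℝ f0 w e, fderiv ℝ f1 w e, fderiv ℝ f2 w e, fderiv ℝ f3 w e] := by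
  have hd : DifferentiableAt ℝ (fun w => (!₂[f0 w, f1 w, f2 w, f3 w] : E4)) w := by
    rw [differentiableAt_euclidean]
    intro i
    fin_cases i
    · exact h0
    · exact h1
    · exact h2
    · exact h3
  have hc : ∀ i : Fin 4, (fderiv ℝ (fun w => (!₂[f0 w, f1 w, f2 w, f3 w] : E4)) w e) i
      = fderiv ℝ (fun w => (!₂[f0 w, f1 w, f2 w, f3 w] : E4) i) w e := by
    intro i
    have h4 := ((EuclideanSpace.proj i : E4 →L[ℝ] ℝ).hasFDerivAt.comp w hd.hasFDerivAt).fderiv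
    have h5 : fderiv ℝ (fun w => (!₂[f0 w, f1 w, f2 w, f3 w] : E4) i) w
      = (EuclideanSpace.proj i : E4 →L[ℝ] ℝ) ∘L
        fderiv ℝ (fun w => (!₂[f0 w, f1 w, f2 w, f3 w] : E4)) w := h4
    rw [h5]
    rfl
  ext i
  rw [hc]
  fin_cases i
  · rfl
  · rfl
  · rfl
  · rfl

theorem curve (f : ℝ × ℝ → ℝ) (w e : ℝ × ℝ) (hf : DifferentiableAt ℝ f w) :
    HasDerivAt (fun s : ℝ => f (w + s • e)) (fderiv ℝ f w e) 0 := by
  have h1 : HasDerivAt (fun s : ℝ => w + s • e) e 0 := by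
    have h2 := ((hasDerivAt_id (0 : ℝ)).smul_const e).const_add w
    simpa using h2
  have h3 : HasFDerivAt f (fderiv ℝ f w) (w + (0 : ℝ) • e) := by
    rw [zero_smul, add_zero]
    exact hf.hasFDerivAt
  exact h3.comp_hasDerivAt 0 h1

theorem fd_of_curve (f : ℝ × ℝ → ℝ) (w e : ℝ × ℝ) (hf : DifferentiableAt ℝ f w) (c : ℝ)
    (h : HasDerivAt (fun s : ℝ => f (w + s • e)) c 0) : fderiv ℝ f w e = c :=
  (curve f w e hf).unique h

/-! one-variable rules -/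

theorem rule0 (a b : ℝ → ℝ) (a' b' : ℝ) (ha : HasDerivAt a a' 0) (hb : HasDerivAt b b' 0) :
    HasDerivAt (fun s => (1 + 2 / 7 * ((1 - cos (a s)) * (1 - cos (b s)))) * sin (a s))
      (((1 + 2/7*((1-cos (a 0))*(1-cos (b 0))))*cos (a 0)
        + 2/7*(sin (a 0)*(1-cos (b 0)))*sin (a 0)) * a'
      + (2/7*(sin (b 0)*(1-cos (a 0)))*sin (a 0)) * b') 0 := by
  have h := ((((ha.cos.const_sub 1).mul (hb.cos.const_sub 1)).const_mul (2 / 7)).const_add 1).mul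
    ha.sin
  refine h.congr_deriv ?_
  simp only [Pi.mul_apply]
  ring

theorem rule1 (a b : ℝ → ℝ) (a' b' : ℝ) (ha : HasDerivAt a a' 0) (hb : HasDerivAt b b' 0) :
    HasDerivAt (fun s => (1 + 2 / 7 * ((1 - cos (a s)) * (1 - cos (b s)))) * sin (b s))
      ((2/7*(sin (a 0)*(1-cos (b 0)))*sin (b 0)) * a'
      + ((1 + 2/7*((1-cos (a 0))*(1-cos (b 0))))*cos (b 0)
        + 2/7*(sin (b 0)*(1-cos (a 0)))*sin (b 0)) * b') 0 := by
  have h := ((((ha.cos.const_sub 1).mul (hb.cos.const_sub 1)).const_mul (2 / 7)).const_add 1).mul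
    hb.sin
  refine h.congr_deriv ?_
  simp only [Pi.mul_apply]
  ring

theorem rule2 (a b : ℝ → ℝ) (a' b' : ℝ) (ha : HasDerivAt a a' 0) (hb : HasDerivAt b b' 0) :
    HasDerivAt (fun s => (1 + 2 / 7 * ((1 - cos (a s)) * (1 - cos (b s)))) * (cos (b s) - cos (a s)))
      (((1 + 2/7*((1-cos (a 0))*(1-cos (b 0))))*sin (a 0)
        + 2/7*(sin (a 0)*(1-cos (b 0)))*(cos (b 0)-cos (a 0))) * a'
      + (-(1 + 2/7*((1-cos (a 0))*(1-cos (b 0))))*sin (b 0)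
        + 2/7*(sin (b 0)*(1-cos (a 0)))*(cos (b 0)-cos (a 0))) * b') 0 := by
  have h := ((((ha.cos.const_sub 1).mul (hb.cos.const_sub 1)).const_mul (2 / 7)).const_add 1).mul
    (hb.cos.sub ha.cos)
  refine h.congr_deriv ?_
  simp only [Pi.mul_apply, Pi.sub_apply]
  ring

theorem rule00 (a b a1 b1 : ℝ → ℝ) (a' b' a1' b1' : ℝ) (ha : HasDerivAt a a' 0)
    (hb : HasDerivAt b b' 0) (ha1 : HasDerivAt a1 a1' 0) (hb1 : HasDerivAt b1 b1' 0) :
    HasDerivAt (fun s => ((1 + 2/7*((1-cos (a s))*(1-cos (b s))))*cos (a s)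
        + 2/7*(sin (a s)*(1-cos (b s)))*sin (a s)) * a1 s
      + (2/7*(sin (b s)*(1-cos (a s)))*sin (a s)) * b1 s)
      ((-(1 + 2/7*((1-cos (a 0))*(1-cos (b 0))))*sin (a 0)
        + 2*(2/7)*(sin (a 0)*(1-cos (b 0)))*cos (a 0)
        + 2/7*(cos (a 0)*(1-cos (b 0)))*sin (a 0)) * (a1 0 * a')
      + (2/7*(sin (b 0)*(1-cos (a 0)))*cos (a 0) + 2/7*(sin (a 0)*sin (b 0))*sin (a 0))
        * (a1 0 * b' + a' * b1 0)
      + (2/7*(cos (b 0)*(1-cos (a 0)))*sin (a 0)) * (b1 0 * b')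
      + ((1 + 2/7*((1-cos (a 0))*(1-cos (b 0))))*cos (a 0)
        + 2/7*(sin (a 0)*(1-cos (b 0)))*sin (a 0)) * a1'
      + (2/7*(sin (b 0)*(1-cos (a 0)))*sin (a 0)) * b1') 0 := by
  have hU := (((ha.cos.const_sub 1).mul (hb.cos.const_sub 1)).const_mul (2 / 7)).const_add 1
  have hp := ((ha.sin.mul (hb.cos.const_sub 1)).const_mul (2 / 7)).mul ha.sin
  have hq := ((hb.sin.mul (ha.cos.const_sub 1)).const_mul (2 / 7)).mul ha.sin
  have h := (((hU.mul ha.cos).add hp).mul ha1).add (hq.mul hb1)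
  refine h.congr_deriv ?_
  simp only [Pi.mul_apply, Pi.add_apply]
  ring

theorem rule22 (a b a1 b1 : ℝ → ℝ) (a' b' a1' b1' : ℝ) (ha : HasDerivAt a a' 0)
    (hb : HasDerivAt b b' 0) (ha1 : HasDerivAt a1 a1' 0) (hb1 : HasDerivAt b1 b1' 0) :
    HasDerivAt (fun s => ((1 + 2/7*((1-cos (a s))*(1-cos (b s))))*sin (a s)
        + 2/7*(sin (a s)*(1-cos (b s)))*(cos (b s)-cos (a s))) * a1 s
      + (-(1 + 2/7*((1-cos (a s))*(1-cos (b s))))*sin (b s)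
        + 2/7*(sin (b s)*(1-cos (a s)))*(cos (b s)-cos (a s))) * b1 s)
      (((1 + 2/7*((1-cos (a 0))*(1-cos (b 0))))*cos (a 0)
        + 2*(2/7)*(sin (a 0)*(1-cos (b 0)))*sin (a 0)
        + 2/7*(cos (a 0)*(1-cos (b 0)))*(cos (b 0)-cos (a 0))) * (a1 0 * a')
      + (-(2/7)*(sin (a 0)*(1-cos (b 0)))*sin (b 0) + 2/7*(sin (b 0)*(1-cos (a 0)))*sin (a 0)
        + 2/7*(sin (a 0)*sin (b 0))*(cos (b 0)-cos (a 0))) * (a1 0 * b' + a' * b1 0)
      + (-(1 + 2/7*((1-cos (a 0))*(1-cos (b 0))))*cos (b 0)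
        - 2*(2/7)*(sin (b 0)*(1-cos (a 0)))*sin (b 0)
        + 2/7*(cos (b 0)*(1-cos (a 0)))*(cos (b 0)-cos (a 0))) * (b1 0 * b')
      + ((1 + 2/7*((1-cos (a 0))*(1-cos (b 0))))*sin (a 0)
        + 2/7*(sin (a 0)*(1-cos (b 0)))*(cos (b 0)-cos (a 0))) * a1'
      + (-(1 + 2/7*((1-cos (a 0))*(1-cos (b 0))))*sin (b 0)
        + 2/7*(sin (b 0)*(1-cos (a 0)))*(cos (b 0)-cos (a 0))) * b1') 0 := by
  have hU := (((ha.cos.const_sub 1).mul (hb.cos.const_sub 1)).const_mul (2 / 7)).const_add 1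
  have hp := ((ha.sin.mul (hb.cos.const_sub 1)).const_mul (2 / 7)).mul (hb.cos.sub ha.cos)
  have hq := ((hb.sin.mul (ha.cos.const_sub 1)).const_mul (2 / 7)).mul (hb.cos.sub ha.cos)
  have h := (((hU.mul ha.sin).add hp).mul ha1).add (((hU.neg.mul hb.sin).add hq).mul hb1)
  refine h.congr_deriv ?_
  simp only [Pi.mul_apply, Pi.add_apply, Pi.neg_apply, Pi.sub_apply]
  ring

theorem rule11 (a b a1 b1 : ℝ → ℝ) (a' b' a1' b1' : ℝ) (ha : HasDerivAt a a' 0)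
    (hb : HasDerivAt b b' 0) (ha1 : HasDerivAt a1 a1' 0) (hb1 : HasDerivAt b1 b1' 0) :
    HasDerivAt (fun s => (2/7*(sin (a s)*(1-cos (b s)))*sin (b s)) * a1 s
      + ((1 + 2/7*((1-cos (a s))*(1-cos (b s))))*cos (b s)
        + 2/7*(sin (b s)*(1-cos (a s)))*sin (b s)) * b1 s)
      ((2/7*(cos (a 0)*(1-cos (b 0)))*sin (b 0)) * (a1 0 * a')
      + (2/7*(sin (a 0)*(1-cos (b 0)))*cos (b 0) + 2/7*(sin (a 0)*sin (b 0))*sin (b 0))
        * (a1 0 * b' + a' * b1 0)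
      + (-(1 + 2/7*((1-cos (a 0))*(1-cos (b 0))))*sin (b 0)
        + 2*(2/7)*(sin (b 0)*(1-cos (a 0)))*cos (b 0)
        + 2/7*(cos (b 0)*(1-cos (a 0)))*sin (b 0)) * (b1 0 * b')
      + (2/7*(sin (a 0)*(1-cos (b 0)))*sin (b 0)) * a1'
      + ((1 + 2/7*((1-cos (a 0))*(1-cos (b 0))))*cos (b 0)
        + 2/7*(sin (b 0)*(1-cos (a 0)))*sin (b 0)) * b1') 0 := by
  have hU := (((ha.cos.const_sub 1).mul (hb.cos.const_sub 1)).const_mul (2 / 7)).const_add 1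
  have hp := ((ha.sin.mul (hb.cos.const_sub 1)).const_mul (2 / 7)).mul hb.sin
  have hq := ((hb.sin.mul (ha.cos.const_sub 1)).const_mul (2 / 7)).mul hb.sin
  have h := (hp.mul ha1).add (((hU.mul hb.cos).add hq).mul hb1)
  refine h.congr_deriv ?_
  simp only [Pi.mul_apply, Pi.add_apply]
  ring

theorem jet_gen1 (α β τ : ℝ × ℝ → ℝ) (w e : ℝ × ℝ) (hα : DifferentiableAt ℝ α w)
    (hβ : DifferentiableAt ℝ β w) (hτ : DifferentiableAt ℝ τ w) :
    fderiv ℝ (fun w => emb (α w) (β w) (τ w)) w e =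
      jet (cos (α w)) (sin (α w)) (cos (β w)) (sin (β w)) (fderiv ℝ α w e) (fderiv ℝ β w e)
        0 0 0 (fderiv ℝ τ w e) := by
  have e0 : w + (0 : ℝ) • e = w := by rw [zero_smul, add_zero]
  have ha := curve α w e hα
  have hb := curve β w e hβ
  unfold emb
  rw [comp4 _ _ _ _ w e (by fun_prop) (by fun_prop) (by fun_prop) hτ]
  have r0 := fd_of_curve (fun w => (1 + 2 / 7 * ((1 - cos (α w)) * (1 - cos (β w)))) * sin (α w))
    w e (by fun_prop) _ (rule0 _ _ _ _ ha hb)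
  have r1 := fd_of_curve (fun w => (1 + 2 / 7 * ((1 - cos (α w)) * (1 - cos (β w)))) * sin (β w))
    w e (by fun_prop) _ (rule1 _ _ _ _ ha hb)
  have r2 := fd_of_curve (fun w => (1 + 2 / 7 * ((1 - cos (α w)) * (1 - cos (β w)))) *
    (cos (β w) - cos (α w))) w e (by fun_prop) _ (rule2 _ _ _ _ ha hb)
  simp only [e0] at r0 r1 r2
  rw [r0, r1, r2]
  unfold jet
  simp only [mul_zero, zero_add]

theorem jet_gen2 (α β τ : ℝ × ℝ → ℝ) (w e e' : ℝ × ℝ) (hα : Differentiable ℝ α)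
    (hβ : Differentiable ℝ β) (hτ : Differentiable ℝ τ)
    (hα1 : DifferentiableAt ℝ (fun w => fderiv ℝ α w e) w)
    (hβ1 : DifferentiableAt ℝ (fun w => fderiv ℝ β w e) w)
    (hτ1 : DifferentiableAt ℝ (fun w => fderiv ℝ τ w e) w) :
    fderiv ℝ (fun w => fderiv ℝ (fun w => emb (α w) (β w) (τ w)) w e) w e' =
      jet (cos (α w)) (sin (α w)) (cos (β w)) (sin (β w))
        (fderiv ℝ (fun w => fderiv ℝ α w e) w e') (fderiv ℝ (fun w => fderiv ℝ β w e) w e')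
        (fderiv ℝ α w e * fderiv ℝ α w e')
        (fderiv ℝ α w e * fderiv ℝ β w e' + fderiv ℝ α w e' * fderiv ℝ β w e)
        (fderiv ℝ β w e * fderiv ℝ β w e')
        (fderiv ℝ (fun w => fderiv ℝ τ w e) w e') := by
  have e0 : w + (0 : ℝ) • e' = w := by rw [zero_smul, add_zero]
  have ha := curve α w e' (hα w)
  have hb := curve β w e' (hβ w)
  have ha1 := curve _ w e' hα1
  have hb1 := curve _ w e' hβ1
  have hF : (fun w => fderiv ℝ (fun w => emb (α w) (β w) (τ w)) w e) = fun w =>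
      (!₂[((1 + 2/7*((1-cos (α w))*(1-cos (β w))))*cos (α w)
        + 2/7*(sin (α w)*(1-cos (β w)))*sin (α w)) * fderiv ℝ α w e
        + (2/7*(sin (β w)*(1-cos (α w)))*sin (α w)) * fderiv ℝ β w e,
        (2/7*(sin (α w)*(1-cos (β w)))*sin (β w)) * fderiv ℝ α w e
        + ((1 + 2/7*((1-cos (α w))*(1-cos (β w))))*cos (β w)
        + 2/7*(sin (β w)*(1-cos (α w)))*sin (β w)) * fderiv ℝ β w e,
        ((1 + 2/7*((1-cos (α w))*(1-cos (β w))))*sin (α w)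
        + 2/7*(sin (α w)*(1-cos (β w)))*(cos (β w)-cos (α w))) * fderiv ℝ α w e
        + (-(1 + 2/7*((1-cos (α w))*(1-cos (β w))))*sin (β w)
        + 2/7*(sin (β w)*(1-cos (α w)))*(cos (β w)-cos (α w))) * fderiv ℝ β w e,
        fderiv ℝ τ w e] : E4) := by
    funext w
    rw [jet_gen1 α β τ w e (hα w) (hβ w) (hτ w)]
    unfold jet
    simp only [mul_zero, zero_add]
  have hαw := hα w
  have hβw := hβ w
  rw [hF, comp4 _ _ _ _ w e' (by fun_prop) (by fun_prop) (by fun_prop) hτ1]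
  have r0 := fd_of_curve (fun w => ((1 + 2/7*((1-cos (α w))*(1-cos (β w))))*cos (α w)
        + 2/7*(sin (α w)*(1-cos (β w)))*sin (α w)) * fderiv ℝ α w e
        + (2/7*(sin (β w)*(1-cos (α w)))*sin (α w)) * fderiv ℝ β w e)
    w e' (by fun_prop) _ (rule00 _ _ _ _ _ _ _ _ ha hb ha1 hb1)
  have r1 := fd_of_curve (fun w => (2/7*(sin (α w)*(1-cos (β w)))*sin (β w)) * fderiv ℝ α w e
        + ((1 + 2/7*((1-cos (α w))*(1-cos (β w))))*cos (β w)
        + 2/7*(sin (β w)*(1-cos (α w)))*sin (β w)) * fderiv ℝ β w e)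
    w e' (by fun_prop) _ (rule11 _ _ _ _ _ _ _ _ ha hb ha1 hb1)
  have r2 := fd_of_curve (fun w => ((1 + 2/7*((1-cos (α w))*(1-cos (β w))))*sin (α w)
        + 2/7*(sin (α w)*(1-cos (β w)))*(cos (β w)-cos (α w))) * fderiv ℝ α w e
        + (-(1 + 2/7*((1-cos (α w))*(1-cos (β w))))*sin (β w)
        + 2/7*(sin (β w)*(1-cos (α w)))*(cos (β w)-cos (α w))) * fderiv ℝ β w e)
    w e' (by fun_prop) _ (rule22 _ _ _ _ _ _ _ _ ha hb ha1 hb1)
  simp only [e0] at r0 r1 r2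
  rw [r0, r1, r2]
  rfl

theorem diff_fd (α : ℝ × ℝ → ℝ) (hα : ContDiff ℝ 4 α) (e : ℝ × ℝ) :
    Differentiable ℝ (fun w => fderiv ℝ α w e) := by
  have h1 : ContDiff ℝ 3 (fderiv ℝ α) := hα.fderiv_right (m := 3) (by norm_num)
  have h2 : ContDiff ℝ 3 (fun w => fderiv ℝ α w e) := h1.clm_apply contDiff_const
  exact h2.differentiable (by norm_num)

theorem jet_Du (α β τ : ℝ × ℝ → ℝ) (hα : ContDiff ℝ 4 α) (hβ : ContDiff ℝ 4 β)
    (hτ : ContDiff ℝ 4 τ) (w : ℝ × ℝ) :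
    Du (fun w => emb (α w) (β w) (τ w)) w =
      jet (cos (α w)) (sin (α w)) (cos (β w)) (sin (β w)) (Du α w) (Du β w) 0 0 0 (Du τ w) :=
  jet_gen1 α β τ w (1, 0) (hα.differentiable (by norm_num) w)
    (hβ.differentiable (by norm_num) w) (hτ.differentiable (by norm_num) w)

theorem jet_Dv (α β τ : ℝ × ℝ → ℝ) (hα : ContDiff ℝ 4 α) (hβ : ContDiff ℝ 4 β)
    (hτ : ContDiff ℝ 4 τ) (w : ℝ × ℝ) :
    Dv (fun w => emb (α w) (β w) (τ w)) w =
      jet (cos (α w)) (sin (α w)) (cos (β w)) (sin (β w)) (Dv α w) (Dv β w) 0 0 0 (Dv τ w) :=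
  jet_gen1 α β τ w (0, 1) (hα.differentiable (by norm_num) w)
    (hβ.differentiable (by norm_num) w) (hτ.differentiable (by norm_num) w)

theorem jet_DuDu (α β τ : ℝ × ℝ → ℝ) (hα : ContDiff ℝ 4 α) (hβ : ContDiff ℝ 4 β)
    (hτ : ContDiff ℝ 4 τ) (w : ℝ × ℝ) :
    Du (Du (fun w => emb (α w) (β w) (τ w))) w =
      jet (cos (α w)) (sin (α w)) (cos (β w)) (sin (β w)) (Du (Du α) w) (Du (Du β) w)
        (Du α w ^ 2) (2 * (Du α w * Du β w)) (Du β w ^ 2) (Du (Du τ) w) := by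
  have h := jet_gen2 α β τ w (1, 0) (1, 0) (hα.differentiable (by norm_num))
    (hβ.differentiable (by norm_num)) (hτ.differentiable (by norm_num))
    (diff_fd α hα _ w) (diff_fd β hβ _ w) (diff_fd τ hτ _ w)
  have e1 : Du α w ^ 2 = Du α w * Du α w := by ring
  have e2 : Du β w ^ 2 = Du β w * Du β w := by ring
  have e3 : 2 * (Du α w * Du β w) = Du α w * Du β w + Du α w * Du β w := by ring
  rw [e1, e2, e3]
  exact h

end ChernG2
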