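import Pool.Agent.Helper427.Chern.Defs

open scoped ContDiff RealInnerProductSpace Topology
open Real

open scoped ContDiff RealInnerProductSpace Topology
open Real

namespace ChernG2


theorem emb_comp (x y z t : ℝ × ℝ → ℝ) (w e : ℝ × ℝ) (hx : DifferentiableAt ℝ x w)
    (hy : DifferentiableAt ℝ y w) (hz : DifferentiableAt ℝ z w) (ht : DifferentiableAt ℝ t w) :
    fderiv ℝ (fun w => (!₂[x w, y w, z w, t w] : E4)) w e =
      !₂[fderiv ℝ x w e, fderiv ℝ y w e, fderiv ℝ z w e, fderiv ℝ t w e] := by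
  have hf : DifferentiableAt ℝ (fun w => (!₂[x w, y w, z w, t w] : E4)) w := by
    rw [differentiableAt_euclidean]
    intro i
    fin_cases i
    · exact hx
    · exact hy
    · exact hz
    · exact ht
  have key : ∀ i : Fin 4, (fderiv ℝ (fun w => (!₂[x w, y w, z w, t w] : E4)) w e) i =
      fderiv ℝ (fun w => (!₂[x w, y w, z w, t w] : E4) i) w e := by
    intro i
    have h1 := ((EuclideanSpace.proj i : E4 →L[ℝ] ℝ).hasFDerivAt
      (x := (!₂[x w, y w, z w, t w] : E4))).comp w hf.hasFDerivAt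
    have h2 := h1.fderiv
    exact (congrArg (fun L : ℝ × ℝ →L[ℝ] ℝ => L e) h2).symm
  ext i
  rw [key i]
  fin_cases i <;> rfl

theorem emb_D (α β τ : ℝ × ℝ → ℝ) (w e : ℝ × ℝ) (hα : DifferentiableAt ℝ α w)
    (hβ : DifferentiableAt ℝ β w) (hτ : DifferentiableAt ℝ τ w) :
    fderiv ℝ (fun w => emb (α w) (β w) (τ w)) w e =
      !₂[((1 + 2/7*((1-cos (α w))*(1-cos (β w))))*cos (α w)
            + 2/7*(sin (α w)*(1-cos (β w)))*sin (α w)) * fderiv ℝ α w e
          + (2/7*(sin (β w)*(1-cos (α w)))*sin (α w)) * fderiv ℝ β w e,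
         (2/7*(sin (α w)*(1-cos (β w)))*sin (β w)) * fderiv ℝ α w e
          + ((1 + 2/7*((1-cos (α w))*(1-cos (β w))))*cos (β w)
            + 2/7*(sin (β w)*(1-cos (α w)))*sin (β w)) * fderiv ℝ β w e,
         ((1 + 2/7*((1-cos (α w))*(1-cos (β w))))*sin (α w)
            + 2/7*(sin (α w)*(1-cos (β w)))*(cos (β w) - cos (α w))) * fderiv ℝ α w e
          + (-(1 + 2/7*((1-cos (α w))*(1-cos (β w))))*sin (β w)
            + 2/7*(sin (β w)*(1-cos (α w)))*(cos (β w) - cos (α w))) * fderiv ℝ β w e,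
         fderiv ℝ τ w e] := by
  have hA := hα.hasFDerivAt
  have hB := hβ.hasFDerivAt
  have hca := hA.cos
  have hsa := hA.sin
  have hcb := hB.cos
  have hsb := hB.sin
  have hU := ((((hasFDerivAt_const (1:ℝ) w).sub hca).mul
    ((hasFDerivAt_const (1:ℝ) w).sub hcb)).const_mul (2/7:ℝ)).const_add (1:ℝ)
  have h1 := hU.mul hsa
  have h2 := hU.mul hsb
  have h3 := hU.mul (hcb.sub hca)
  have hmain := emb_comp
    (fun w => (1 + 2 / 7 * ((1 - cos (α w)) * (1 - cos (β w)))) * sin (α w))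
    (fun w => (1 + 2 / 7 * ((1 - cos (α w)) * (1 - cos (β w)))) * sin (β w))
    (fun w => (1 + 2 / 7 * ((1 - cos (α w)) * (1 - cos (β w)))) * (cos (β w) - cos (α w)))
    τ w e h1.differentiableAt h2.differentiableAt h3.differentiableAt hτ
  have e1 : fderiv ℝ (fun w => (1 + 2 / 7 * ((1 - cos (α w)) * (1 - cos (β w)))) * sin (α w)) w e
      = ((1 + 2/7*((1-cos (α w))*(1-cos (β w))))*cos (α w)
            + 2/7*(sin (α w)*(1-cos (β w)))*sin (α w)) * fderiv ℝ α w e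
          + (2/7*(sin (β w)*(1-cos (α w)))*sin (α w)) * fderiv ℝ β w e := by
    refine (congrArg (fun L : ℝ × ℝ →L[ℝ] ℝ => L e) h1.fderiv).trans ?_
    simp
    ring
  have e2 : fderiv ℝ (fun w => (1 + 2 / 7 * ((1 - cos (α w)) * (1 - cos (β w)))) * sin (β w)) w e
      = (2/7*(sin (α w)*(1-cos (β w)))*sin (β w)) * fderiv ℝ α w e
          + ((1 + 2/7*((1-cos (α w))*(1-cos (β w))))*cos (β w)
            + 2/7*(sin (β w)*(1-cos (α w)))*sin (β w)) * fderiv ℝ β w e := by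
    refine (congrArg (fun L : ℝ × ℝ →L[ℝ] ℝ => L e) h2.fderiv).trans ?_
    simp
    ring
  have e3 : fderiv ℝ (fun w => (1 + 2 / 7 * ((1 - cos (α w)) * (1 - cos (β w)))) *
        (cos (β w) - cos (α w))) w e
      = ((1 + 2/7*((1-cos (α w))*(1-cos (β w))))*sin (α w)
            + 2/7*(sin (α w)*(1-cos (β w)))*(cos (β w) - cos (α w))) * fderiv ℝ α w e
          + (-(1 + 2/7*((1-cos (α w))*(1-cos (β w))))*sin (β w)
            + 2/7*(sin (β w)*(1-cos (α w)))*(cos (β w) - cos (α w))) * fderiv ℝ β w e := by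
    refine (congrArg (fun L : ℝ × ℝ →L[ℝ] ℝ => L e) h3.fderiv).trans ?_
    simp
    ring
  rw [e1, e2, e3] at hmain
  exact hmain

theorem emb_DD (α β τ : ℝ × ℝ → ℝ) (hα : ContDiff ℝ 4 α) (hβ : ContDiff ℝ 4 β)
    (hτ : ContDiff ℝ 4 τ) (w e e' : ℝ × ℝ) :
    fderiv ℝ (fun w => fderiv ℝ (fun w => emb (α w) (β w) (τ w)) w e') w e =
      jet (cos (α w)) (sin (α w)) (cos (β w)) (sin (β w))
        (fderiv ℝ (fun w => fderiv ℝ α w e') w e) (fderiv ℝ (fun w => fderiv ℝ β w e') w e)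
        (fderiv ℝ α w e * fderiv ℝ α w e')
        (fderiv ℝ α w e * fderiv ℝ β w e' + fderiv ℝ α w e' * fderiv ℝ β w e)
        (fderiv ℝ β w e * fderiv ℝ β w e')
        (fderiv ℝ (fun w => fderiv ℝ τ w e') w e) := by
  have dα : Differentiable ℝ α := hα.differentiable (by norm_num)
  have dβ : Differentiable ℝ β := hβ.differentiable (by norm_num)
  have dτ : Differentiable ℝ τ := hτ.differentiable (by norm_num)
  have hfun : (fun w => fderiv ℝ (fun w => emb (α w) (β w) (τ w)) w e') = fun w =>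
      !₂[((1 + 2/7*((1-cos (α w))*(1-cos (β w))))*cos (α w)
            + 2/7*(sin (α w)*(1-cos (β w)))*sin (α w)) * fderiv ℝ α w e'
          + (2/7*(sin (β w)*(1-cos (α w)))*sin (α w)) * fderiv ℝ β w e',
         (2/7*(sin (α w)*(1-cos (β w)))*sin (β w)) * fderiv ℝ α w e'
          + ((1 + 2/7*((1-cos (α w))*(1-cos (β w))))*cos (β w)
            + 2/7*(sin (β w)*(1-cos (α w)))*sin (β w)) * fderiv ℝ β w e',
         ((1 + 2/7*((1-cos (α w))*(1-cos (β w))))*sin (α w)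
            + 2/7*(sin (α w)*(1-cos (β w)))*(cos (β w) - cos (α w))) * fderiv ℝ α w e'
          + (-(1 + 2/7*((1-cos (α w))*(1-cos (β w))))*sin (β w)
            + 2/7*(sin (β w)*(1-cos (α w)))*(cos (β w) - cos (α w))) * fderiv ℝ β w e',
         fderiv ℝ τ w e'] := by
    funext w
    exact emb_D α β τ w e' (dα w) (dβ w) (dτ w)
  have D2 : ∀ g : ℝ × ℝ → ℝ, ContDiff ℝ 4 g → DifferentiableAt ℝ (fun w => fderiv ℝ g w e') w := by
    intro g hg
    have h1 : Differentiable ℝ (fderiv ℝ g) :=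
      (hg.fderiv_right (m := 1) (by norm_num)).differentiable (by norm_num)
    exact (h1 w).clm_apply (differentiableAt_const _)
  have hA := (dα w).hasFDerivAt
  have hB := (dβ w).hasFDerivAt
  have hA' := (D2 α hα).hasFDerivAt
  have hB' := (D2 β hβ).hasFDerivAt
  have hca := hA.cos
  have hsa := hA.sin
  have hcb := hB.cos
  have hsb := hB.sin
  have h1ca := (hasFDerivAt_const (1:ℝ) w).sub hca
  have h1cb := (hasFDerivAt_const (1:ℝ) w).sub hcb
  have hU := ((h1ca.mul h1cb).const_mul (2/7:ℝ)).const_add (1:ℝ)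
  have hp1 := (hsa.mul h1cb).const_mul (2/7:ℝ)
  have hp2 := (hsb.mul h1ca).const_mul (2/7:ℝ)
  have hX1 := (((hU.mul hca).add (hp1.mul hsa)).mul hA').add ((hp2.mul hsa).mul hB')
  have hX2 := ((hp1.mul hsb).mul hA').add (((hU.mul hcb).add (hp2.mul hsb)).mul hB')
  have hX3 := (((hU.mul hsa).add (hp1.mul (hcb.sub hca))).mul hA').add
    (((hU.neg.mul hsb).add (hp2.mul (hcb.sub hca))).mul hB')
  rw [hfun]
  have hmain := emb_comp
    (fun w => ((1 + 2/7*((1-cos (α w))*(1-cos (β w))))*cos (α w)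
            + 2/7*(sin (α w)*(1-cos (β w)))*sin (α w)) * fderiv ℝ α w e'
          + (2/7*(sin (β w)*(1-cos (α w)))*sin (α w)) * fderiv ℝ β w e')
    (fun w => (2/7*(sin (α w)*(1-cos (β w)))*sin (β w)) * fderiv ℝ α w e'
          + ((1 + 2/7*((1-cos (α w))*(1-cos (β w))))*cos (β w)
            + 2/7*(sin (β w)*(1-cos (α w)))*sin (β w)) * fderiv ℝ β w e')
    (fun w => ((1 + 2/7*((1-cos (α w))*(1-cos (β w))))*sin (α w)
            + 2/7*(sin (α w)*(1-cos (β w)))*(cos (β w) - cos (α w))) * fderiv ℝ α w e'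
          + (-(1 + 2/7*((1-cos (α w))*(1-cos (β w))))*sin (β w)
            + 2/7*(sin (β w)*(1-cos (α w)))*(cos (β w) - cos (α w))) * fderiv ℝ β w e')
    (fun w => fderiv ℝ τ w e') w e
    hX1.differentiableAt hX2.differentiableAt hX3.differentiableAt (D2 τ hτ)
  rw [hmain]
  have e1 := congrArg (fun L : ℝ × ℝ →L[ℝ] ℝ => L e) hX1.fderiv
  have e2 := congrArg (fun L : ℝ × ℝ →L[ℝ] ℝ => L e) hX2.fderiv
  have e3 := congrArg (fun L : ℝ × ℝ →L[ℝ] ℝ => L e) hX3.fderiv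
  have hc1 := Real.sin_sq_add_cos_sq (α w)
  unfold jet
  congr 1
  ext i
  fin_cases i
  · refine e1.trans ?_
    simp
    ring
  · refine e2.trans ?_
    simp
    ring
  · refine e3.trans ?_
    simp
    ring
  · rfl

theorem jet_DuDv (α β τ : ℝ × ℝ → ℝ) (hα : ContDiff ℝ 4 α) (hβ : ContDiff ℝ 4 β)
    (hτ : ContDiff ℝ 4 τ) (w : ℝ × ℝ) :
    Du (Dv (fun w => emb (α w) (β w) (τ w))) w =
      jet (cos (α w)) (sin (α w)) (cos (β w)) (sin (β w)) (Du (Dv α) w) (Du (Dv β) w)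
        (Du α w * Dv α w) (Du α w * Dv β w + Dv α w * Du β w) (Du β w * Dv β w)
        (Du (Dv τ) w) :=
  emb_DD α β τ hα hβ hτ w (1, 0) (0, 1)

theorem jet_DvDv (α β τ : ℝ × ℝ → ℝ) (hα : ContDiff ℝ 4 α) (hβ : ContDiff ℝ 4 β)
    (hτ : ContDiff ℝ 4 τ) (w : ℝ × ℝ) :
    Dv (Dv (fun w => emb (α w) (β w) (τ w))) w =
      jet (cos (α w)) (sin (α w)) (cos (β w)) (sin (β w)) (Dv (Dv α) w) (Dv (Dv β) w)
        (Dv α w ^ 2) (2 * (Dv α w * Dv β w)) (Dv β w ^ 2) (Dv (Dv τ) w) := by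
  rw [sq, sq, two_mul]
  exact emb_DD α β τ hα hβ hτ w (0, 1) (0, 1)

end ChernG2
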