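import Pool.Agent.Helper427.Chern.Defs

open scoped ContDiff RealInnerProductSpace Topology
open Real

open scoped ContDiff RealInnerProductSpace Topology
open Real

namespace ChernG2


noncomputable def d3 (a1 a2 a3 b1 b2 b3 c1 c2 c3 : ℝ) : ℝ :=
  a1 * (b2 * c3 - b3 * c2) - a2 * (b1 * c3 - b3 * c1) + a3 * (b1 * c2 - b2 * c1)

theorem inner4 (v1 v2 v3 v4 w1 w2 w3 w4 : ℝ) :
    ⟪(!₂[v1, v2, v3, v4] : E4), (!₂[w1, w2, w3, w4] : E4)⟫ = v1 * w1 + v2 * w2 + v3 * w3 + v4 * w4 := by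
  simp [PiLp.inner_apply, Fin.sum_univ_four]
  ring

theorem gram_id (n1 n2 n3 p1 p2 p3 p4 q1 q2 q3 q4 v1 v2 v3 v4 w1 w2 w3 w4 : ℝ)
    (hp : n1 * p1 + n2 * p2 + n3 * p3 = 0) (hq : n1 * q1 + n2 * q2 + n3 * q3 = 0) :
    (n1 * n1 + n2 * n2 + n3 * n3) * gram3 !₂[v1, v2, v3, v4] !₂[w1, w2, w3, w4] !₂[p1, p2, p3, p4]
        !₂[q1, q2, q3, q4]
    = ((p1 * p1 + p2 * p2 + p3 * p3 + p4 * p4) * (q1 * q1 + q2 * q2 + q3 * q3 + q4 * q4)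
        - (p1 * q1 + p2 * q2 + p3 * q3 + p4 * q4) ^ 2)
        * (n1 * v1 + n2 * v2 + n3 * v3) * (n1 * w1 + n2 * w2 + n3 * w3)
      + (p4 * d3 n1 n2 n3 q1 q2 q3 v1 v2 v3 - q4 * d3 n1 n2 n3 p1 p2 p3 v1 v2 v3
          + v4 * d3 n1 n2 n3 p1 p2 p3 q1 q2 q3) *
        (p4 * d3 n1 n2 n3 q1 q2 q3 w1 w2 w3 - q4 * d3 n1 n2 n3 p1 p2 p3 w1 w2 w3
          + w4 * d3 n1 n2 n3 p1 p2 p3 q1 q2 q3) := by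
  have hd4 : ∀ v1 v2 v3 v4 : ℝ, Matrix.det !![n1, n2, n3, 0; p1, p2, p3, p4; q1, q2, q3, q4;
      v1, v2, v3, v4] = p4 * d3 n1 n2 n3 q1 q2 q3 v1 v2 v3 - q4 * d3 n1 n2 n3 p1 p2 p3 v1 v2 v3
          + v4 * d3 n1 n2 n3 p1 p2 p3 q1 q2 q3 := by
    intro v1 v2 v3 v4
    unfold d3
    simp [Matrix.det_succ_row_zero, Fin.sum_univ_succ, Fin.succAbove]
    ring
  have hg : ∀ nn' nw pp pq pw qq qw nv vp vq vw : ℝ,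
      Matrix.det !![nn', 0, 0, nw; 0, pp, pq, pw; 0, pq, qq, qw; nv, vp, vq, vw]
      = nn' * (pp * (qq * vw - qw * vq) - pq * (pq * vw - qw * vp) + pw * (pq * vq - qq * vp))
        - nw * nv * (pp * qq - pq ^ 2) := by
    intro nn' nw pp pq pw qq qw nv vp vq vw
    simp [Matrix.det_succ_row_zero, Fin.sum_univ_succ, Fin.succAbove]
    ring
  have hmul := Matrix.det_mul !![n1, n2, n3, 0; p1, p2, p3, p4; q1, q2, q3, q4; v1, v2, v3, v4]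
    (Matrix.transpose !![n1, n2, n3, 0; p1, p2, p3, p4; q1, q2, q3, q4; w1, w2, w3, w4])
  rw [Matrix.det_transpose, hd4, hd4] at hmul
  have hprod : !![n1, n2, n3, 0; p1, p2, p3, p4; q1, q2, q3, q4; v1, v2, v3, v4] *
      (Matrix.transpose !![n1, n2, n3, 0; p1, p2, p3, p4; q1, q2, q3, q4; w1, w2, w3, w4])
      = !![n1 * n1 + n2 * n2 + n3 * n3, 0, 0, n1 * w1 + n2 * w2 + n3 * w3;
          0, p1 * p1 + p2 * p2 + p3 * p3 + p4 * p4, p1 * q1 + p2 * q2 + p3 * q3 + p4 * q4,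
            p1 * w1 + p2 * w2 + p3 * w3 + p4 * w4;
          0, p1 * q1 + p2 * q2 + p3 * q3 + p4 * q4, q1 * q1 + q2 * q2 + q3 * q3 + q4 * q4,
            q1 * w1 + q2 * w2 + q3 * w3 + q4 * w4;
          n1 * v1 + n2 * v2 + n3 * v3, p1 * v1 + p2 * v2 + p3 * v3 + p4 * v4,
            q1 * v1 + q2 * v2 + q3 * v3 + q4 * v4, v1 * w1 + v2 * w2 + v3 * w3 + v4 * w4] := by
    ext i j
    fin_cases i <;> fin_cases j <;>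
      simp [Matrix.mul_apply, Fin.sum_univ_four] <;> linarith
  rw [hprod, hg] at hmul
  have hG : gram3 !₂[v1, v2, v3, v4] !₂[w1, w2, w3, w4] !₂[p1, p2, p3, p4] !₂[q1, q2, q3, q4]
      = (p1 * p1 + p2 * p2 + p3 * p3 + p4 * p4) * ((q1 * q1 + q2 * q2 + q3 * q3 + q4 * q4) * (v1 * w1 + v2 * w2 + v3 * w3 + v4 * w4) - (q1 * w1 + q2 * w2 + q3 * w3 + q4 * w4) * (q1 * v1 + q2 * v2 + q3 * v3 + q4 * v4)) - (p1 * q1 + p2 * q2 + p3 * q3 + p4 * q4) * ((p1 * q1 + p2 * q2 + p3 * q3 + p4 * q4) * (v1 * w1 + v2 * w2 + v3 * w3 + v4 * w4) - (q1 * w1 + q2 * w2 + q3 * w3 + q4 * w4) * (p1 * v1 + p2 * v2 + p3 * v3 + p4 * v4)) + (p1 * w1 + p2 * w2 + p3 * w3 + p4 * w4) * ((p1 * q1 + p2 * q2 + p3 * q3 + p4 * q4) * (q1 * v1 + q2 * v2 + q3 * v3 + q4 * v4) - (q1 * q1 + q2 * q2 + q3 * q3 + q4 * q4) * (p1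 * v1 + p2 * v2 + p3 * v3 + p4 * v4)) := by
    unfold gram3
    rw [inner4, inner4, inner4, inner4, inner4, inner4, inner4, inner4, Matrix.det_fin_three]
    simp only [Matrix.of_apply, Matrix.cons_val]
    generalize p1 * p1 + p2 * p2 + p3 * p3 + p4 * p4 = PP
    generalize q1 * q1 + q2 * q2 + q3 * q3 + q4 * q4 = QQ'
    generalize p1 * q1 + p2 * q2 + p3 * q3 + p4 * q4 = PQ
    generalize v1 * w1 + v2 * w2 + v3 * w3 + v4 * w4 = VW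
    rw [show v1 * p1 + v2 * p2 + v3 * p3 + v4 * p4 = p1 * v1 + p2 * v2 + p3 * v3 + p4 * v4 by ring,
      show v1 * q1 + v2 * q2 + v3 * q3 + v4 * q4 = q1 * v1 + q2 * v2 + q3 * v3 + q4 * v4 by ring,
      show w1 * p1 + w2 * p2 + w3 * p3 + w4 * p4 = p1 * w1 + p2 * w2 + p3 * w3 + p4 * w4 by ring,
      show w1 * q1 + w2 * q2 + w3 * q3 + w4 * q4 = q1 * w1 + q2 * w2 + q3 * w3 + q4 * w4 by ring]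
    generalize p1 * v1 + p2 * v2 + p3 * v3 + p4 * v4 = PV
    generalize q1 * v1 + q2 * v2 + q3 * v3 + q4 * v4 = QV
    generalize p1 * w1 + p2 * w2 + p3 * w3 + p4 * w4 = PW
    generalize q1 * w1 + q2 * w2 + q3 * w3 + q4 * w4 = QW
    ring
  rw [hG]
  linear_combination hmul

/-- the determinant formula -/
theorem D_formula (n1 n2 n3 a1 a2 a3 b1 b2 b3 c1 c2 c3 d1 d2 d3' f1 f2 f3
    x1 x2 x3 y1 y2 y3 e1 e2 e11 e12 e22 v4 : ℝ) :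
    x3 * d3 n1 n2 n3 (a1 * y1 + b1 * y2) (a2 * y1 + b2 * y2) (a3 * y1 + b3 * y2)
        (c1 * e11 + d1 * e12 + f1 * e22 + a1 * e1 + b1 * e2)
        (c2 * e11 + d2 * e12 + f2 * e22 + a2 * e1 + b2 * e2)
        (c3 * e11 + d3' * e12 + f3 * e22 + a3 * e1 + b3 * e2)
      - y3 * d3 n1 n2 n3 (a1 * x1 + b1 * x2) (a2 * x1 + b2 * x2) (a3 * x1 + b3 * x2)
        (c1 * e11 + d1 * e12 + f1 * e22 + a1 * e1 + b1 * e2)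
        (c2 * e11 + d2 * e12 + f2 * e22 + a2 * e1 + b2 * e2)
        (c3 * e11 + d3' * e12 + f3 * e22 + a3 * e1 + b3 * e2)
      + v4 * d3 n1 n2 n3 (a1 * x1 + b1 * x2) (a2 * x1 + b2 * x2) (a3 * x1 + b3 * x2)
        (a1 * y1 + b1 * y2) (a2 * y1 + b2 * y2) (a3 * y1 + b3 * y2)
    = d3 n1 n2 n3 a1 a2 a3 b1 b2 b3 * ((x2 * y3 - x3 * y2) * e1 + (x3 * y1 - x1 * y3) * e2
        + (x1 * y2 - x2 * y1) * v4)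
      + e11 * ((x3 * y1 - x1 * y3) * d3 n1 n2 n3 a1 a2 a3 c1 c2 c3
          - (x2 * y3 - x3 * y2) * d3 n1 n2 n3 b1 b2 b3 c1 c2 c3)
      + e12 * ((x3 * y1 - x1 * y3) * d3 n1 n2 n3 a1 a2 a3 d1 d2 d3'
          - (x2 * y3 - x3 * y2) * d3 n1 n2 n3 b1 b2 b3 d1 d2 d3')
      + e22 * ((x3 * y1 - x1 * y3) * d3 n1 n2 n3 a1 a2 a3 f1 f2 f3
          - (x2 * y3 - x3 * y2) * d3 n1 n2 n3 b1 b2 b3 f1 f2 f3) := by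
  unfold d3
  ring

theorem D_val (n1 n2 n3 a1 a2 a3 b1 b2 b3 c1 c2 c3 d1 d2 d3' f1 f2 f3
    x1 x2 x3 y1 y2 y3 e1 e2 e11 e12 e22 v4 lam p1 p2 t U D p11 p12 p22 H11 H12 H22 q : ℝ)
    (h1 : x2 * y3 - x3 * y2 = lam * p1) (h2 : x3 * y1 - x1 * y3 = lam * p2)
    (h3 : x1 * y2 - x2 * y1 = lam * (2 * t))
    (hab : d3 n1 n2 n3 a1 a2 a3 b1 b2 b3 = U * D)
    (hc : p2 * d3 n1 n2 n3 a1 a2 a3 c1 c2 c3 - p1 * d3 n1 n2 n3 b1 b2 b3 c1 c2 c3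
      = U * (H11 + D * p11))
    (hd : p2 * d3 n1 n2 n3 a1 a2 a3 d1 d2 d3' - p1 * d3 n1 n2 n3 b1 b2 b3 d1 d2 d3'
      = U * (H12 + D * p12))
    (hf : p2 * d3 n1 n2 n3 a1 a2 a3 f1 f2 f3 - p1 * d3 n1 n2 n3 b1 b2 b3 f1 f2 f3
      = U * (H22 + D * p22))
    (hE : p1 * e1 + p2 * e2 + 2 * t * v4 + (p11 * e11 + p12 * e12 + p22 * e22 + 2 * q) = 0) :
    x3 * d3 n1 n2 n3 (a1 * y1 + b1 * y2) (a2 * y1 + b2 * y2) (a3 * y1 + b3 * y2)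
        (c1 * e11 + d1 * e12 + f1 * e22 + a1 * e1 + b1 * e2)
        (c2 * e11 + d2 * e12 + f2 * e22 + a2 * e1 + b2 * e2)
        (c3 * e11 + d3' * e12 + f3 * e22 + a3 * e1 + b3 * e2)
      - y3 * d3 n1 n2 n3 (a1 * x1 + b1 * x2) (a2 * x1 + b2 * x2) (a3 * x1 + b3 * x2)
        (c1 * e11 + d1 * e12 + f1 * e22 + a1 * e1 + b1 * e2)
        (c2 * e11 + d2 * e12 + f2 * e22 + a2 * e1 + b2 * e2)
        (c3 * e11 + d3' * e12 + f3 * e22 + a3 * e1 + b3 * e2)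
      + v4 * d3 n1 n2 n3 (a1 * x1 + b1 * x2) (a2 * x1 + b2 * x2) (a3 * x1 + b3 * x2)
        (a1 * y1 + b1 * y2) (a2 * y1 + b2 * y2) (a3 * y1 + b3 * y2)
    = lam * U * (H11 * e11 + H12 * e12 + H22 * e22 - 2 * D * q) := by
  rw [D_formula, h1, h2, h3, hab]
  linear_combination lam * e11 * hc + lam * e12 * hd + lam * e22 * hf + lam * U * D * hE

theorem num_core (n1 n2 n3 a1 a2 a3 b1 b2 b3 c1 c2 c3 d1 d2 d3' f1 f2 f3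
    x1 x2 x3 y1 y2 y3 uu1 uu2 uu3 uv1 uv2 uv3 vv1 vv2 vv3 lam p1 p2 t U D p11 p12 p22
    H11 H12 H22 L M L' : ℝ)
    (h1 : x2 * y3 - x3 * y2 = lam * p1) (h2 : x3 * y1 - x1 * y3 = lam * p2)
    (h3 : x1 * y2 - x2 * y1 = lam * (2 * t))
    (hna : n1 * a1 + n2 * a2 + n3 * a3 = 0) (hnb : n1 * b1 + n2 * b2 + n3 * b3 = 0)
    (hnc : n1 * c1 + n2 * c2 + n3 * c3 = L) (hnd : n1 * d1 + n2 * d2 + n3 * d3' = M)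
    (hnf : n1 * f1 + n2 * f2 + n3 * f3 = L') (hnn : n1 * n1 + n2 * n2 + n3 * n3 = D)
    (hab : d3 n1 n2 n3 a1 a2 a3 b1 b2 b3 = U * D)
    (hc : p2 * d3 n1 n2 n3 a1 a2 a3 c1 c2 c3 - p1 * d3 n1 n2 n3 b1 b2 b3 c1 c2 c3
      = U * (H11 + D * p11))
    (hd : p2 * d3 n1 n2 n3 a1 a2 a3 d1 d2 d3' - p1 * d3 n1 n2 n3 b1 b2 b3 d1 d2 d3'
      = U * (H12 + D * p12))
    (hf : p2 * d3 n1 n2 n3 a1 a2 a3 f1 f2 f3 - p1 * d3 n1 n2 n3 b1 b2 b3 f1 f2 f3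
      = U * (H22 + D * p22))
    (huu : p1 * uu1 + p2 * uu2 + 2 * t * uu3
      + (p11 * x1 ^ 2 + p12 * (2 * (x1 * x2)) + p22 * x2 ^ 2 + 2 * x3 ^ 2) = 0)
    (huv : p1 * uv1 + p2 * uv2 + 2 * t * uv3
      + (p11 * (x1 * y1) + p12 * (x1 * y2 + y1 * x2) + p22 * (x2 * y2) + 2 * (x3 * y3)) = 0)
    (hvv : p1 * vv1 + p2 * vv2 + 2 * t * vv3
      + (p11 * y1 ^ 2 + p12 * (2 * (y1 * y2)) + p22 * y2 ^ 2 + 2 * y3 ^ 2) = 0)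
    (Puu Pvv Puv Px Py : E4)
    (ePuu : Puu = !₂[c1 * x1 ^ 2 + d1 * (2 * (x1 * x2)) + f1 * x2 ^ 2 + a1 * uu1 + b1 * uu2,
      c2 * x1 ^ 2 + d2 * (2 * (x1 * x2)) + f2 * x2 ^ 2 + a2 * uu1 + b2 * uu2,
      c3 * x1 ^ 2 + d3' * (2 * (x1 * x2)) + f3 * x2 ^ 2 + a3 * uu1 + b3 * uu2, uu3])
    (ePvv : Pvv = !₂[c1 * y1 ^ 2 + d1 * (2 * (y1 * y2)) + f1 * y2 ^ 2 + a1 * vv1 + b1 * vv2,
      c2 * y1 ^ 2 + d2 * (2 * (y1 * y2)) + f2 * y2 ^ 2 + a2 * vv1 + b2 * vv2,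
      c3 * y1 ^ 2 + d3' * (2 * (y1 * y2)) + f3 * y2 ^ 2 + a3 * vv1 + b3 * vv2, vv3])
    (ePuv : Puv = !₂[c1 * (x1 * y1) + d1 * (x1 * y2 + y1 * x2) + f1 * (x2 * y2)
        + a1 * uv1 + b1 * uv2,
      c2 * (x1 * y1) + d2 * (x1 * y2 + y1 * x2) + f2 * (x2 * y2) + a2 * uv1 + b2 * uv2,
      c3 * (x1 * y1) + d3' * (x1 * y2 + y1 * x2) + f3 * (x2 * y2) + a3 * uv1 + b3 * uv2, uv3])
    (ePx : Px = !₂[a1 * x1 + b1 * x2, a2 * x1 + b2 * x2, a3 * x1 + b3 * x2, x3])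
    (ePy : Py = !₂[a1 * y1 + b1 * y2, a2 * y1 + b2 * y2, a3 * y1 + b3 * y2, y3]) :
    D * (gram3 Puu Pvv Px Py - gram3 Puv Puv Px Py)
    = 4 * lam ^ 2 * t ^ 2 * (⟪Px, Px⟫ * ⟪Py, Py⟫ - ⟪Px, Py⟫ ^ 2) * (L * L' - M ^ 2)
      + 4 * lam ^ 4 * t ^ 2 * U ^ 2 * (H11 * H22 - H12 ^ 2)
      - 2 * lam ^ 4 * U ^ 2 * D * (H11 * p2 ^ 2 - 2 * H12 * p1 * p2 + H22 * p1 ^ 2) := by
  have hpx : n1 * (a1 * x1 + b1 * x2) + n2 * (a2 * x1 + b2 * x2) + n3 * (a3 * x1 + b3 * x2) = 0 := by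
    linear_combination x1 * hna + x2 * hnb
  have hpy : n1 * (a1 * y1 + b1 * y2) + n2 * (a2 * y1 + b2 * y2) + n3 * (a3 * y1 + b3 * y2) = 0 := by
    linear_combination y1 * hna + y2 * hnb
  have g1 := gram_id n1 n2 n3 (a1 * x1 + b1 * x2) (a2 * x1 + b2 * x2) (a3 * x1 + b3 * x2) x3
    (a1 * y1 + b1 * y2) (a2 * y1 + b2 * y2) (a3 * y1 + b3 * y2) y3
    (c1 * x1 ^ 2 + d1 * (2 * (x1 * x2)) + f1 * x2 ^ 2 + a1 * uu1 + b1 * uu2)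
    (c2 * x1 ^ 2 + d2 * (2 * (x1 * x2)) + f2 * x2 ^ 2 + a2 * uu1 + b2 * uu2)
    (c3 * x1 ^ 2 + d3' * (2 * (x1 * x2)) + f3 * x2 ^ 2 + a3 * uu1 + b3 * uu2) uu3
    (c1 * y1 ^ 2 + d1 * (2 * (y1 * y2)) + f1 * y2 ^ 2 + a1 * vv1 + b1 * vv2)
    (c2 * y1 ^ 2 + d2 * (2 * (y1 * y2)) + f2 * y2 ^ 2 + a2 * vv1 + b2 * vv2)
    (c3 * y1 ^ 2 + d3' * (2 * (y1 * y2)) + f3 * y2 ^ 2 + a3 * vv1 + b3 * vv2) vv3 hpx hpy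
  have g2 := gram_id n1 n2 n3 (a1 * x1 + b1 * x2) (a2 * x1 + b2 * x2) (a3 * x1 + b3 * x2) x3
    (a1 * y1 + b1 * y2) (a2 * y1 + b2 * y2) (a3 * y1 + b3 * y2) y3
    (c1 * (x1 * y1) + d1 * (x1 * y2 + y1 * x2) + f1 * (x2 * y2) + a1 * uv1 + b1 * uv2)
    (c2 * (x1 * y1) + d2 * (x1 * y2 + y1 * x2) + f2 * (x2 * y2) + a2 * uv1 + b2 * uv2)
    (c3 * (x1 * y1) + d3' * (x1 * y2 + y1 * x2) + f3 * (x2 * y2) + a3 * uv1 + b3 * uv2) uv3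
    (c1 * (x1 * y1) + d1 * (x1 * y2 + y1 * x2) + f1 * (x2 * y2) + a1 * uv1 + b1 * uv2)
    (c2 * (x1 * y1) + d2 * (x1 * y2 + y1 * x2) + f2 * (x2 * y2) + a2 * uv1 + b2 * uv2)
    (c3 * (x1 * y1) + d3' * (x1 * y2 + y1 * x2) + f3 * (x2 * y2) + a3 * uv1 + b3 * uv2) uv3 hpx hpy
  rw [← ePx, ← ePy, ← ePuu, ← ePvv, hnn] at g1
  rw [← ePx, ← ePy, ← ePuv, hnn] at g2
  have nuu : n1 * (c1 * x1 ^ 2 + d1 * (2 * (x1 * x2)) + f1 * x2 ^ 2 + a1 * uu1 + b1 * uu2)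
      + n2 * (c2 * x1 ^ 2 + d2 * (2 * (x1 * x2)) + f2 * x2 ^ 2 + a2 * uu1 + b2 * uu2)
      + n3 * (c3 * x1 ^ 2 + d3' * (2 * (x1 * x2)) + f3 * x2 ^ 2 + a3 * uu1 + b3 * uu2)
      = L * x1 ^ 2 + M * (2 * (x1 * x2)) + L' * x2 ^ 2 := by
    linear_combination x1 ^ 2 * hnc + 2 * (x1 * x2) * hnd + x2 ^ 2 * hnf + uu1 * hna + uu2 * hnb
  have nvv : n1 * (c1 * y1 ^ 2 + d1 * (2 * (y1 * y2)) + f1 * y2 ^ 2 + a1 * vv1 + b1 * vv2)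
      + n2 * (c2 * y1 ^ 2 + d2 * (2 * (y1 * y2)) + f2 * y2 ^ 2 + a2 * vv1 + b2 * vv2)
      + n3 * (c3 * y1 ^ 2 + d3' * (2 * (y1 * y2)) + f3 * y2 ^ 2 + a3 * vv1 + b3 * vv2)
      = L * y1 ^ 2 + M * (2 * (y1 * y2)) + L' * y2 ^ 2 := by
    linear_combination y1 ^ 2 * hnc + 2 * (y1 * y2) * hnd + y2 ^ 2 * hnf + vv1 * hna + vv2 * hnb
  have nuv : n1 * (c1 * (x1 * y1) + d1 * (x1 * y2 + y1 * x2) + f1 * (x2 * y2) + a1 * uv1 + b1 * uv2)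
      + n2 * (c2 * (x1 * y1) + d2 * (x1 * y2 + y1 * x2) + f2 * (x2 * y2) + a2 * uv1 + b2 * uv2)
      + n3 * (c3 * (x1 * y1) + d3' * (x1 * y2 + y1 * x2) + f3 * (x2 * y2) + a3 * uv1 + b3 * uv2)
      = L * (x1 * y1) + M * (x1 * y2 + y1 * x2) + L' * (x2 * y2) := by
    linear_combination (x1 * y1) * hnc + (x1 * y2 + y1 * x2) * hnd + (x2 * y2) * hnf
      + uv1 * hna + uv2 * hnb
  rw [nuu, nvv] at g1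
  rw [nuv] at g2
  have duu := D_val n1 n2 n3 a1 a2 a3 b1 b2 b3 c1 c2 c3 d1 d2 d3' f1 f2 f3 x1 x2 x3 y1 y2 y3
    uu1 uu2 (x1 ^ 2) (2 * (x1 * x2)) (x2 ^ 2) uu3 lam p1 p2 t U D p11 p12 p22 H11 H12 H22 (x3 ^ 2)
    h1 h2 h3 hab hc hd hf huu
  have dvv := D_val n1 n2 n3 a1 a2 a3 b1 b2 b3 c1 c2 c3 d1 d2 d3' f1 f2 f3 x1 x2 x3 y1 y2 y3
    vv1 vv2 (y1 ^ 2) (2 * (y1 * y2)) (y2 ^ 2) vv3 lam p1 p2 t U D p11 p12 p22 H11 H12 H22 (y3 ^ 2)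
    h1 h2 h3 hab hc hd hf hvv
  have duv := D_val n1 n2 n3 a1 a2 a3 b1 b2 b3 c1 c2 c3 d1 d2 d3' f1 f2 f3 x1 x2 x3 y1 y2 y3
    uv1 uv2 (x1 * y1) (x1 * y2 + y1 * x2) (x2 * y2) uv3 lam p1 p2 t U D p11 p12 p22 H11 H12 H22
    (x3 * y3) h1 h2 h3 hab hc hd hf huv
  rw [duu, dvv] at g1
  rw [duv] at g2
  have hW : ⟪Px, Px⟫ * ⟪Py, Py⟫ - ⟪Px, Py⟫ ^ 2 =
      (((a1 * x1 + b1 * x2) * (a1 * x1 + b1 * x2) + (a2 * x1 + b2 * x2) * (a2 * x1 + b2 * x2) +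
          (a3 * x1 + b3 * x2) * (a3 * x1 + b3 * x2) + x3 * x3) *
        ((a1 * y1 + b1 * y2) * (a1 * y1 + b1 * y2) + (a2 * y1 + b2 * y2) * (a2 * y1 + b2 * y2) +
          (a3 * y1 + b3 * y2) * (a3 * y1 + b3 * y2) + y3 * y3) -
        ((a1 * x1 + b1 * x2) * (a1 * y1 + b1 * y2) + (a2 * x1 + b2 * x2) * (a2 * y1 + b2 * y2) +
          (a3 * x1 + b3 * x2) * (a3 * y1 + b3 * y2) + x3 * y3) ^ 2) := by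
    rw [ePx, ePy, inner4, inner4, inner4]
  rw [← hW] at g1 g2
  generalize ⟪Px, Px⟫ * ⟪Py, Py⟫ - ⟪Px, Py⟫ ^ 2 = W at *
  have e1 : (L * x1 ^ 2 + M * (2 * (x1 * x2)) + L' * x2 ^ 2)
      * (L * y1 ^ 2 + M * (2 * (y1 * y2)) + L' * y2 ^ 2)
      - (L * (x1 * y1) + M * (x1 * y2 + y1 * x2) + L' * (x2 * y2)) ^ 2
      = (L * L' - M ^ 2) * (x1 * y2 - x2 * y1) ^ 2 := by ring
  have e2 : (H11 * x1 ^ 2 + H12 * (2 * (x1 * x2)) + H22 * x2 ^ 2 - 2 * D * x3 ^ 2)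
      * (H11 * y1 ^ 2 + H12 * (2 * (y1 * y2)) + H22 * y2 ^ 2 - 2 * D * y3 ^ 2)
      - (H11 * (x1 * y1) + H12 * (x1 * y2 + y1 * x2) + H22 * (x2 * y2) - 2 * D * (x3 * y3)) ^ 2
      = (H11 * H22 - H12 ^ 2) * (x1 * y2 - x2 * y1) ^ 2
        - 2 * D * (H11 * (x3 * y1 - x1 * y3) ^ 2
          - 2 * H12 * (x2 * y3 - x3 * y2) * (x3 * y1 - x1 * y3)
          + H22 * (x2 * y3 - x3 * y2) ^ 2) := by ring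
  rw [h3] at e1
  rw [h1, h2, h3] at e2
  linear_combination g1 - g2 + W * e1 + lam ^ 2 * U ^ 2 * e2
theorem id_NX1 (a s b r : ℝ) (hs : s ^ 2 = 1 - a ^ 2) (hr : r ^ 2 = 1 - b ^ 2) :
    (-s * nn (1-a) (1-b)) * ((1 + 2/7*((1-a)*(1-b)))*a + 2/7*(s*(1-b))*s) + (r * nn (1-b) (1-a)) * (2/7*(s*(1-b))*r) + (n3 (1-a) (1-b)) * ((1 + 2/7*((1-a)*(1-b)))*s + 2/7*(s*(1-b))*(b-a)) = 0 := by
  unfold nn n3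
  linear_combination ((12/49)*a*s*b^3 + (-20/49)*a*s*b^2 + (4/49)*a*s*b + (4/49)*a*s + (-8/49)*s*b^3 + (22/49)*s*b^2 + (-6/49)*s*b + (-8/49)*s) * hs + ((-12/49)*a^2*s*b^2 + (20/49)*a^2*s*b + (-8/49)*a^2*s + (8/49)*a*s*b^2 + (-22/49)*a*s*b + (2/7)*a*s + (4/49)*s*b^2 + (-12/49)*s*b + (8/49)*s) * hr

theorem id_NX2 (a s b r : ℝ) (hs : s ^ 2 = 1 - a ^ 2) (hr : r ^ 2 = 1 - b ^ 2) :
    (-s * nn (1-a) (1-b)) * (2/7*(r*(1-a))*s) + (r * nn (1-b) (1-a)) * ((1 + 2/7*((1-a)*(1-b)))*b + 2/7*(r*(1-a))*r) + (n3 (1-a) (1-b)) * (-(1 + 2/7*((1-a)*(1-b)))*r + 2/7*(r*(1-a))*(b-a)) = 0 := by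
  unfold nn n3
  linear_combination ((12/49)*a^2*b^2*r + (-8/49)*a^2*b*r + (-4/49)*a^2*r + (-20/49)*a*b^2*r + (22/49)*a*b*r + (12/49)*a*r + (8/49)*b^2*r + (-2/7)*b*r + (-8/49)*r) * hs + ((-12/49)*a^3*b*r + (8/49)*a^3*r + (20/49)*a^2*b*r + (-22/49)*a^2*r + (-4/49)*a*b*r + (6/49)*a*r + (-4/49)*b*r + (8/49)*r) * hr

theorem id_NX11 (a s b r : ℝ) (hs : s ^ 2 = 1 - a ^ 2) (hr : r ^ 2 = 1 - b ^ 2) :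
    (-s * nn (1-a) (1-b)) * (-(1 + 2/7*((1-a)*(1-b)))*s + 2*(2/7)*(s*(1-b))*a + 2/7*(a*(1-b))*s) + (r * nn (1-b) (1-a)) * (2/7*(a*(1-b))*r) + (n3 (1-a) (1-b)) * ((1 + 2/7*((1-a)*(1-b)))*a + 2*(2/7)*(s*(1-b))*s + 2/7*(a*(1-b))*(b-a)) = LL (1-a) (1-b) := by
  unfold nn n3 LL
  linear_combination ((24/49)*a^2*b^3 + (-40/49)*a^2*b^2 + (8/49)*a^2*b + (8/49)*a^2 + (-4/7)*a*b^3 + (2)*a*b^2 + (-4/7)*a*b + (-6/7)*a + (16/49)*b^3 + (-66/49)*b^2 + (9/7)*b + (36/49)) * hs + ((-12/49)*a^3*b^2 + (20/49)*a^3*b + (-8/49)*a^3 + (8/49)*a^2*b^2 + (-22/49)*a^2*b + (2/7)*a^2 + (4/49)*a*b^2 + (-12/49)*a*b + (8/49)*a) * hr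

theorem id_NX12 (a s b r : ℝ) (hs : s ^ 2 = 1 - a ^ 2) (hr : r ^ 2 = 1 - b ^ 2) :
    (-s * nn (1-a) (1-b)) * (2/7*(r*(1-a))*a + 2/7*(s*r)*s) + (r * nn (1-b) (1-a)) * (2/7*(s*(1-b))*b + 2/7*(s*r)*r) + (n3 (1-a) (1-b)) * (-(2/7)*(s*(1-b))*r + 2/7*(r*(1-a))*s + 2/7*(s*r)*(b-a)) = s * r * mm (1-a) (1-b) := by
  unfold nn n3 mm
  linear_combination ((-12/49)*a*s*b^2*r + (8/49)*a*s*b*r + (4/49)*a*s*r + (8/49)*s*b^2*r + (-2/7)*s*b*r + (-8/49)*s*r) * hs + ((12/49)*a^2*s*b*r + (-8/49)*a^2*s*r + (-8/49)*a*s*b*r + (2/7)*a*s*r + (-4/49)*s*b*r + (8/49)*s*r) * hr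

theorem id_NX22 (a s b r : ℝ) (hs : s ^ 2 = 1 - a ^ 2) (hr : r ^ 2 = 1 - b ^ 2) :
    (-s * nn (1-a) (1-b)) * (2/7*(b*(1-a))*s) + (r * nn (1-b) (1-a)) * (-(1 + 2/7*((1-a)*(1-b)))*r + 2*(2/7)*(r*(1-a))*b + 2/7*(b*(1-a))*r) + (n3 (1-a) (1-b)) * (-(1 + 2/7*((1-a)*(1-b)))*b - 2*(2/7)*(r*(1-a))*r + 2/7*(b*(1-a))*(b-a)) = -LL (1-b) (1-a) := by
  unfold nn n3 LL
  linear_combination ((12/49)*a^2*b^3 + (-8/49)*a^2*b^2 + (-4/49)*a^2*b + (-20/49)*a*b^3 + (22/49)*a*b^2 + (12/49)*a*b + (8/49)*b^3 + (-2/7)*b^2 + (-8/49)*b) * hs + ((-24/49)*a^3*b^2 + (4/7)*a^3*b + (-16/49)*a^3 + (40/49)*a^2*b^2 + (-2)*a^2*b + (66/49)*a^2 + (-8/49)*a*b^2 + (4/7)*a*b + (-9/7)*a + (-8/49)*b^2 + (6/7)*b + (-36/49)) * hr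

theorem id_NN (a s b r : ℝ) (hs : s ^ 2 = 1 - a ^ 2) (hr : r ^ 2 = 1 - b ^ 2) :
    (-s * nn (1-a) (1-b)) * (-s * nn (1-a) (1-b)) + (r * nn (1-b) (1-a)) * (r * nn (1-b) (1-a)) + (n3 (1-a) (1-b)) * (n3 (1-a) (1-b)) = Dn (1-a) (1-b) := by
  unfold Dn nn n3
  linear_combination ((36/49)*a^2*b^4 + (-48/49)*a^2*b^3 + (-8/49)*a^2*b^2 + (16/49)*a^2*b + (4/49)*a^2 + (-48/49)*a*b^4 + (116/49)*a*b^3 + (8/49)*a*b^2 + (-60/49)*a*b + (-16/49)*a + (16/49)*b^4 + (-8/7)*b^3 + (17/49)*b^2 + (8/7)*b + (16/49)) * hs + ((36/49)*a^4*b^2 + (-48/49)*a^4*b + (16/49)*a^4 + (-48/49)*a^3*b^2 + (116/49)*a^3*b + (-8/7)*a^3 + (-8/49)*a^2*b^2 + (8/49)*a^2*b + (17/49)*a^2 + (16/49)*a*b^2 + (-60/49)*a*b + (8/7)*a + (4/49)*b^2 + (-16/49)*b + (16/49)) * hr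

theorem id_C1 (a s b r : ℝ) (hs : s ^ 2 = 1 - a ^ 2) (hr : r ^ 2 = 1 - b ^ 2) :
    (2/7*(s*(1-b))*r) * (-(1 + 2/7*((1-a)*(1-b)))*r + 2/7*(r*(1-a))*(b-a)) - ((1 + 2/7*((1-a)*(1-b)))*s + 2/7*(s*(1-b))*(b-a)) * ((1 + 2/7*((1-a)*(1-b)))*b + 2/7*(r*(1-a))*r) = (1 + 2/7*((1-a)*(1-b))) * (-s * nn (1-a) (1-b)) := by
  unfold nn
  linear_combination (0) * hs + ((4/49)*a^2*s*b + (-4/49)*a^2*s + (4/49)*a*s*b^2 + (-16/49)*a*s*b + (26/49)*a*s + (-4/49)*s*b^2 + (26/49)*s*b + (-36/49)*s) * hr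

theorem id_C2 (a s b r : ℝ) (hs : s ^ 2 = 1 - a ^ 2) (hr : r ^ 2 = 1 - b ^ 2) :
    ((1 + 2/7*((1-a)*(1-b)))*s + 2/7*(s*(1-b))*(b-a)) * (2/7*(r*(1-a))*s) - ((1 + 2/7*((1-a)*(1-b)))*a + 2/7*(s*(1-b))*s) * (-(1 + 2/7*((1-a)*(1-b)))*r + 2/7*(r*(1-a))*(b-a)) = (1 + 2/7*((1-a)*(1-b))) * (r * nn (1-b) (1-a)) := by
  unfold nn
  linear_combination ((-4/49)*a^2*b*r + (4/49)*a^2*r + (-4/49)*a*b^2*r + (16/49)*a*b*r + (-26/49)*a*r + (4/49)*b^2*r + (-26/49)*b*r + (36/49)*r) * hs + (0) * hr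

theorem id_C3 (a s b r : ℝ) (hs : s ^ 2 = 1 - a ^ 2) (hr : r ^ 2 = 1 - b ^ 2) :
    ((1 + 2/7*((1-a)*(1-b)))*a + 2/7*(s*(1-b))*s) * ((1 + 2/7*((1-a)*(1-b)))*b + 2/7*(r*(1-a))*r) - (2/7*(s*(1-b))*r) * (2/7*(r*(1-a))*s) = (1 + 2/7*((1-a)*(1-b))) * (n3 (1-a) (1-b)) := by
  unfold n3
  linear_combination ((-4/49)*a*b^3 + (8/49)*a*b^2 + (-4/49)*a*b + (4/49)*b^3 + (-22/49)*b^2 + (18/49)*b) * hs + ((-4/49)*a^3*b + (4/49)*a^3 + (8/49)*a^2*b + (-22/49)*a^2 + (-4/49)*a*b + (18/49)*a) * hr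

theorem id_Z1 (a s b r : ℝ) (hs : s ^ 2 = 1 - a ^ 2) (hr : r ^ 2 = 1 - b ^ 2) :
    (s*(1-b)*b) * (n3 (1-a) (1-b)) - (-(s*(1-b))*r - r*(1-a)*s) * (r * nn (1-b) (1-a)) = s * (1-b) * zx (1-a) (1-b) := by
  unfold zx nn n3
  linear_combination (0) * hs + ((-6/7)*a^3*s*b + (4/7)*a^3*s + (-6/7)*a^2*s*b^2 + (20/7)*a^2*s*b + (-15/7)*a^2*s + (4/7)*a*s*b^2 + (-13/7)*a*s*b + (10/7)*a*s + (2/7)*s*b^2 + (-8/7)*s*b + (8/7)*s) * hr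

theorem id_Z2 (a s b r : ℝ) (hs : s ^ 2 = 1 - a ^ 2) (hr : r ^ 2 = 1 - b ^ 2) :
    (-(s*(1-b))*r - r*(1-a)*s) * (-s * nn (1-a) (1-b)) - (-(r*(1-a))*a) * (n3 (1-a) (1-b)) = r * (1-a) * zx (1-b) (1-a) := by
  unfold zx nn n3
  linear_combination ((-6/7)*a^2*b^2*r + (4/7)*a^2*b*r + (2/7)*a^2*r + (-6/7)*a*b^3*r + (20/7)*a*b^2*r + (-13/7)*a*b*r + (-8/7)*a*r + (4/7)*b^3*r + (-15/7)*b^2*r + (10/7)*b*r + (8/7)*r) * hs + (0) * hr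

theorem id_Z3 (a s b r : ℝ) (hs : s ^ 2 = 1 - a ^ 2) (hr : r ^ 2 = 1 - b ^ 2) :
    (-(r*(1-a))*a) * (r * nn (1-b) (1-a)) - (s*(1-b)*b) * (-s * nn (1-a) (1-b)) = (1-a) * (1-b) * zz (1-a) (1-b) := by
  unfold zz nn
  linear_combination ((-6/7)*a*b^4 + (10/7)*a*b^3 + (-2/7)*a*b^2 + (-2/7)*a*b + (4/7)*b^4 + (-11/7)*b^3 + (3/7)*b^2 + (4/7)*b) * hs + ((6/7)*a^4*b + (-4/7)*a^4 + (-10/7)*a^3*b + (11/7)*a^3 + (2/7)*a^2*b + (-3/7)*a^2 + (2/7)*a*b + (-4/7)*a) * hr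

theorem num_identity_main (a s b r : ℝ) (hs : s ^ 2 = 1 - a ^ 2) (hr : r ^ 2 = 1 - b ^ 2) :
    d3 (-s * nn (1-a) (1-b)) (r * nn (1-b) (1-a)) (n3 (1-a) (1-b)) ((1 + 2/7*((1-a)*(1-b)))*a + 2/7*(s*(1-b))*s) (2/7*(s*(1-b))*r) ((1 + 2/7*((1-a)*(1-b)))*s + 2/7*(s*(1-b))*(b-a)) (2/7*(r*(1-a))*s) ((1 + 2/7*((1-a)*(1-b)))*b + 2/7*(r*(1-a))*r) (-(1 + 2/7*((1-a)*(1-b)))*r + 2/7*(r*(1-a))*(b-a))
      = (1 + 2/7*((1-a)*(1-b))) * Dn (1-a) (1-b) := by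
  unfold d3
  rw [id_C1 a s b r hs hr, ← id_NN a s b r hs hr]
  linear_combination (r * nn (1-b) (1-a)) * id_C2 a s b r hs hr + (n3 (1-a) (1-b)) * id_C3 a s b r hs hr

theorem red_Z (a s b r n1 n2 n3' c1 c2 c3 : ℝ) :
    (r * (1-a)) * d3 n1 n2 n3' ((1 + 2/7*((1-a)*(1-b)))*a + 2/7*(s*(1-b))*s) (2/7*(s*(1-b))*r) ((1 + 2/7*((1-a)*(1-b)))*s + 2/7*(s*(1-b))*(b-a)) c1 c2 c3
      - (s * (1-b)) * d3 n1 n2 n3' (2/7*(r*(1-a))*s) ((1 + 2/7*((1-a)*(1-b)))*b + 2/7*(r*(1-a))*r) (-(1 + 2/7*((1-a)*(1-b)))*r + 2/7*(r*(1-a))*(b-a)) c1 c2 c3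
    = (1 + 2/7*((1-a)*(1-b))) * (((s*(1-b)*b) * n3' - (-(s*(1-b))*r - r*(1-a)*s) * n2) * c1 + ((-(s*(1-b))*r - r*(1-a)*s) * n1 - (-(r*(1-a))*a) * n3') * c2
        + ((-(r*(1-a))*a) * n2 - (s*(1-b)*b) * n1) * c3) := by
  unfold d3
  ring

theorem id_H11 (a s b r : ℝ) (hs : s ^ 2 = 1 - a ^ 2) (hr : r ^ 2 = 1 - b ^ 2) :
    (s * (1-b) * zx (1-a) (1-b)) * (-(1 + 2/7*((1-a)*(1-b)))*s + 2*(2/7)*(s*(1-b))*a + 2/7*(a*(1-b))*s) + (r * (1-a) * zx (1-b) (1-a)) * (2/7*(a*(1-b))*r) + ((1-a) * (1-b) * zz (1-a) (1-b)) * ((1 + 2/7*((1-a)*(1-b)))*a + 2*(2/7)*(s*(1-b))*s + 2/7*(a*(1-b))*(b-a))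
      = (1-b) * hh (1-a) (1-b) + Dn (1-a) (1-b) * (a * (1-b)) := by
  unfold hh
  linear_combination ((1-b) * zx (1-a) (1-b) * (-(1 + 2/7*((1-a)*(1-b))) + 2*(2/7)*(1-b)*a
    + 2/7*(a*(1-b))) + (1-a) * (1-b) * zz (1-a) (1-b) * (2*(2/7)*(1-b))) * hs
    + ((1-a) * zx (1-b) (1-a) * (2/7*(a*(1-b)))) * hr

theorem id_H12 (a s b r : ℝ) (hs : s ^ 2 = 1 - a ^ 2) (hr : r ^ 2 = 1 - b ^ 2) :
    (s * (1-b) * zx (1-a) (1-b)) * (2/7*(r*(1-a))*a + 2/7*(s*r)*s) + (r * (1-a) * zx (1-b) (1-a)) * (2/7*(s*(1-b))*b + 2/7*(s*r)*r) + ((1-a) * (1-b) * zz (1-a) (1-b)) * (-(2/7)*(s*(1-b))*r + 2/7*(r*(1-a))*s + 2/7*(s*r)*(b-a))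
      = s * r * kk (1-a) (1-b) + Dn (1-a) (1-b) * (s * r) := by
  unfold kk
  linear_combination (2/7 * s * r * (1-b) * zx (1-a) (1-b)) * hs
    + (2/7 * s * r * (1-a) * zx (1-b) (1-a)) * hr

theorem id_H22 (a s b r : ℝ) (hs : s ^ 2 = 1 - a ^ 2) (hr : r ^ 2 = 1 - b ^ 2) :
    (s * (1-b) * zx (1-a) (1-b)) * (2/7*(b*(1-a))*s) + (r * (1-a) * zx (1-b) (1-a)) * (-(1 + 2/7*((1-a)*(1-b)))*r + 2*(2/7)*(r*(1-a))*b + 2/7*(b*(1-a))*r) + ((1-a) * (1-b) * zz (1-a) (1-b)) * (-(1 + 2/7*((1-a)*(1-b)))*b - 2*(2/7)*(r*(1-a))*r + 2/7*(b*(1-a))*(b-a))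
      = (1-a) * hh (1-b) (1-a) + Dn (1-a) (1-b) * (b * (1-a)) := by
  have hD : Dn (1-b) (1-a) = Dn (1-a) (1-b) := by
    unfold Dn n3
    ring
  have hZ : zz (1-b) (1-a) = - zz (1-a) (1-b) := by
    unfold zz
    ring
  unfold hh
  rw [hD, hZ]
  linear_combination ((1-a) * zx (1-b) (1-a) * (-(1 + 2/7*((1-a)*(1-b))) + 2*(2/7)*(1-a)*b
    + 2/7*(b*(1-a))) - (1-a) * (1-b) * zz (1-a) (1-b) * (2*(2/7)*(1-a))) * hr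
    + ((1-b) * zx (1-a) (1-b) * (2/7*(b*(1-a)))) * hs

theorem num_identity (a s b r t lam x1 x2 x3 y1 y2 y3 uu1 uu2 uu3 uv1 uv2 uv3 vv1 vv2 vv3 : ℝ)
    (hs : s ^ 2 = 1 - a ^ 2) (hr : r ^ 2 = 1 - b ^ 2)
    (h1 : x2 * y3 - x3 * y2 = lam * (s * (1 - b)))
    (h2 : x3 * y1 - x1 * y3 = lam * (r * (1 - a)))
    (h3 : x1 * y2 - x2 * y1 = lam * (2 * t))
    (huu : s * (1 - b) * uu1 + r * (1 - a) * uu2 + 2 * t * uu3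
      + (a * (1 - b) * x1 ^ 2 + 2 * (s * r) * (x1 * x2) + b * (1 - a) * x2 ^ 2 + 2 * x3 ^ 2) = 0)
    (huv : s * (1 - b) * uv1 + r * (1 - a) * uv2 + 2 * t * uv3
      + (a * (1 - b) * (x1 * y1) + (s * r) * (x1 * y2 + y1 * x2) + b * (1 - a) * (x2 * y2)
        + 2 * (x3 * y3)) = 0)
    (hvv : s * (1 - b) * vv1 + r * (1 - a) * vv2 + 2 * t * vv3
      + (a * (1 - b) * y1 ^ 2 + 2 * (s * r) * (y1 * y2) + b * (1 - a) * y2 ^ 2 + 2 * y3 ^ 2) = 0) :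
    Dn (1 - a) (1 - b) *
      (gram3 (jet a s b r uu1 uu2 (x1 ^ 2) (2 * (x1 * x2)) (x2 ^ 2) uu3)
          (jet a s b r vv1 vv2 (y1 ^ 2) (2 * (y1 * y2)) (y2 ^ 2) vv3)
          (jet a s b r x1 x2 0 0 0 x3) (jet a s b r y1 y2 0 0 0 y3)
        - gram3 (jet a s b r uv1 uv2 (x1 * y1) (x1 * y2 + y1 * x2) (x2 * y2) uv3)
          (jet a s b r uv1 uv2 (x1 * y1) (x1 * y2 + y1 * x2) (x2 * y2) uv3)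
          (jet a s b r x1 x2 0 0 0 x3) (jet a s b r y1 y2 0 0 0 y3))
    = 4 * lam ^ 2 * t ^ 2
        * (⟪jet a s b r x1 x2 0 0 0 x3, jet a s b r x1 x2 0 0 0 x3⟫
            * ⟪jet a s b r y1 y2 0 0 0 y3, jet a s b r y1 y2 0 0 0 y3⟫
          - ⟪jet a s b r x1 x2 0 0 0 x3, jet a s b r y1 y2 0 0 0 y3⟫ ^ 2)
        * (-(LL (1 - a) (1 - b) * LL (1 - b) (1 - a)) - s ^ 2 * r ^ 2 * mm (1 - a) (1 - b) ^ 2)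
      + 4 * lam ^ 4 * t ^ 2 * (1 + 2/7 * ((1 - a) * (1 - b))) ^ 2
        * ((1 - a) * (1 - b) * (hh (1 - a) (1 - b) * hh (1 - b) (1 - a)
            - (1 + a) * (1 + b) * kk (1 - a) (1 - b) ^ 2))
      - 2 * lam ^ 4 * (1 + 2/7 * ((1 - a) * (1 - b))) ^ 2 * Dn (1 - a) (1 - b)
        * ((1 - a) ^ 2 * (1 - b) ^ 2 * QQ (1 - a) (1 - b)) := by
  have hc : (r * (1-a)) * d3 (-s * nn (1-a) (1-b)) (r * nn (1-b) (1-a)) (n3 (1-a) (1-b)) ((1 + 2/7*((1-a)*(1-b)))*a + 2/7*(s*(1-b))*s) (2/7*(s*(1-b))*r) ((1 + 2/7*((1-a)*(1-b)))*s + 2/7*(s*(1-b))*(b-a)) (-(1 + 2/7*((1-a)*(1-b)))*s + 2*(2/7)*(s*(1-b))*a + 2/7*(a*(1-b))*s) (2/7*(a*(1-b))*r) ((1 + 2/7*((1-a)*(1-b)))*a + 2*(2/7)*(s*(1-b))*s + 2/7*(a*(1-b))*(b-a))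
      - (s * (1-b)) * d3 (-s * nn (1-a) (1-b)) (r * nn (1-b) (1-a)) (n3 (1-a) (1-b)) (2/7*(r*(1-a))*s) ((1 + 2/7*((1-a)*(1-b)))*b + 2/7*(r*(1-a))*r) (-(1 + 2/7*((1-a)*(1-b)))*r + 2/7*(r*(1-a))*(b-a)) (-(1 + 2/7*((1-a)*(1-b)))*s + 2*(2/7)*(s*(1-b))*a + 2/7*(a*(1-b))*s) (2/7*(a*(1-b))*r) ((1 + 2/7*((1-a)*(1-b)))*a + 2*(2/7)*(s*(1-b))*s + 2/7*(a*(1-b))*(b-a))
      = (1 + 2/7*((1-a)*(1-b))) * ((1-b) * hh (1-a) (1-b) + Dn (1-a) (1-b) * (a * (1-b))) := by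
    rw [red_Z, id_Z1 a s b r hs hr, id_Z2 a s b r hs hr, id_Z3 a s b r hs hr,
      id_H11 a s b r hs hr]
  have hd : (r * (1-a)) * d3 (-s * nn (1-a) (1-b)) (r * nn (1-b) (1-a)) (n3 (1-a) (1-b)) ((1 + 2/7*((1-a)*(1-b)))*a + 2/7*(s*(1-b))*s) (2/7*(s*(1-b))*r) ((1 + 2/7*((1-a)*(1-b)))*s + 2/7*(s*(1-b))*(b-a)) (2/7*(r*(1-a))*a + 2/7*(s*r)*s) (2/7*(s*(1-b))*b + 2/7*(s*r)*r) (-(2/7)*(s*(1-b))*r + 2/7*(r*(1-a))*s + 2/7*(s*r)*(b-a))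
      - (s * (1-b)) * d3 (-s * nn (1-a) (1-b)) (r * nn (1-b) (1-a)) (n3 (1-a) (1-b)) (2/7*(r*(1-a))*s) ((1 + 2/7*((1-a)*(1-b)))*b + 2/7*(r*(1-a))*r) (-(1 + 2/7*((1-a)*(1-b)))*r + 2/7*(r*(1-a))*(b-a)) (2/7*(r*(1-a))*a + 2/7*(s*r)*s) (2/7*(s*(1-b))*b + 2/7*(s*r)*r) (-(2/7)*(s*(1-b))*r + 2/7*(r*(1-a))*s + 2/7*(s*r)*(b-a))
      = (1 + 2/7*((1-a)*(1-b))) * (s * r * kk (1-a) (1-b) + Dn (1-a) (1-b) * (s * r)) := by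
    rw [red_Z, id_Z1 a s b r hs hr, id_Z2 a s b r hs hr, id_Z3 a s b r hs hr,
      id_H12 a s b r hs hr]
  have hf : (r * (1-a)) * d3 (-s * nn (1-a) (1-b)) (r * nn (1-b) (1-a)) (n3 (1-a) (1-b)) ((1 + 2/7*((1-a)*(1-b)))*a + 2/7*(s*(1-b))*s) (2/7*(s*(1-b))*r) ((1 + 2/7*((1-a)*(1-b)))*s + 2/7*(s*(1-b))*(b-a)) (2/7*(b*(1-a))*s) (-(1 + 2/7*((1-a)*(1-b)))*r + 2*(2/7)*(r*(1-a))*b + 2/7*(b*(1-a))*r) (-(1 + 2/7*((1-a)*(1-b)))*b - 2*(2/7)*(r*(1-a))*r + 2/7*(b*(1-a))*(b-a))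
      - (s * (1-b)) * d3 (-s * nn (1-a) (1-b)) (r * nn (1-b) (1-a)) (n3 (1-a) (1-b)) (2/7*(r*(1-a))*s) ((1 + 2/7*((1-a)*(1-b)))*b + 2/7*(r*(1-a))*r) (-(1 + 2/7*((1-a)*(1-b)))*r + 2/7*(r*(1-a))*(b-a)) (2/7*(b*(1-a))*s) (-(1 + 2/7*((1-a)*(1-b)))*r + 2*(2/7)*(r*(1-a))*b + 2/7*(b*(1-a))*r) (-(1 + 2/7*((1-a)*(1-b)))*b - 2*(2/7)*(r*(1-a))*r + 2/7*(b*(1-a))*(b-a))
      = (1 + 2/7*((1-a)*(1-b))) * ((1-a) * hh (1-b) (1-a) + Dn (1-a) (1-b) * (b * (1-a))) := by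
    rw [red_Z, id_Z1 a s b r hs hr, id_Z2 a s b r hs hr, id_Z3 a s b r hs hr,
      id_H22 a s b r hs hr]

  have key := num_core (-s * nn (1-a) (1-b)) (r * nn (1-b) (1-a)) (n3 (1-a) (1-b)) ((1 + 2/7*((1-a)*(1-b)))*a + 2/7*(s*(1-b))*s) (2/7*(s*(1-b))*r) ((1 + 2/7*((1-a)*(1-b)))*s + 2/7*(s*(1-b))*(b-a)) (2/7*(r*(1-a))*s) ((1 + 2/7*((1-a)*(1-b)))*b + 2/7*(r*(1-a))*r) (-(1 + 2/7*((1-a)*(1-b)))*r + 2/7*(r*(1-a))*(b-a))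
    (-(1 + 2/7*((1-a)*(1-b)))*s + 2*(2/7)*(s*(1-b))*a + 2/7*(a*(1-b))*s) (2/7*(a*(1-b))*r) ((1 + 2/7*((1-a)*(1-b)))*a + 2*(2/7)*(s*(1-b))*s + 2/7*(a*(1-b))*(b-a)) (2/7*(r*(1-a))*a + 2/7*(s*r)*s) (2/7*(s*(1-b))*b + 2/7*(s*r)*r) (-(2/7)*(s*(1-b))*r + 2/7*(r*(1-a))*s + 2/7*(s*r)*(b-a)) (2/7*(b*(1-a))*s) (-(1 + 2/7*((1-a)*(1-b)))*r + 2*(2/7)*(r*(1-a))*b + 2/7*(b*(1-a))*r) (-(1 + 2/7*((1-a)*(1-b)))*b - 2*(2/7)*(r*(1-a))*r + 2/7*(b*(1-a))*(b-a))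
    x1 x2 x3 y1 y2 y3 uu1 uu2 uu3 uv1 uv2 uv3 vv1 vv2 vv3 lam (s * (1-b)) (r * (1-a)) t (1 + 2/7*((1-a)*(1-b)))
    (Dn (1-a) (1-b)) (a * (1-b)) (s * r) (b * (1-a)) ((1-b) * hh (1-a) (1-b))
    (s * r * kk (1-a) (1-b)) ((1-a) * hh (1-b) (1-a)) (LL (1-a) (1-b)) (s * r * mm (1-a) (1-b))
    (-LL (1-b) (1-a)) h1 h2 h3 (id_NX1 a s b r hs hr) (id_NX2 a s b r hs hr)
    (id_NX11 a s b r hs hr) (id_NX12 a s b r hs hr) (id_NX22 a s b r hs hr)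
    (id_NN a s b r hs hr) (num_identity_main a s b r hs hr) hc hd hf
    (by linear_combination huu) (by linear_combination huv) (by linear_combination hvv)
    (jet a s b r uu1 uu2 (x1 ^ 2) (2 * (x1 * x2)) (x2 ^ 2) uu3)
    (jet a s b r vv1 vv2 (y1 ^ 2) (2 * (y1 * y2)) (y2 ^ 2) vv3)
    (jet a s b r uv1 uv2 (x1 * y1) (x1 * y2 + y1 * x2) (x2 * y2) uv3)
    (jet a s b r x1 x2 0 0 0 x3) (jet a s b r y1 y2 0 0 0 y3) rfl rfl rfl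
    (by unfold jet; simp only [mul_zero, zero_add]) (by unfold jet; simp only [mul_zero, zero_add])
  rw [key]
  have hQ : (1-b) * hh (1-a) (1-b) * (r * (1-a)) ^ 2
      - 2 * (s * r * kk (1-a) (1-b)) * (s * (1-b)) * (r * (1-a))
      + (1-a) * hh (1-b) (1-a) * (s * (1-b)) ^ 2 = (1-a) ^ 2 * (1-b) ^ 2 * QQ (1-a) (1-b) := by
    unfold QQ
    linear_combination (-2 * kk (1-a) (1-b) * (1-a) * (1-b) * r ^ 2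
        + (1-a) * (1-b) ^ 2 * hh (1-b) (1-a)) * hs
      + ((1-b) * (1-a) ^ 2 * hh (1-a) (1-b)
        - 2 * kk (1-a) (1-b) * (1-a) * (1-b) * (1 - a ^ 2)) * hr
  have hP : (1-b) * hh (1-a) (1-b) * ((1-a) * hh (1-b) (1-a)) - (s * r * kk (1-a) (1-b)) ^ 2
      = (1 - a) * (1 - b) * (hh (1 - a) (1 - b) * hh (1 - b) (1 - a)
            - (1 + a) * (1 + b) * kk (1 - a) (1 - b) ^ 2) := by
    linear_combination (-kk (1-a) (1-b) ^ 2 * r ^ 2) * hs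
      - (kk (1-a) (1-b) ^ 2 * (1 - a ^ 2)) * hr
  rw [hQ, hP]
  ring

end ChernG2
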