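import Pool.Agent.Helper427.Chern.Defs

namespace ChernG2

theorem mono_bd {A B : ℝ} (hA : 0 ≤ A) (hA2 : A ≤ 2) (hB : 0 ≤ B) (hB' : B ≤ 1/1000) (i j : ℕ) :
    0 ≤ A^i*B^j ∧ A^i*B^j ≤ 2^i*(1/1000)^j := by
  constructor
  · positivity
  · exact mul_le_mul (pow_le_pow_left₀ hA hA2 i) (pow_le_pow_left₀ hB hB' j) (by positivity)
      (by positivity)

section
variable {A B : ℝ}
theorem pI_Dn (hA : 0 ≤ A) (hA2 : A ≤ 2) (hB : 0 ≤ B) (hB1 : B ≤ 1/1000) :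
    0 < Dn A B := by
  have e : Dn A B = ((1)*A^0) + ((-8/7)*(A^1*B^1) + (18/7)*(A^1*B^2) + (-8/7)*(A^1*B^3) + (8/49)*(A^1*B^4) + (18/7)*(A^2*B^1) + (-341/49)*(A^2*B^2) + (228/49)*(A^2*B^3) + (-52/49)*(A^2*B^4) + (-8/7)*(A^3*B^1) + (228/49)*(A^3*B^2) + (-284/49)*(A^3*B^3) + (96/49)*(A^3*B^4) + (8/49)*(A^4*B^1) + (-52/49)*(A^4*B^2) + (96/49)*(A^4*B^3) + (-36/49)*(A^4*B^4)) := by
    unfold Dn nn n3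
    ring
  have h0 : 1 ≤ (1)*A^0 := by
    norm_num
  have m1_1 := mono_bd hA hA2 hB hB1 1 1
  have m1_2 := mono_bd hA hA2 hB hB1 1 2
  have m1_3 := mono_bd hA hA2 hB hB1 1 3
  have m1_4 := mono_bd hA hA2 hB hB1 1 4
  have m2_1 := mono_bd hA hA2 hB hB1 2 1
  have m2_2 := mono_bd hA hA2 hB hB1 2 2
  have m2_3 := mono_bd hA hA2 hB hB1 2 3
  have m2_4 := mono_bd hA hA2 hB hB1 2 4
  have m3_1 := mono_bd hA hA2 hB hB1 3 1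
  have m3_2 := mono_bd hA hA2 hB hB1 3 2
  have m3_3 := mono_bd hA hA2 hB hB1 3 3
  have m3_4 := mono_bd hA hA2 hB hB1 3 4
  have m4_1 := mono_bd hA hA2 hB hB1 4 1
  have m4_2 := mono_bd hA hA2 hB hB1 4 2
  have m4_3 := mono_bd hA hA2 hB hB1 4 3
  have m4_4 := mono_bd hA hA2 hB hB1 4 4
  rw [e]
  norm_num at m1_1 m1_2 m1_3 m1_4 m2_1 m2_2 m2_3 m2_4 m3_1 m3_2 m3_3 m3_4 m4_1 m4_2 m4_3 m4_4
  linarith [m1_1.2, m1_2.1, m1_3.2, m1_4.1, m2_1.1, m2_2.2, m2_3.1, m2_4.2, m3_1.2, m3_2.1, m3_3.2, m3_4.1, m4_1.1, m4_2.2, m4_3.1, m4_4.2]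

theorem pI_LL1 (hA : 0 ≤ A) (hA2 : A ≤ 2) (hB : 0 ≤ B) (hB1 : B ≤ 1/1000) :
    0 < LL A B := by
  have e : LL A B = ((1)*A^0) + ((-1)*(A^0*B^1) + (2/7)*(A^0*B^2) + (10/7)*(A^1*B^1) + (-8/7)*(A^1*B^2) + (-12/49)*(A^1*B^3) + (32/49)*(A^2*B^2) + (-4/49)*(A^2*B^3) + (-8/49)*(A^3*B^2)) := by
    unfold LL
    ring
  have h0 : 1 ≤ (1)*A^0 := by
    norm_num
  have m0_1 := mono_bd hA hA2 hB hB1 0 1
  have m0_2 := mono_bd hA hA2 hB hB1 0 2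
  have m1_1 := mono_bd hA hA2 hB hB1 1 1
  have m1_2 := mono_bd hA hA2 hB hB1 1 2
  have m1_3 := mono_bd hA hA2 hB hB1 1 3
  have m2_2 := mono_bd hA hA2 hB hB1 2 2
  have m2_3 := mono_bd hA hA2 hB hB1 2 3
  have m3_2 := mono_bd hA hA2 hB hB1 3 2
  rw [e]
  norm_num at m0_1 m0_2 m1_1 m1_2 m1_3 m2_2 m2_3 m3_2
  linarith [m0_1.2, m0_2.1, m1_1.1, m1_2.2, m1_3.2, m2_2.1, m2_3.2, m3_2.2]

theorem pI_LL2 (hA : 0 ≤ A) (hA2 : A ≤ 2) (hB : 0 ≤ B) (hB1 : B ≤ 1/1000) :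
    0 < LL B A := by
  have e : LL B A = ((1)*A^0 + (-1)*A^1 + (2/7)*A^2) + ((10/7)*(A^1*B^1) + (-8/7)*(A^2*B^1) + (32/49)*(A^2*B^2) + (-8/49)*(A^2*B^3) + (-12/49)*(A^3*B^1) + (-4/49)*(A^3*B^2)) := by
    unfold LL
    ring
  have h0 : 1/9 ≤ (1)*A^0 + (-1)*A^1 + (2/7)*A^2 := by
    nlinarith [sq_nonneg (A - 7/4)]
  have m1_1 := mono_bd hA hA2 hB hB1 1 1
  have m2_1 := mono_bd hA hA2 hB hB1 2 1
  have m2_2 := mono_bd hA hA2 hB hB1 2 2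
  have m2_3 := mono_bd hA hA2 hB hB1 2 3
  have m3_1 := mono_bd hA hA2 hB hB1 3 1
  have m3_2 := mono_bd hA hA2 hB hB1 3 2
  rw [e]
  norm_num at m1_1 m2_1 m2_2 m2_3 m3_1 m3_2
  linarith [m1_1.1, m2_1.2, m2_2.1, m2_3.2, m3_1.2, m3_2.2]

theorem pI_QQ (hA : 0 ≤ A) (hA2 : A ≤ 2) (hB : 0 ≤ B) (hB1 : B ≤ 1/1000) :
    0 < QQ A B := by
  have e : QQ A B = ((4)*A^0 + (-5)*A^1 + (4)*A^2 + (-8/7)*A^3) + ((-5)*(A^0*B^1) + (4)*(A^0*B^2) + (-8/7)*(A^0*B^3) + (-120/7)*(A^1*B^1) + (145/7)*(A^1*B^2) + (-58/7)*(A^1*B^3) + (96/49)*(A^1*B^4) + (145/7)*(A^2*B^1) + (-2874/49)*(A^2*B^2) + (2172/49)*(A^2*B^3) + (-580/49)*(A^2*B^4) + (32/49)*(A^2*B^5) + (-58/7)*(A^3*B^1) + (2172/49)*(A^3*B^2) + (-2274/49)*(A^3*B^3) + (128/7)*(A^3*B^4) + (-128/49)*(A^3*B^5) + (96/49)*(A^4*B^1) + (-580/49)*(A^4*B^2) + (128/7)*(A^4*B^3)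 + (-520/49)*(A^4*B^4) + (104/49)*(A^4*B^5) + (32/49)*(A^5*B^2) + (-128/49)*(A^5*B^3) + (104/49)*(A^5*B^4) + (-24/49)*(A^5*B^5)) := by
    unfold QQ hh kk zx zz Dn nn n3
    ring
  have h0 : 1/2 ≤ (4)*A^0 + (-5)*A^1 + (4)*A^2 + (-8/7)*A^3 := by
    nlinarith [mul_nonneg hA (sub_nonneg.2 hA2), mul_nonneg (mul_nonneg hA hA) (sub_nonneg.2 hA2), sq_nonneg (A-1)]
  have m0_1 := mono_bd hA hA2 hB hB1 0 1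
  have m0_2 := mono_bd hA hA2 hB hB1 0 2
  have m0_3 := mono_bd hA hA2 hB hB1 0 3
  have m1_1 := mono_bd hA hA2 hB hB1 1 1
  have m1_2 := mono_bd hA hA2 hB hB1 1 2
  have m1_3 := mono_bd hA hA2 hB hB1 1 3
  have m1_4 := mono_bd hA hA2 hB hB1 1 4
  have m2_1 := mono_bd hA hA2 hB hB1 2 1
  have m2_2 := mono_bd hA hA2 hB hB1 2 2
  have m2_3 := mono_bd hA hA2 hB hB1 2 3
  have m2_4 := mono_bd hA hA2 hB hB1 2 4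
  have m2_5 := mono_bd hA hA2 hB hB1 2 5
  have m3_1 := mono_bd hA hA2 hB hB1 3 1
  have m3_2 := mono_bd hA hA2 hB hB1 3 2
  have m3_3 := mono_bd hA hA2 hB hB1 3 3
  have m3_4 := mono_bd hA hA2 hB hB1 3 4
  have m3_5 := mono_bd hA hA2 hB hB1 3 5
  have m4_1 := mono_bd hA hA2 hB hB1 4 1
  have m4_2 := mono_bd hA hA2 hB hB1 4 2
  have m4_3 := mono_bd hA hA2 hB hB1 4 3
  have m4_4 := mono_bd hA hA2 hB hB1 4 4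
  have m4_5 := mono_bd hA hA2 hB hB1 4 5
  have m5_2 := mono_bd hA hA2 hB hB1 5 2
  have m5_3 := mono_bd hA hA2 hB hB1 5 3
  have m5_4 := mono_bd hA hA2 hB hB1 5 4
  have m5_5 := mono_bd hA hA2 hB hB1 5 5
  rw [e]
  norm_num at m0_1 m0_2 m0_3 m1_1 m1_2 m1_3 m1_4 m2_1 m2_2 m2_3 m2_4 m2_5 m3_1 m3_2 m3_3 m3_4 m3_5 m4_1 m4_2 m4_3 m4_4 m4_5 m5_2 m5_3 m5_4 m5_5
  linarith [m0_1.2, m0_2.1, m0_3.2, m1_1.2, m1_2.1, m1_3.2, m1_4.1, m2_1.1, m2_2.2, m2_3.1, m2_4.2, m2_5.1, m3_1.2, m3_2.1, m3_3.2, m3_4.1, m3_5.2, m4_1.1, m4_2.2, m4_3.1, m4_4.2, m4_5.1, m5_2.1, m5_3.2, m5_4.1, m5_5.2]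

set_option maxHeartbeats 4000000 in
theorem pI_last (hA : 0 ≤ A) (hA2 : A ≤ 2) (hB : 0 ≤ B) (hB1 : B ≤ 1/1000) :
    hh A B * hh B A - (2 - A) * (2 - B) * kk A B ^ 2 < 0 := by
  have e : hh A B * hh B A - (2 - A) * (2 - B) * kk A B ^ 2 = ((-3)*A^0 + (3)*A^1 + (-2)*A^2 + (4/7)*A^3) + ((3)*(A^0*B^1) + (-2)*(A^0*B^2) + (4/7)*(A^0*B^3) + (22)*(A^1*B^1) + (-202/7)*(A^1*B^2) + (86/7)*(A^1*B^3) + (-88/49)*(A^1*B^4) + (-8/49)*(A^1*B^5) + (-202/7)*(A^2*B^1) + (1991/49)*(A^2*B^2) + (901/49)*(A^2*B^3) + (-2796/49)*(A^2*B^4) + (12196/343)*(A^2*B^5) + (-3232/343)*(A^2*B^6) + (352/343)*(A^2*B^7) + (86/7)*(A^3*B^1) + (901/49)*(A^3*B^2) + (-53051/343)*(A^3*B^3) + (77768/343)*(A^3*B^4) + (-50444/343)*(A^3*B^5) + (108048/2401)*(A^3*B^6) + (-11248/2401)*(A^3*B^7) + (-640/2401)*(A^3*B^8) + (-88/49)*(A^4*B^1)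 + (-2796/49)*(A^4*B^2) + (77768/343)*(A^4*B^3) + (-709788/2401)*(A^4*B^4) + (416702/2401)*(A^4*B^5) + (-12640/343)*(A^4*B^6) + (-16584/2401)*(A^4*B^7) + (8704/2401)*(A^4*B^8) + (-384/2401)*(A^4*B^9) + (-8/49)*(A^5*B^1) + (12196/343)*(A^5*B^2) + (-50444/343)*(A^5*B^3) + (416702/2401)*(A^5*B^4) + (-73097/2401)*(A^5*B^5) + (-186572/2401)*(A^5*B^6) + (140844/2401)*(A^5*B^7) + (-5248/343)*(A^5*B^8) + (2880/2401)*(A^5*B^9) + (-3232/343)*(A^6*B^2) + (108048/2401)*(A^6*B^3) + (-12640/343)*(A^6*B^4) + (-186572/2401)*(A^6*B^5) + (350032/2401)*(A^6*B^6) + (-223736/2401)*(A^6*B^7) + (64560/2401)*(A^6*B^8) + (-7200/2401)*(A^6*B^9) + (352/343)*(A^7*B^2) + (-11248/2401)*(A^7*B^3) + (-16584/2401)*(A^7*B^4) + (140844/2401)*(A^7*B^5) + (-223736/2401)*(A^7*B^6) + (156648/2401)*(A^7*B^7) + (-52560/2401)*(A^7*B^8)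 + (6960/2401)*(A^7*B^9) + (-640/2401)*(A^8*B^3) + (8704/2401)*(A^8*B^4) + (-5248/343)*(A^8*B^5) + (64560/2401)*(A^8*B^6) + (-52560/2401)*(A^8*B^7) + (19968/2401)*(A^8*B^8) + (-2880/2401)*(A^8*B^9) + (-384/2401)*(A^9*B^4) + (2880/2401)*(A^9*B^5) + (-7200/2401)*(A^9*B^6) + (6960/2401)*(A^9*B^7) + (-2880/2401)*(A^9*B^8) + (432/2401)*(A^9*B^9)) := by
    unfold hh kk zx zz Dn nn n3
    ring
  have h0 : (-3)*A^0 + (3)*A^1 + (-2)*A^2 + (4/7)*A^3 ≤ -(2/5) := by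
    nlinarith [mul_nonneg hA (sub_nonneg.2 hA2), mul_nonneg (mul_nonneg hA hA) (sub_nonneg.2 hA2), sq_nonneg (A-1)]
  have m0_1 := mono_bd hA hA2 hB hB1 0 1
  have m0_2 := mono_bd hA hA2 hB hB1 0 2
  have m0_3 := mono_bd hA hA2 hB hB1 0 3
  have m1_1 := mono_bd hA hA2 hB hB1 1 1
  have m1_2 := mono_bd hA hA2 hB hB1 1 2
  have m1_3 := mono_bd hA hA2 hB hB1 1 3
  have m1_4 := mono_bd hA hA2 hB hB1 1 4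
  have m1_5 := mono_bd hA hA2 hB hB1 1 5
  have m2_1 := mono_bd hA hA2 hB hB1 2 1
  have m2_2 := mono_bd hA hA2 hB hB1 2 2
  have m2_3 := mono_bd hA hA2 hB hB1 2 3
  have m2_4 := mono_bd hA hA2 hB hB1 2 4
  have m2_5 := mono_bd hA hA2 hB hB1 2 5
  have m2_6 := mono_bd hA hA2 hB hB1 2 6
  have m2_7 := mono_bd hA hA2 hB hB1 2 7
  have m3_1 := mono_bd hA hA2 hB hB1 3 1
  have m3_2 := mono_bd hA hA2 hB hB1 3 2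
  have m3_3 := mono_bd hA hA2 hB hB1 3 3
  have m3_4 := mono_bd hA hA2 hB hB1 3 4
  have m3_5 := mono_bd hA hA2 hB hB1 3 5
  have m3_6 := mono_bd hA hA2 hB hB1 3 6
  have m3_7 := mono_bd hA hA2 hB hB1 3 7
  have m3_8 := mono_bd hA hA2 hB hB1 3 8
  have m4_1 := mono_bd hA hA2 hB hB1 4 1
  have m4_2 := mono_bd hA hA2 hB hB1 4 2
  have m4_3 := mono_bd hA hA2 hB hB1 4 3
  have m4_4 := mono_bd hA hA2 hB hB1 4 4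
  have m4_5 := mono_bd hA hA2 hB hB1 4 5
  have m4_6 := mono_bd hA hA2 hB hB1 4 6
  have m4_7 := mono_bd hA hA2 hB hB1 4 7
  have m4_8 := mono_bd hA hA2 hB hB1 4 8
  have m4_9 := mono_bd hA hA2 hB hB1 4 9
  have m5_1 := mono_bd hA hA2 hB hB1 5 1
  have m5_2 := mono_bd hA hA2 hB hB1 5 2
  have m5_3 := mono_bd hA hA2 hB hB1 5 3
  have m5_4 := mono_bd hA hA2 hB hB1 5 4
  have m5_5 := mono_bd hA hA2 hB hB1 5 5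
  have m5_6 := mono_bd hA hA2 hB hB1 5 6
  have m5_7 := mono_bd hA hA2 hB hB1 5 7
  have m5_8 := mono_bd hA hA2 hB hB1 5 8
  have m5_9 := mono_bd hA hA2 hB hB1 5 9
  have m6_2 := mono_bd hA hA2 hB hB1 6 2
  have m6_3 := mono_bd hA hA2 hB hB1 6 3
  have m6_4 := mono_bd hA hA2 hB hB1 6 4
  have m6_5 := mono_bd hA hA2 hB hB1 6 5
  have m6_6 := mono_bd hA hA2 hB hB1 6 6
  have m6_7 := mono_bd hA hA2 hB hB1 6 7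
  have m6_8 := mono_bd hA hA2 hB hB1 6 8
  have m6_9 := mono_bd hA hA2 hB hB1 6 9
  have m7_2 := mono_bd hA hA2 hB hB1 7 2
  have m7_3 := mono_bd hA hA2 hB hB1 7 3
  have m7_4 := mono_bd hA hA2 hB hB1 7 4
  have m7_5 := mono_bd hA hA2 hB hB1 7 5
  have m7_6 := mono_bd hA hA2 hB hB1 7 6
  have m7_7 := mono_bd hA hA2 hB hB1 7 7
  have m7_8 := mono_bd hA hA2 hB hB1 7 8
  have m7_9 := mono_bd hA hA2 hB hB1 7 9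
  have m8_3 := mono_bd hA hA2 hB hB1 8 3
  have m8_4 := mono_bd hA hA2 hB hB1 8 4
  have m8_5 := mono_bd hA hA2 hB hB1 8 5
  have m8_6 := mono_bd hA hA2 hB hB1 8 6
  have m8_7 := mono_bd hA hA2 hB hB1 8 7
  have m8_8 := mono_bd hA hA2 hB hB1 8 8
  have m8_9 := mono_bd hA hA2 hB hB1 8 9
  have m9_4 := mono_bd hA hA2 hB hB1 9 4
  have m9_5 := mono_bd hA hA2 hB hB1 9 5
  have m9_6 := mono_bd hA hA2 hB hB1 9 6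
  have m9_7 := mono_bd hA hA2 hB hB1 9 7
  have m9_8 := mono_bd hA hA2 hB hB1 9 8
  have m9_9 := mono_bd hA hA2 hB hB1 9 9
  rw [e]
  norm_num at m0_1 m0_2 m0_3 m1_1 m1_2 m1_3 m1_4 m1_5 m2_1 m2_2 m2_3 m2_4 m2_5 m2_6 m2_7 m3_1 m3_2 m3_3 m3_4 m3_5 m3_6 m3_7 m3_8 m4_1 m4_2 m4_3 m4_4 m4_5 m4_6 m4_7 m4_8 m4_9 m5_1 m5_2 m5_3 m5_4 m5_5 m5_6 m5_7 m5_8 m5_9 m6_2 m6_3 m6_4 m6_5 m6_6 m6_7 m6_8 m6_9 m7_2 m7_3 m7_4 m7_5 m7_6 m7_7 m7_8 m7_9 m8_3 m8_4 m8_5 m8_6 m8_7 m8_8 m8_9 m9_4 m9_5 m9_6 m9_7 m9_8 m9_9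
  linarith [m0_1.2, m0_2.1, m0_3.2, m1_1.2, m1_2.1, m1_3.2, m1_4.1, m1_5.1, m2_1.1, m2_2.2, m2_3.2, m2_4.1, m2_5.2, m2_6.1, m2_7.2, m3_1.2, m3_2.2, m3_3.1, m3_4.2, m3_5.1, m3_6.2, m3_7.1, m3_8.1, m4_1.1, m4_2.1, m4_3.2, m4_4.1, m4_5.2, m4_6.1, m4_7.1, m4_8.2, m4_9.1, m5_1.1, m5_2.2, m5_3.1, m5_4.2, m5_5.1, m5_6.1, m5_7.2, m5_8.1, m5_9.2, m6_2.1, m6_3.2, m6_4.1, m6_5.1, m6_6.2, m6_7.1, m6_8.2, m6_9.1, m7_2.2, m7_3.1, m7_4.1, m7_5.2, m7_6.1, m7_7.2, m7_8.1, m7_9.2, m8_3.1, m8_4.2, m8_5.1, m8_6.2, m8_7.1, m8_8.2, m8_9.1, m9_4.1, m9_5.2, m9_6.1, m9_7.2, m9_8.1, m9_9.2]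

end

/-- the polynomial inequalities -/
theorem poly_ineq (A B : ℝ) (hB : 0 ≤ B) (hBA : B ≤ A) (hA : A ≤ 2) (hB' : B ≤ 1 / 1000) :
    0 < Dn A B ∧ 0 < LL A B ∧ 0 < LL B A ∧ 0 < QQ A B ∧
      hh A B * hh B A - (2 - A) * (2 - B) * kk A B ^ 2 ≤ 0 := by
  have hA0 : 0 ≤ A := hB.trans hBA
  exact ⟨pI_Dn hA0 hA hB hB', pI_LL1 hA0 hA hB hB', pI_LL2 hA0 hA hB hB', pI_QQ hA0 hA hB hB',
    (pI_last hA0 hA hB hB').le⟩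

end ChernG2
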