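import Pool.Agent.Helper427.Chern.Defs

open scoped ContDiff RealInnerProductSpace Topology
open Real

namespace ChernG2

theorem Du_congr {V : Type} [NormedAddCommGroup V] [NormedSpace ℝ V] {f g : ℝ × ℝ → V}
    {w : ℝ × ℝ} (h : f =ᶠ[𝓝 w] g) : Du f =ᶠ[𝓝 w] Du g := by
  filter_upwards [h.fderiv (𝕜 := ℝ)] with x hx
  simp only [Du, hx]

theorem Dv_congr {V : Type} [NormedAddCommGroup V] [NormedSpace ℝ V] {f g : ℝ × ℝ → V}
    {w : ℝ × ℝ} (h : f =ᶠ[𝓝 w] g) : Dv f =ᶠ[𝓝 w] Dv g := by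
  filter_upwards [h.fderiv (𝕜 := ℝ)] with x hx
  simp only [Dv, hx]

theorem inner_congr' {f g f' g' : ℝ × ℝ → E4} {w : ℝ × ℝ} (h : f =ᶠ[𝓝 w] g)
    (h' : f' =ᶠ[𝓝 w] g') : (fun w => ⟪f w, f' w⟫) =ᶠ[𝓝 w] fun w => ⟪g w, g' w⟫ := by
  filter_upwards [h, h'] with x hx hx'
  rw [hx, hx']

theorem brioschi_congr {E F G E' F' G' : ℝ × ℝ → ℝ} {w : ℝ × ℝ} (hE : E =ᶠ[𝓝 w] E')
    (hF : F =ᶠ[𝓝 w] F') (hG : G =ᶠ[𝓝 w] G') : brioschi E F G w = brioschi E' F' G' w := by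
  unfold brioschi
  rw [(Dv_congr (Dv_congr hE)).self_of_nhds, (Du_congr (Dv_congr hF)).self_of_nhds,
    (Du_congr (Du_congr hG)).self_of_nhds, (Du_congr hE).self_of_nhds,
    (Dv_congr hE).self_of_nhds, (Du_congr hF).self_of_nhds, (Dv_congr hF).self_of_nhds,
    (Du_congr hG).self_of_nhds, (Dv_congr hG).self_of_nhds, hE.self_of_nhds, hF.self_of_nhds,
    hG.self_of_nhds]

theorem gaussK_congr {ψ ψ' : ℝ × ℝ → E4} {w : ℝ × ℝ} (h : ψ =ᶠ[𝓝 w] ψ') :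
    gaussK ψ w = gaussK ψ' w := by
  unfold gaussK
  exact brioschi_congr (inner_congr' (Du_congr h) (Du_congr h))
    (inner_congr' (Du_congr h) (Dv_congr h)) (inner_congr' (Dv_congr h) (Dv_congr h))

theorem contDiff_emb {α β τ : ℝ × ℝ → ℝ} (hα : ContDiff ℝ 4 α) (hβ : ContDiff ℝ 4 β)
    (hτ : ContDiff ℝ 4 τ) : ContDiff ℝ 4 (fun w => emb (α w) (β w) (τ w)) := by
  have hca : ContDiff ℝ 4 (fun w => cos (α w)) := contDiff_cos.comp hα
  have hsa : ContDiff ℝ 4 (fun w => sin (α w)) := contDiff_sin.comp hα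
  have hcb : ContDiff ℝ 4 (fun w => cos (β w)) := contDiff_cos.comp hβ
  have hsb : ContDiff ℝ 4 (fun w => sin (β w)) := contDiff_sin.comp hβ
  have hU : ContDiff ℝ 4 (fun w => 1 + 2 / 7 * ((1 - cos (α w)) * (1 - cos (β w)))) :=
    contDiff_const.add (contDiff_const.mul
      ((contDiff_const.sub hca).mul (contDiff_const.sub hcb)))
  rw [contDiff_euclidean]
  intro i
  fin_cases i
  · simpa [emb] using hU.mul hsa
  · simpa [emb] using hU.mul hsb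
  · simpa [emb] using hU.mul (hcb.sub hca)
  · simpa [emb] using hτ

end ChernG2
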