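import Pool.Agent.Helper427.Chern.Coords
import Pool.Agent.Helper427.Chern.Small
import Pool.Agent.Helper427.Chern.Poly
import Pool.Agent.Helper427.Chern.GaussBrioschi
import Pool.Agent.Helper427.Chern.JetsA
import Pool.Agent.Helper427.Chern.JetsB
import Pool.Agent.Helper427.Chern.Constraint
import Pool.Agent.Helper427.Chern.NumId

open scoped ContDiff RealInnerProductSpace Topology
open Real

namespace ChernG2

theorem Dn_symm (A B : ℝ) : Dn A B = Dn B A := by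
  unfold Dn n3; ring

theorem kk_symm (A B : ℝ) : kk A B = kk B A := by
  unfold kk zx zz Dn n3; ring

theorem QQ_symm (A B : ℝ) : QQ A B = QQ B A := by
  unfold QQ
  rw [kk_symm A B]
  ring

theorem poly_all (A B : ℝ) (hA0 : 0 ≤ A) (hB0 : 0 ≤ B) (hA2 : A ≤ 2) (hB2 : B ≤ 2)
    (hAB : A * B ≤ 1 / 1000000) :
    0 < Dn A B ∧ 0 < LL A B ∧ 0 < LL B A ∧ 0 < QQ A B ∧
      hh A B * hh B A - (2 - A) * (2 - B) * kk A B ^ 2 ≤ 0 := by
  rcases le_total B A with h | h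
  · have hB : B ≤ 1 / 1000 := by nlinarith
    exact poly_ineq A B hB0 h hA2 hB
  · have hA : A ≤ 1 / 1000 := by nlinarith
    obtain ⟨h1, h2, h3, h4, h5⟩ := poly_ineq B A hA0 h hB2 hA
    refine ⟨by rw [Dn_symm]; exact h1, h3, h2, by rw [QQ_symm]; exact h4, ?_⟩
    rw [kk_symm A B]
    linarith

/-- linear independence of the partial derivatives gives a positive Gram determinant -/
theorem gram_pos {L : ℝ × ℝ →L[ℝ] E4} (hL : Function.Injective L) :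
    0 < ⟪L (1, 0), L (1, 0)⟫ * ⟪L (0, 1), L (0, 1)⟫ - ⟪L (1, 0), L (0, 1)⟫ ^ 2 := by
  set p := L (1, 0) with hp
  set q := L (0, 1) with hq
  have hq0 : q ≠ 0 := by
    intro h
    have : L (0, 1) = L 0 := by rw [← hq, h, map_zero]
    have := hL this
    simp at this
  have hqq : 0 < ⟪q, q⟫ := real_inner_self_pos.2 hq0
  set x : E4 := ⟪q, q⟫ • p - ⟪p, q⟫ • q with hx
  have hx0 : x ≠ 0 := by
    intro h
    have h1 : L (⟪q, q⟫, -⟪p, q⟫) = x := by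
      have : ((⟪q, q⟫, -⟪p, q⟫) : ℝ × ℝ) = ⟪q, q⟫ • ((1, 0) : ℝ × ℝ) + (-⟪p, q⟫) • ((0, 1) : ℝ × ℝ) := by
        simp
      rw [this, map_add, map_smul, map_smul, ← hp, ← hq, hx]
      simp [sub_eq_add_neg]
    rw [h, ← map_zero L] at h1
    have := hL h1
    rw [Prod.ext_iff] at this
    simp only [Prod.fst_zero] at this
    exact hqq.ne' this.1
  have hxx : 0 < ⟪x, x⟫ := real_inner_self_pos.2 hx0
  have e : ⟪x, x⟫ = ⟪q, q⟫ * (⟪p, p⟫ * ⟪q, q⟫ - ⟪p, q⟫ ^ 2) := by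
    rw [hx]
    simp only [inner_sub_left, inner_sub_right, inner_smul_left, inner_smul_right,
      real_inner_comm p q, conj_trivial]
    ring
  rw [e] at hxx
  exact (pos_iff_pos_of_mul_pos hxx).1 hqq

theorem jet1_lin (a s b r x1 x2 x3 y1 y2 y3 k l : ℝ) :
    k • jet a s b r x1 x2 0 0 0 x3 + l • jet a s b r y1 y2 0 0 0 y3 =
      jet a s b r (k * x1 + l * y1) (k * x2 + l * y2) 0 0 0 (k * x3 + l * y3) := by
  ext i
  fin_cases i <;> simp [jet] <;> ring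

theorem jet_zero (a s b r : ℝ) : jet a s b r 0 0 0 0 0 0 = 0 := by
  ext i
  fin_cases i <;> simp [jet]

theorem grad_pos {a s b r t : ℝ} (hs : s ^ 2 = 1 - a ^ 2) (hr : r ^ 2 = 1 - b ^ 2)
    (ha1 : a ≤ 1) (hb1 : b ≤ 1) (hc : t ^ 2 + (1 - a) * (1 - b) = 1 / 1000000) :
    0 < (s * (1 - b)) ^ 2 + (r * (1 - a)) ^ 2 + (2 * t) ^ 2 := by
  by_contra hcon
  have n1 := sq_nonneg (s * (1 - b))
  have n2 := sq_nonneg (r * (1 - a))
  have n3 := sq_nonneg (2 * t)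
  have z1 : (s * (1 - b)) ^ 2 = 0 := by linarith
  have z2 : (r * (1 - a)) ^ 2 = 0 := by linarith
  have z3 : t ^ 2 = 0 := by linarith
  have hp : (1 - a) * (1 - b) = 1 / 1000000 := by linarith
  have hA : 0 < 1 - a := by
    rcases (show 0 ≤ 1 - a by linarith).eq_or_lt with h | h
    · rw [← h] at hp; norm_num at hp
    · exact h
  have hB : 0 < 1 - b := by
    rcases (show 0 ≤ 1 - b by linarith).eq_or_lt with h | h
    · rw [← h] at hp; norm_num at hp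
    · exact h
  have s0 : s = 0 := by
    have := pow_eq_zero_iff (two_ne_zero) |>.1 z1
    rcases mul_eq_zero.1 this with h | h
    · exact h
    · exact absurd h hB.ne'
  have r0 : r = 0 := by
    have := pow_eq_zero_iff (two_ne_zero) |>.1 z2
    rcases mul_eq_zero.1 this with h | h
    · exact h
    · exact absurd h hA.ne'
  rw [s0] at hs
  rw [r0] at hr
  have a1 : (1 - a) * (1 + a) = 0 := by linarith
  have b1 : (1 - b) * (1 + b) = 0 := by linarith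
  have a2 : a = -1 := by
    rcases mul_eq_zero.1 a1 with h | h <;> linarith
  have b2 : b = -1 := by
    rcases mul_eq_zero.1 b1 with h | h <;> linarith
  rw [a2, b2] at hp
  norm_num at hp

theorem exists_lam {x1 x2 x3 y1 y2 y3 G1 G2 G3 : ℝ} (hG : 0 < G1 ^ 2 + G2 ^ 2 + G3 ^ 2)
    (hx : G1 * x1 + G2 * x2 + G3 * x3 = 0) (hy : G1 * y1 + G2 * y2 + G3 * y3 = 0) :
    ∃ lam : ℝ, x2 * y3 - x3 * y2 = lam * G1 ∧ x3 * y1 - x1 * y3 = lam * G2 ∧
      x1 * y2 - x2 * y1 = lam * G3 := by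
  refine ⟨((x2 * y3 - x3 * y2) * G1 + (x3 * y1 - x1 * y3) * G2 + (x1 * y2 - x2 * y1) * G3)
    / (G1 ^ 2 + G2 ^ 2 + G3 ^ 2), ?_, ?_, ?_⟩
  · rw [div_mul_eq_mul_div, eq_div_iff hG.ne']
    linear_combination (G2 * y3 - G3 * y2) * hx - (G2 * x3 - G3 * x2) * hy
  · rw [div_mul_eq_mul_div, eq_div_iff hG.ne']
    linear_combination (G3 * y1 - G1 * y3) * hx - (G3 * x1 - G1 * x3) * hy
  · rw [div_mul_eq_mul_div, eq_div_iff hG.ne']
    linear_combination (G1 * y2 - G2 * y1) * hx - (G1 * x2 - G2 * x1) * hy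

theorem final_sign {A B t lam D Dnn L L' m s2r2 U H Q NUM : ℝ} (hA : 0 ≤ A) (hB : 0 ≤ B)
    (hc : t ^ 2 + A * B = 1 / 1000000) (hlam : lam ≠ 0) (hD : 0 < D) (hDn : 0 < Dnn)
    (hL : 0 < L) (hL' : 0 < L') (hs : 0 ≤ s2r2) (hU : U ≠ 0) (hH : H ≤ 0) (hQ : 0 < Q)
    (key : Dnn * NUM = 4 * lam ^ 2 * t ^ 2 * D * (-(L * L') - s2r2 * m ^ 2)
      + 4 * lam ^ 4 * t ^ 2 * U ^ 2 * (A * B * H)
      - 2 * lam ^ 4 * U ^ 2 * Dnn * (A ^ 2 * B ^ 2 * Q)) : NUM < 0 := by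
  have hl2 : 0 < lam ^ 2 := by positivity
  have hl4 : 0 < lam ^ 4 := by positivity
  have hU2 : 0 < U ^ 2 := by positivity
  have hneg : -(L * L') - s2r2 * m ^ 2 < 0 := by
    have h1 : 0 < L * L' := mul_pos hL hL'
    have h2 : 0 ≤ s2r2 * m ^ 2 := mul_nonneg hs (sq_nonneg m)
    linarith
  have hAB : 0 ≤ A * B := mul_nonneg hA hB
  have t1 : 4 * lam ^ 2 * t ^ 2 * D * (-(L * L') - s2r2 * m ^ 2) ≤ 0 :=
    mul_nonpos_of_nonneg_of_nonpos (by positivity) hneg.le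
  have t2 : 4 * lam ^ 4 * t ^ 2 * U ^ 2 * (A * B * H) ≤ 0 :=
    mul_nonpos_of_nonneg_of_nonpos (by positivity) (mul_nonpos_of_nonneg_of_nonpos hAB hH)
  have t3 : 0 ≤ 2 * lam ^ 4 * U ^ 2 * Dnn * (A ^ 2 * B ^ 2 * Q) := by positivity
  have hlt : Dnn * NUM < 0 := by
    rcases hAB.eq_or_lt with h | h
    · have ht : 0 < t ^ 2 := by rw [← h] at hc; linarith
      have : 4 * lam ^ 2 * t ^ 2 * D * (-(L * L') - s2r2 * m ^ 2) < 0 :=
        mul_neg_of_pos_of_neg (by positivity) hneg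
      linarith
    · have : 0 < 2 * lam ^ 4 * U ^ 2 * Dnn * (A ^ 2 * B ^ 2 * Q) := by
        have : A ^ 2 * B ^ 2 = (A * B) ^ 2 := by ring
        rw [this]
        positivity
      linarith
  by_contra hcon
  have : 0 ≤ Dnn * NUM := mul_nonneg hDn.le (not_lt.1 hcon)
  linarith

theorem pointwise (a s b r t x1 x2 x3 y1 y2 y3 uu1 uu2 uu3 uv1 uv2 uv3 vv1 vv2 vv3 : ℝ)
    (hs : s ^ 2 = 1 - a ^ 2) (hr : r ^ 2 = 1 - b ^ 2)
    (ha1 : a ≤ 1) (hb1 : b ≤ 1) (ha2 : -1 ≤ a) (hb2 : -1 ≤ b)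
    (hc : t ^ 2 + (1 - a) * (1 - b) = 1 / 1000000)
    (c1 : s * (1 - b) * x1 + r * (1 - a) * x2 + 2 * t * x3 = 0)
    (c2 : s * (1 - b) * y1 + r * (1 - a) * y2 + 2 * t * y3 = 0)
    (huu : s * (1 - b) * uu1 + r * (1 - a) * uu2 + 2 * t * uu3
      + (a * (1 - b) * x1 ^ 2 + 2 * (s * r) * (x1 * x2) + b * (1 - a) * x2 ^ 2 + 2 * x3 ^ 2) = 0)
    (huv : s * (1 - b) * uv1 + r * (1 - a) * uv2 + 2 * t * uv3
      + (a * (1 - b) * (x1 * y1) + (s * r) * (x1 * y2 + y1 * x2) + b * (1 - a) * (x2 * y2)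
        + 2 * (x3 * y3)) = 0)
    (hvv : s * (1 - b) * vv1 + r * (1 - a) * vv2 + 2 * t * vv3
      + (a * (1 - b) * y1 ^ 2 + 2 * (s * r) * (y1 * y2) + b * (1 - a) * y2 ^ 2 + 2 * y3 ^ 2) = 0)
    (hlin : ∀ k l : ℝ, k • jet a s b r x1 x2 0 0 0 x3 + l • jet a s b r y1 y2 0 0 0 y3 = 0 →
      k = 0 ∧ l = 0)
    (hgram : 0 < ⟪jet a s b r x1 x2 0 0 0 x3, jet a s b r x1 x2 0 0 0 x3⟫
            * ⟪jet a s b r y1 y2 0 0 0 y3, jet a s b r y1 y2 0 0 0 y3⟫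
          - ⟪jet a s b r x1 x2 0 0 0 x3, jet a s b r y1 y2 0 0 0 y3⟫ ^ 2) :
    gram3 (jet a s b r uu1 uu2 (x1 ^ 2) (2 * (x1 * x2)) (x2 ^ 2) uu3)
          (jet a s b r vv1 vv2 (y1 ^ 2) (2 * (y1 * y2)) (y2 ^ 2) vv3)
          (jet a s b r x1 x2 0 0 0 x3) (jet a s b r y1 y2 0 0 0 y3)
        - gram3 (jet a s b r uv1 uv2 (x1 * y1) (x1 * y2 + y1 * x2) (x2 * y2) uv3)
          (jet a s b r uv1 uv2 (x1 * y1) (x1 * y2 + y1 * x2) (x2 * y2) uv3)
          (jet a s b r x1 x2 0 0 0 x3) (jet a s b r y1 y2 0 0 0 y3) < 0 := by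
  have hA0 : 0 ≤ 1 - a := by linarith
  have hB0 : 0 ≤ 1 - b := by linarith
  have hAB0 : 0 ≤ (1 - a) * (1 - b) := mul_nonneg hA0 hB0
  have hAB : (1 - a) * (1 - b) ≤ 1 / 1000000 := by linarith [sq_nonneg t]
  obtain ⟨pD, pL, pL', pQ, pH⟩ := poly_all (1 - a) (1 - b) hA0 hB0
    (by linarith) (by linarith) hAB
  obtain ⟨lam, l1, l2, l3⟩ := exists_lam (grad_pos hs hr ha1 hb1 hc) c1 c2
  have hlam : lam ≠ 0 := by
    intro h
    rw [h, zero_mul] at l1 l2 l3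
    have k1 := hlin y1 (-x1) (by
      rw [jet1_lin, show y1 * x1 + -x1 * y1 = 0 by ring, show y1 * x2 + -x1 * y2 = 0 by linarith,
        show y1 * x3 + -x1 * y3 = 0 by linarith]; exact jet_zero _ _ _ _)
    have k2 := hlin y2 (-x2) (by
      rw [jet1_lin, show y2 * x2 + -x2 * y2 = 0 by ring, show y2 * x1 + -x2 * y1 = 0 by linarith,
        show y2 * x3 + -x2 * y3 = 0 by linarith]; exact jet_zero _ _ _ _)
    have k3 := hlin y3 (-x3) (by
      rw [jet1_lin, show y3 * x3 + -x3 * y3 = 0 by ring, show y3 * x1 + -x3 * y1 = 0 by linarith,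
        show y3 * x2 + -x3 * y2 = 0 by linarith]; exact jet_zero _ _ _ _)
    have k4 := hlin 1 0 (by
      rw [jet1_lin, k1.1, k2.1, k3.1, show x1 = 0 by linarith [k1.2], show x2 = 0 by linarith [k2.2],
        show x3 = 0 by linarith [k3.2]]
      simp [jet_zero])
    exact one_ne_zero k4.1
  have key := num_identity a s b r t lam x1 x2 x3 y1 y2 y3 uu1 uu2 uu3 uv1 uv2 uv3 vv1 vv2 vv3
    hs hr l1 l2 l3 huu huv hvv
  have hU : 1 + 2 / 7 * ((1 - a) * (1 - b)) ≠ 0 := by positivity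
  have hH : hh (1 - a) (1 - b) * hh (1 - b) (1 - a)
      - (1 + a) * (1 + b) * kk (1 - a) (1 - b) ^ 2 ≤ 0 := by
    have e1 : 2 - (1 - a) = 1 + a := by ring
    have e2 : 2 - (1 - b) = 1 + b := by ring
    rw [e1, e2] at pH
    exact pH
  have hs2 : 0 ≤ s ^ 2 * r ^ 2 := by positivity
  exact final_sign hA0 hB0 hc hlam hgram pD pL pL' hs2 hU hH pQ key

theorem neg_of_lift (α β τ : ℝ × ℝ → ℝ) (hα : ContDiff ℝ 4 α) (hβ : ContDiff ℝ 4 β)
    (hτ : ContDiff ℝ 4 τ) (w : ℝ × ℝ)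
    (hc : ∀ᶠ w' in 𝓝 w, τ w' ^ 2 + (1 - cos (α w')) * (1 - cos (β w')) = 1 / 1000000)
    (himm : Function.Injective (fderiv ℝ (fun w => emb (α w) (β w) (τ w)) w)) :
    gaussK (fun w => emb (α w) (β w) (τ w)) w < 0 := by
  have hψ : ContDiff ℝ 4 (fun w => emb (α w) (β w) (τ w)) := contDiff_emb hα hβ hτ
  have hgram := gram_pos himm
  obtain ⟨c1, c2⟩ := constraint1 _ α β τ hα hβ hτ w hc
  obtain ⟨d1, d2, d3⟩ := constraint2 _ α β τ hα hβ hτ w hc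
  have hcw : τ w ^ 2 + (1 - cos (α w)) * (1 - cos (β w)) = 1 / 1000000 := hc.self_of_nhds
  rw [gaussK_formula _ hψ]
  have hDu := jet_Du α β τ hα hβ hτ w
  have hDv := jet_Dv α β τ hα hβ hτ w
  rw [jet_DuDu α β τ hα hβ hτ, jet_DuDv α β τ hα hβ hτ, jet_DvDv α β τ hα hβ hτ]
  change 0 < ⟪Du (fun w => emb (α w) (β w) (τ w)) w, Du (fun w => emb (α w) (β w) (τ w)) w⟫
    * ⟪Dv (fun w => emb (α w) (β w) (τ w)) w, Dv (fun w => emb (α w) (β w) (τ w)) w⟫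
    - ⟪Du (fun w => emb (α w) (β w) (τ w)) w, Dv (fun w => emb (α w) (β w) (τ w)) w⟫ ^ 2 at hgram
  have hlin : ∀ k l : ℝ, k • Du (fun w => emb (α w) (β w) (τ w)) w
      + l • Dv (fun w => emb (α w) (β w) (τ w)) w = 0 → k = 0 ∧ l = 0 := by
    intro k l h
    have h1 : fderiv ℝ (fun w => emb (α w) (β w) (τ w)) w (k, l) = 0 := by
      have : ((k, l) : ℝ × ℝ) = k • ((1, 0) : ℝ × ℝ) + l • ((0, 1) : ℝ × ℝ) := by simp
      rw [this, map_add, map_smul, map_smul]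
      exact h
    rw [← map_zero (fderiv ℝ (fun w => emb (α w) (β w) (τ w)) w)] at h1
    have := himm h1
    simpa [Prod.ext_iff] using this
  rw [hDu, hDv] at hgram hlin ⊢
  have hs : sin (α w) ^ 2 = 1 - cos (α w) ^ 2 := by linarith [sin_sq_add_cos_sq (α w)]
  have hr : sin (β w) ^ 2 = 1 - cos (β w) ^ 2 := by linarith [sin_sq_add_cos_sq (β w)]
  have hnum := pointwise _ _ _ _ _ _ _ _ _ _ _ _ _ _ _ _ _ _ _ _ hs hr (cos_le_one (α w))
    (cos_le_one (β w)) (neg_one_le_cos (α w)) (neg_one_le_cos (β w)) hcw c1 c2 d1 d2 d3 hlin hgram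
  exact div_neg_of_neg_of_pos hnum (by positivity)

end ChernG2
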