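import Pool.Agent.Helper427.Chern.Defs

open scoped ContDiff RealInnerProductSpace Topology
open Real

namespace ChernG2

/-! coordinate functions recovering `sin α`, `sin β`, `1 - cos α`, `1 - cos β` on the surface -/

noncomputable def rho (q : E4) : ℝ := 1 + 2/7 * (1 / 1000000 - q 3 ^ 2)
noncomputable def pS (q : E4) : ℝ := q 0 / rho q
noncomputable def pR (q : E4) : ℝ := q 1 / rho q
noncomputable def pZ (q : E4) : ℝ := q 2 / rho q
noncomputable def pA (q : E4) : ℝ :=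
  ((pS q ^ 2 + pR q ^ 2 + pZ q ^ 2) / 2 + (1 / 1000000 - q 3 ^ 2) + pZ q) / 2
noncomputable def pB (q : E4) : ℝ :=
  ((pS q ^ 2 + pR q ^ 2 + pZ q ^ 2) / 2 + (1 / 1000000 - q 3 ^ 2) - pZ q) / 2

theorem emb_0 (α β τ : ℝ) : emb α β τ 0 = (1 + 2 / 7 * ((1 - cos α) * (1 - cos β))) * sin α := by
  simp [emb]
theorem emb_1 (α β τ : ℝ) : emb α β τ 1 = (1 + 2 / 7 * ((1 - cos α) * (1 - cos β))) * sin β := by
  simp [emb]
theorem emb_2 (α β τ : ℝ) :
    emb α β τ 2 = (1 + 2 / 7 * ((1 - cos α) * (1 - cos β))) * (cos β - cos α) := by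
  simp [emb]
theorem emb_3 (α β τ : ℝ) : emb α β τ 3 = τ := by
  simp [emb]

/-- On the surface the coordinate functions have the expected values. -/
theorem coords {α β τ : ℝ} (h : τ ^ 2 + (1 - cos α) * (1 - cos β) = 1 / 1000000) :
    1 ≤ rho (emb α β τ) ∧ pS (emb α β τ) = sin α ∧ pR (emb α β τ) = sin β ∧
      pZ (emb α β τ) = cos β - cos α ∧ pA (emb α β τ) = 1 - cos α ∧
      pB (emb α β τ) = 1 - cos β := by
  have hA : 0 ≤ 1 - cos α := by linarith [cos_le_one α]
  have hB : 0 ≤ 1 - cos β := by linarith [cos_le_one β]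
  have hAB : 0 ≤ (1 - cos α) * (1 - cos β) := mul_nonneg hA hB
  have hp : 1 / 1000000 - τ ^ 2 = (1 - cos α) * (1 - cos β) := by linarith
  have hrho : rho (emb α β τ) = 1 + 2 / 7 * ((1 - cos α) * (1 - cos β)) := by
    simp only [rho, emb_3, hp]
  have hpos : 0 < 1 + 2 / 7 * ((1 - cos α) * (1 - cos β)) := by positivity
  have hS : pS (emb α β τ) = sin α := by
    unfold pS
    rw [hrho, emb_0]
    field_simp
  have hR : pR (emb α β τ) = sin β := by
    unfold pR
    rw [hrho, emb_1]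
    field_simp
  have hZ : pZ (emb α β τ) = cos β - cos α := by
    unfold pZ
    rw [hrho, emb_2]
    field_simp
  have e1 := sin_sq_add_cos_sq α
  have e2 := sin_sq_add_cos_sq β
  refine ⟨by rw [hrho]; linarith, hS, hR, hZ, ?_, ?_⟩
  · unfold pA
    rw [hS, hR, hZ, emb_3, hp]
    nlinarith
  · unfold pB
    rw [hS, hR, hZ, emb_3, hp]
    nlinarith

theorem isPatch_of_inverse {M : Set E4} {U : Set (ℝ × ℝ)} {W : Set E4} {ψ : ℝ × ℝ → E4}
    {Λ : E4 → ℝ × ℝ} (hU : IsOpen U) (hW : IsOpen W) (hψ : ContDiffOn ℝ ∞ ψ U)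
    (hΛ : ∀ q ∈ W, DifferentiableAt ℝ Λ q)
    (h1 : ∀ w ∈ U, ψ w ∈ M ∧ ψ w ∈ W ∧ Λ (ψ w) = w)
    (h2 : ∀ q ∈ M, q ∈ W → Λ q ∈ U ∧ ψ (Λ q) = q) : IsPatch M U ψ := by
  refine ⟨hU, hψ, ?_, ?_, W, hW, ?_⟩
  · intro w hw
    have hd : DifferentiableAt ℝ ψ w :=
      (hψ.contDiffAt (hU.mem_nhds hw)).differentiableAt (by simp)
    have hc : (Λ ∘ ψ) =ᶠ[𝓝 w] id := by
      filter_upwards [hU.mem_nhds hw] with x hx
      exact (h1 x hx).2.2
    have hf : fderiv ℝ (Λ ∘ ψ) w = ContinuousLinearMap.id ℝ (ℝ × ℝ) := by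
      rw [hc.fderiv_eq]
      exact fderiv_id
    rw [fderiv_comp w (hΛ _ (h1 w hw).2.1) hd] at hf
    intro x y hxy
    have hx := congrArg (fun L => L x) hf
    have hy := congrArg (fun L => L y) hf
    simp only [ContinuousLinearMap.comp_apply, ContinuousLinearMap.id_apply] at hx hy
    rw [← hx, ← hy, hxy]
  · let f : U → W := fun x => ⟨ψ x.1, (h1 x.1 x.2).2.1⟩
    let g : W → ℝ × ℝ := fun y => Λ y.1
    have hf : Continuous f := by
      refine Continuous.subtype_mk ?_ _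
      exact continuousOn_iff_continuous_domRestrict.mp hψ.continuousOn
    have hg : Continuous g := by
      have : ContinuousOn Λ W := fun q hq => (hΛ q hq).continuousAt.continuousWithinAt
      exact continuousOn_iff_continuous_domRestrict.mp this
    have hgf : Topology.IsEmbedding (g ∘ f) := by
      have : g ∘ f = Subtype.val := by
        funext x
        exact (h1 x.1 x.2).2.2
      rw [this]
      exact Topology.IsEmbedding.subtypeVal
    exact Topology.IsEmbedding.subtypeVal.comp (Topology.IsEmbedding.of_comp hf hg hgf)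
  · ext q
    constructor
    · rintro ⟨w, hw, rfl⟩
      exact ⟨(h1 w hw).1, (h1 w hw).2.1⟩
    · rintro ⟨hM, hWq⟩
      exact ⟨Λ q, (h2 q hM hWq).1, (h2 q hM hWq).2⟩

/-- local lift of an angle: `sin (α - α₀) = sin α cos α₀ - cos α sin α₀` and
`cos (α - α₀) = cos α cos α₀ + sin α sin α₀` -/
theorem lift_angle {α α₀ : ℝ} (h : 0 < cos α * cos α₀ + sin α * sin α₀) :
    sin (α₀ + arcsin (sin α * cos α₀ - cos α * sin α₀)) = sin α ∧
      cos (α₀ + arcsin (sin α * cos α₀ - cos α * sin α₀)) = cos α ∧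
      -1 < sin α * cos α₀ - cos α * sin α₀ ∧ sin α * cos α₀ - cos α * sin α₀ < 1 := by
  rw [← cos_sub] at h
  rw [← sin_sub]
  have hsq := sin_sq_add_cos_sq (α - α₀)
  have hc2 : 0 < cos (α - α₀) ^ 2 := by positivity
  have h1 : -1 < sin (α - α₀) := by nlinarith
  have h2 : sin (α - α₀) < 1 := by nlinarith
  have hs : sin (arcsin (sin (α - α₀))) = sin (α - α₀) := sin_arcsin h1.le h2.le
  have hc : cos (arcsin (sin (α - α₀))) = cos (α - α₀) := by
    rw [cos_arcsin, show 1 - sin (α - α₀) ^ 2 = cos (α - α₀) ^ 2 by linarith]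
    exact sqrt_sq h.le
  refine ⟨?_, ?_, h1, h2⟩
  · rw [sin_add, hs, hc, ← sin_add]
    congr 1
    ring
  · rw [cos_add, hs, hc, ← cos_add]
    congr 1
    ring

end ChernG2
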