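import Pool.Agent.Helper427.Chern.Defs
import Pool.Agent.Helper427.Chern.Coords

open scoped ContDiff RealInnerProductSpace Topology
open Real

namespace ChernG2

theorem ca_coord (i : Fin 4) : Differentiable ℝ (fun q : E4 => q i) :=
  (EuclideanSpace.proj i : E4 →L[ℝ] ℝ).differentiable

theorem ca_rho : Differentiable ℝ rho := by
  unfold rho
  have := ca_coord 3
  fun_prop

theorem ca_pS {q : E4} (h : rho q ≠ 0) : DifferentiableAt ℝ pS q := by
  have h0 := (ca_coord 0 q).mul ((ca_rho q).inv h)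
  have h1 : pS = fun q => q 0 * (rho q)⁻¹ := by
    funext x; unfold pS; rw [div_eq_mul_inv]
  rw [h1]
  exact h0

theorem ca_pR {q : E4} (h : rho q ≠ 0) : DifferentiableAt ℝ pR q := by
  have h0 := (ca_coord 1 q).mul ((ca_rho q).inv h)
  have h1 : pR = fun q => q 1 * (rho q)⁻¹ := by
    funext x; unfold pR; rw [div_eq_mul_inv]
  rw [h1]
  exact h0

theorem ca_pZ {q : E4} (h : rho q ≠ 0) : DifferentiableAt ℝ pZ q := by
  have h0 := (ca_coord 2 q).mul ((ca_rho q).inv h)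
  have h1 : pZ = fun q => q 2 * (rho q)⁻¹ := by
    funext x; unfold pZ; rw [div_eq_mul_inv]
  rw [h1]
  exact h0

theorem ca_pA {q : E4} (h : rho q ≠ 0) : DifferentiableAt ℝ pA q := by
  have h1 := ca_pS h
  have h2 := ca_pR h
  have h3 := ca_pZ h
  have h4 := ca_coord 3 q
  unfold pA
  fun_prop

theorem ca_pB {q : E4} (h : rho q ≠ 0) : DifferentiableAt ℝ pB q := by
  have h1 := ca_pS h
  have h2 := ca_pR h
  have h3 := ca_pZ h
  have h4 := ca_coord 3 q
  unfold pB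
  fun_prop

theorem ca_sqrt {s τ : ℝ} (hs : s ^ 2 = 1) (hsτ : 0 < s * τ) : s * √(τ ^ 2) = τ := by
  have h1 : τ ^ 2 = (s * τ) ^ 2 := by rw [mul_pow, hs, one_mul]
  rw [h1, Real.sqrt_sq hsτ.le]
  calc s * (s * τ) = s ^ 2 * τ := by ring
    _ = τ := by rw [hs, one_mul]

theorem ca_abs {x y : ℝ} (h : |x - y| < π / 2) :
    0 < cos x * cos y + sin x * sin y ∧ y + arcsin (sin x * cos y - cos x * sin y) = x := by
  rw [← cos_sub, ← sin_sub]
  rw [abs_lt] at h
  refine ⟨cos_pos_of_mem_Ioo ⟨h.1, h.2⟩, ?_⟩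
  rw [arcsin_sin h.1.le h.2.le]
  ring

theorem chart_a (α₀ β₀ τ₀ : ℝ) (h : τ₀ ^ 2 + (1 - cos α₀) * (1 - cos β₀) = 1 / 1000000)
    (hτ : τ₀ ≠ 0) :
    ∃ (U : Set (ℝ × ℝ)) (ψ : ℝ × ℝ → E4), IsPatch MM U ψ ∧ emb α₀ β₀ τ₀ ∈ ψ '' U := by
  obtain ⟨s, hs, hsτ⟩ : ∃ s : ℝ, s ^ 2 = 1 ∧ 0 < s * τ₀ := by
    rcases lt_or_gt_of_ne hτ with h1 | h1
    · exact ⟨-1, by norm_num, by linarith⟩
    · exact ⟨1, by norm_num, by linarith⟩
  have hs0 : s ≠ 0 := by
    rintro rfl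
    norm_num at hs
  let U : Set (ℝ × ℝ) := {w | |w.1 - α₀| < π / 2 ∧ |w.2 - β₀| < π / 2 ∧
    (1 - cos w.1) * (1 - cos w.2) < 1 / 1000000}
  let ψ : ℝ × ℝ → E4 := fun w =>
    emb w.1 w.2 (s * √(1 / 1000000 - (1 - cos w.1) * (1 - cos w.2)))
  let fa : E4 → ℝ := fun q => pS q * cos α₀ - (1 - pA q) * sin α₀
  let fb : E4 → ℝ := fun q => pR q * cos β₀ - (1 - pB q) * sin β₀
  let ga : E4 → ℝ := fun q => (1 - pA q) * cos α₀ + pS q * sin α₀
  let gb : E4 → ℝ := fun q => (1 - pB q) * cos β₀ + pR q * sin β₀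
  let W : Set E4 := {q | 0 < rho q ∧ 0 < s * q 3 ∧ 0 < ga q ∧ 0 < gb q ∧
    |fa q| < 1 ∧ |fb q| < 1}
  let Λ : E4 → ℝ × ℝ := fun q => (α₀ + arcsin (fa q), β₀ + arcsin (fb q))
  have hfa : ∀ q, rho q ≠ 0 → DifferentiableAt ℝ fa q := by
    intro q hq
    have h1 := ca_pS hq
    have h2 := ca_pA hq
    show DifferentiableAt ℝ (fun q => pS q * cos α₀ - (1 - pA q) * sin α₀) q
    fun_prop
  have hfb : ∀ q, rho q ≠ 0 → DifferentiableAt ℝ fb q := by
    intro q hq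
    have h1 := ca_pR hq
    have h2 := ca_pB hq
    show DifferentiableAt ℝ (fun q => pR q * cos β₀ - (1 - pB q) * sin β₀) q
    fun_prop
  have hga : ∀ q, rho q ≠ 0 → DifferentiableAt ℝ ga q := by
    intro q hq
    have h1 := ca_pS hq
    have h2 := ca_pA hq
    show DifferentiableAt ℝ (fun q => (1 - pA q) * cos α₀ + pS q * sin α₀) q
    fun_prop
  have hgb : ∀ q, rho q ≠ 0 → DifferentiableAt ℝ gb q := by
    intro q hq
    have h1 := ca_pR hq
    have h2 := ca_pB hq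
    show DifferentiableAt ℝ (fun q => (1 - pB q) * cos β₀ + pR q * sin β₀) q
    fun_prop
  refine ⟨U, ψ, isPatch_of_inverse (W := W) (Λ := Λ) ?_ ?_ ?_ ?_ ?_ ?_, ?_⟩
  · -- U open
    have o1 : IsOpen {w : ℝ × ℝ | |w.1 - α₀| < π / 2} := isOpen_lt (by fun_prop) continuous_const
    have o2 : IsOpen {w : ℝ × ℝ | |w.2 - β₀| < π / 2} := isOpen_lt (by fun_prop) continuous_const
    have o3 : IsOpen {w : ℝ × ℝ | (1 - cos w.1) * (1 - cos w.2) < 1 / 1000000} :=
      isOpen_lt (by fun_prop) continuous_const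
    exact o1.inter (o2.inter o3)
  · -- W open
    rw [isOpen_iff_mem_nhds]
    rintro q ⟨q1, q2, q3, q4, q5, q6⟩
    have c1 := (ca_rho q).continuousAt.eventually (lt_mem_nhds q1)
    have c2' : ContinuousAt (fun q : E4 => s * q 3) q :=
      ((ca_coord 3 q).const_mul s).continuousAt
    have c2 := c2'.eventually (lt_mem_nhds q2)
    have c3 := (hga q q1.ne').continuousAt.eventually (lt_mem_nhds q3)
    have c4 := (hgb q q1.ne').continuousAt.eventually (lt_mem_nhds q4)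
    have c5 := (hfa q q1.ne').continuousAt.abs.eventually (gt_mem_nhds q5)
    have c6 := (hfb q q1.ne').continuousAt.abs.eventually (gt_mem_nhds q6)
    filter_upwards [c1, c2, c3, c4, c5, c6] with x x1 x2 x3 x4 x5 x6
    exact ⟨x1, x2, x3, x4, x5, x6⟩
  · -- smooth
    have hE : ContDiffOn ℝ ∞ (fun w : ℝ × ℝ => √(1 / 1000000 - (1 - cos w.1) * (1 - cos w.2))) U := by
      apply ContDiffOn.sqrt
      · apply ContDiff.contDiffOn
        fun_prop
      · rintro w ⟨-, -, hw⟩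
        linarith
    rw [contDiffOn_euclidean]
    intro i
    fin_cases i
    · apply ContDiff.contDiffOn
      simp only [ψ, Fin.zero_eta, Fin.isValue, emb_0]
      fun_prop
    · apply ContDiff.contDiffOn
      simp only [ψ, Fin.mk_one, Fin.isValue, emb_1]
      fun_prop
    · apply ContDiff.contDiffOn
      simp only [ψ, Fin.reduceFinMk, Fin.isValue, emb_2]
      fun_prop
    · simp only [ψ, Fin.reduceFinMk, Fin.isValue, emb_3]
      exact contDiffOn_const.mul hE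
  · -- Λ differentiable
    rintro q ⟨q1, q2, q3, q4, q5, q6⟩
    rw [abs_lt] at q5 q6
    have d1 : DifferentiableAt ℝ (fun q => arcsin (fa q)) q :=
      (Real.differentiableAt_arcsin.2 ⟨q5.1.ne', q5.2.ne⟩).comp q (hfa q q1.ne')
    have d2 : DifferentiableAt ℝ (fun q => arcsin (fb q)) q :=
      (Real.differentiableAt_arcsin.2 ⟨q6.1.ne', q6.2.ne⟩).comp q (hfb q q1.ne')
    exact (d1.const_add α₀).prodMk (d2.const_add β₀)
  · -- h1
    rintro w ⟨w1, w2, w3⟩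
    have hE : 0 < 1 / 1000000 - (1 - cos w.1) * (1 - cos w.2) := by linarith
    have hmem : (s * √(1 / 1000000 - (1 - cos w.1) * (1 - cos w.2))) ^ 2 +
        (1 - cos w.1) * (1 - cos w.2) = 1 / 1000000 := by
      rw [mul_pow, hs, Real.sq_sqrt hE.le]
      ring
    obtain ⟨k1, k2, k3, k4, k5, k6⟩ := coords hmem
    obtain ⟨a1, a2⟩ := ca_abs w1
    obtain ⟨b1, b2⟩ := ca_abs w2
    obtain ⟨-, -, a3, a4⟩ := lift_angle a1
    obtain ⟨-, -, b3, b4⟩ := lift_angle b1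
    have e1 : fa (ψ w) = sin w.1 * cos α₀ - cos w.1 * sin α₀ := by
      simp only [fa, ψ, k2, k5]; ring
    have e2 : fb (ψ w) = sin w.2 * cos β₀ - cos w.2 * sin β₀ := by
      simp only [fb, ψ, k3, k6]; ring
    have e3 : ga (ψ w) = cos w.1 * cos α₀ + sin w.1 * sin α₀ := by
      simp only [ga, ψ, k2, k5]; ring
    have e4 : gb (ψ w) = cos w.2 * cos β₀ + sin w.2 * sin β₀ := by
      simp only [gb, ψ, k3, k6]; ring
    refine ⟨⟨w.1, w.2, _, hmem, rfl⟩, ⟨?_, ?_, ?_, ?_, ?_, ?_⟩, ?_⟩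
    · exact lt_of_lt_of_le one_pos k1
    · simp only [ψ, emb_3]
      have : s * (s * √(1 / 1000000 - (1 - cos w.1) * (1 - cos w.2))) =
          s ^ 2 * √(1 / 1000000 - (1 - cos w.1) * (1 - cos w.2)) := by ring
      rw [this, hs, one_mul]
      exact Real.sqrt_pos.2 hE
    · rw [e3]; exact a1
    · rw [e4]; exact b1
    · rw [e1, abs_lt]; exact ⟨a3, a4⟩
    · rw [e2, abs_lt]; exact ⟨b3, b4⟩
    · show (α₀ + arcsin (fa (ψ w)), β₀ + arcsin (fb (ψ w))) = w
      rw [e1, e2, a2, b2]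
  · -- h2
    rintro q ⟨α, β, τ, hq, rfl⟩ ⟨q1, q2, q3, q4, q5, q6⟩
    obtain ⟨k1, k2, k3, k4, k5, k6⟩ := coords hq
    have e1 : fa (emb α β τ) = sin α * cos α₀ - cos α * sin α₀ := by
      simp only [fa, k2, k5]; ring
    have e2 : fb (emb α β τ) = sin β * cos β₀ - cos β * sin β₀ := by
      simp only [fb, k3, k6]; ring
    have e3 : ga (emb α β τ) = cos α * cos α₀ + sin α * sin α₀ := by
      simp only [ga, k2, k5]; ring
    have e4 : gb (emb α β τ) = cos β * cos β₀ + sin β * sin β₀ := by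
      simp only [gb, k3, k6]; ring
    rw [e3] at q3
    rw [e4] at q4
    rw [emb_3] at q2
    obtain ⟨a1, a2, a3, a4⟩ := lift_angle q3
    obtain ⟨b1, b2, b3, b4⟩ := lift_angle q4
    have hτ0 : τ ≠ 0 := by
      rintro rfl
      simp at q2
    have hτ2 : 0 < τ ^ 2 := by positivity
    have hp : 1 / 1000000 - (1 - cos α) * (1 - cos β) = τ ^ 2 := by linarith
    constructor
    · show |α₀ + arcsin (fa (emb α β τ)) - α₀| < π / 2 ∧ |β₀ + arcsin (fb (emb α β τ)) - β₀| < π / 2 ∧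
        (1 - cos (α₀ + arcsin (fa (emb α β τ)))) * (1 - cos (β₀ + arcsin (fb (emb α β τ)))) <
          1 / 1000000
      rw [e1, e2, a2, b2]
      refine ⟨?_, ?_, by linarith⟩
      · rw [add_sub_cancel_left, abs_lt]
        exact ⟨neg_pi_div_two_lt_arcsin.2 a3, arcsin_lt_pi_div_two.2 a4⟩
      · rw [add_sub_cancel_left, abs_lt]
        exact ⟨neg_pi_div_two_lt_arcsin.2 b3, arcsin_lt_pi_div_two.2 b4⟩
    · show emb (α₀ + arcsin (fa (emb α β τ))) (β₀ + arcsin (fb (emb α β τ)))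
        (s * √(1 / 1000000 - (1 - cos (α₀ + arcsin (fa (emb α β τ)))) *
          (1 - cos (β₀ + arcsin (fb (emb α β τ)))))) = emb α β τ
      rw [e1, e2]
      unfold emb
      rw [a1, a2, b1, b2, hp, ca_sqrt hs q2]
  · refine ⟨(α₀, β₀), ⟨?_, ?_, ?_⟩, ?_⟩
    · simp only [sub_self, abs_zero]; positivity
    · simp only [sub_self, abs_zero]; positivity
    · have : 0 < τ₀ ^ 2 := by positivity
      simp only
      linarith
    · show emb α₀ β₀ (s * √(1 / 1000000 - (1 - cos α₀) * (1 - cos β₀))) = emb α₀ β₀ τ₀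
      rw [show 1 / 1000000 - (1 - cos α₀) * (1 - cos β₀) = τ₀ ^ 2 by linarith, ca_sqrt hs hsτ]

end ChernG2
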