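import Pool.Agent.Helper427.Chern.Defs
import Pool.Agent.Helper427.Chern.Coords

open scoped ContDiff RealInnerProductSpace Topology
open Real

namespace ChernG2


lemma pS_cont_8930 {q : E4} (hq : rho q ≠ 0) : DifferentiableAt ℝ pS q := by
  have h0 : DifferentiableAt ℝ (fun q : E4 => q 0) q := by fun_prop
  have h3 : DifferentiableAt ℝ rho q := by unfold rho; fun_prop
  have h4 := h0.mul (h3.fun_inv hq)
  exact h4

lemma pR_cont_8930 {q : E4} (hq : rho q ≠ 0) : DifferentiableAt ℝ pR q := by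
  have h0 : DifferentiableAt ℝ (fun q : E4 => q 1) q := by fun_prop
  have h3 : DifferentiableAt ℝ rho q := by unfold rho; fun_prop
  have h4 := h0.mul (h3.fun_inv hq)
  exact h4

lemma pZ_cont_8930 {q : E4} (hq : rho q ≠ 0) : DifferentiableAt ℝ pZ q := by
  have h0 : DifferentiableAt ℝ (fun q : E4 => q 2) q := by fun_prop
  have h3 : DifferentiableAt ℝ rho q := by unfold rho; fun_prop
  have h4 := h0.mul (h3.fun_inv hq)
  exact h4

lemma pA_cont_8930 {q : E4} (hq : rho q ≠ 0) : DifferentiableAt ℝ pA q := by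
  have h1 := pS_cont_8930 hq
  have h2 := pR_cont_8930 hq
  have h3 := pZ_cont_8930 hq
  unfold pA
  fun_prop

/-- `sg * √(2B - B²)` for `B = 1 - cos b` -/
lemma sg_sqrt_8930 {sg b : ℝ} (hsg : sg ^ 2 = 1) (hs : 0 < sg * sin b) :
    sg * √(2 * (1 - cos b) - (1 - cos b) ^ 2) = sin b := by
  have e : 2 * (1 - cos b) - (1 - cos b) ^ 2 = (sg * sin b) ^ 2 := by
    have := sin_sq_add_cos_sq b
    rw [mul_pow, hsg]
    linarith
  rw [e, sqrt_sq hs.le]
  linear_combination (sin b) * hsg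

theorem chart_b (α₀ β₀ τ₀ : ℝ) (h : τ₀ ^ 2 + (1 - cos α₀) * (1 - cos β₀) = 1 / 1000000)
    (hτ : τ₀ = 0) (hs : sin β₀ ≠ 0) :
    ∃ (U : Set (ℝ × ℝ)) (ψ : ℝ × ℝ → E4), IsPatch MM U ψ ∧ emb α₀ β₀ τ₀ ∈ ψ '' U := by
  subst hτ
  -- the sign
  obtain ⟨sg, hsg, hsgs⟩ : ∃ sg : ℝ, sg ^ 2 = 1 ∧ 0 < sg * sin β₀ := by
    rcases lt_or_gt_of_ne hs with h' | h'
    · exact ⟨-1, by norm_num, by linarith⟩
    · exact ⟨1, by norm_num, by linarith⟩
  have hsg0 : sg ≠ 0 := by
    intro h0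
    rw [h0] at hsg
    norm_num at hsg
  have hsgcase : sg = 1 ∨ sg = -1 := by
    have : (sg - 1) * (sg + 1) = 0 := by linear_combination hsg
    rcases mul_eq_zero.1 this with h' | h'
    · left; linarith
    · right; linarith
  set U : Set (ℝ × ℝ) := {w | |w.1 - α₀| < π / 2 ∧ w.2 ^ 2 < 1 / 1000000 ∧
    1 / 1000000 - w.2 ^ 2 < 2 * (1 - cos w.1)} with hU
  set ψ : ℝ × ℝ → E4 := fun w =>
    !₂[(1 + 2 / 7 * (1 / 1000000 - w.2 ^ 2)) * sin w.1,
      (1 + 2 / 7 * (1 / 1000000 - w.2 ^ 2)) * (sg *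
        √(2 * ((1 / 1000000 - w.2 ^ 2) / (1 - cos w.1)) -
          ((1 / 1000000 - w.2 ^ 2) / (1 - cos w.1)) ^ 2)),
      (1 + 2 / 7 * (1 / 1000000 - w.2 ^ 2)) * ((1 - cos w.1) -
        (1 / 1000000 - w.2 ^ 2) / (1 - cos w.1)), w.2] with hψ
  set W : Set E4 := {q | (q 3) ^ 2 < 1 / 1000000 ∧ 0 < sg * q 1 ∧
    0 < (1 - pA q) * cos α₀ + pS q * sin α₀ ∧
    -1 < pS q * cos α₀ - (1 - pA q) * sin α₀ ∧
    pS q * cos α₀ - (1 - pA q) * sin α₀ < 1} with hW
  set Λ : E4 → ℝ × ℝ := fun q =>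
    (α₀ + arcsin (pS q * cos α₀ - (1 - pA q) * sin α₀), q 3) with hΛ
  have hrho : ∀ q : E4, (q 3) ^ 2 < 1 / 1000000 → rho q ≠ 0 := by
    intro q hq
    unfold rho
    have : 0 < 1 / 1000000 - q 3 ^ 2 := by linarith
    positivity
  -- key: ψ as a value of emb
  have hemb : ∀ a b t : ℝ, t ^ 2 + (1 - cos a) * (1 - cos b) = 1 / 1000000 → 0 < sg * sin b →
      t ^ 2 < 1 / 1000000 → ∀ x : ℝ, sin x = sin a → cos x = cos a → ψ (x, t) = emb a b t := by
    intro a b t hab hsb ht x hx1 hx2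
    have hprod : 1 / 1000000 - t ^ 2 = (1 - cos a) * (1 - cos b) := by linarith
    have hpos : 0 < (1 - cos a) * (1 - cos b) := by linarith
    have hA : 1 - cos a ≠ 0 := fun h0 => by rw [h0, zero_mul] at hpos; exact lt_irrefl _ hpos
    have hB : (1 / 1000000 - t ^ 2) / (1 - cos a) = 1 - cos b := by
      rw [hprod]; field_simp
    rw [hψ]
    simp only [emb]
    rw [hx1, hx2, hB, hprod, sg_sqrt_8930 hsg hsb]
    congr 3
    ring_nf
  refine ⟨U, ψ, isPatch_of_inverse (W := W) (Λ := Λ) ?_ ?_ ?_ ?_ ?_ ?_, ?_⟩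
  · -- U open
    have o1 : IsOpen {w : ℝ × ℝ | |w.1 - α₀| < π / 2} := isOpen_lt (by fun_prop) (by fun_prop)
    have o2 : IsOpen {w : ℝ × ℝ | w.2 ^ 2 < 1 / 1000000} := isOpen_lt (by fun_prop) (by fun_prop)
    have o3 : IsOpen {w : ℝ × ℝ | 1 / 1000000 - w.2 ^ 2 < 2 * (1 - cos w.1)} :=
      isOpen_lt (by fun_prop) (by fun_prop)
    exact o1.inter (o2.inter o3)
  · -- W open
    rw [isOpen_iff_mem_nhds]
    intro q hq
    obtain ⟨q1, q2, q3, q4, q5⟩ := hq
    have hr := hrho q q1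
    have cS : ContinuousAt pS q := (pS_cont_8930 hr).continuousAt
    have cA : ContinuousAt pA q := (pA_cont_8930 hr).continuousAt
    have e1 : ∀ᶠ p : E4 in 𝓝 q, (p 3) ^ 2 < 1 / 1000000 :=
      ContinuousAt.eventually_lt (by fun_prop) (by fun_prop) q1
    have e2 : ∀ᶠ p : E4 in 𝓝 q, 0 < sg * p 1 :=
      ContinuousAt.eventually_lt (by fun_prop) (by fun_prop) q2
    have e3 : ∀ᶠ p : E4 in 𝓝 q, 0 < (1 - pA p) * cos α₀ + pS p * sin α₀ :=
      ContinuousAt.eventually_lt (by fun_prop) (by fun_prop) q3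
    have e4 : ∀ᶠ p : E4 in 𝓝 q, -1 < pS p * cos α₀ - (1 - pA p) * sin α₀ :=
      ContinuousAt.eventually_lt (by fun_prop) (by fun_prop) q4
    have e5 : ∀ᶠ p : E4 in 𝓝 q, pS p * cos α₀ - (1 - pA p) * sin α₀ < 1 :=
      ContinuousAt.eventually_lt (by fun_prop) (by fun_prop) q5
    filter_upwards [e1, e2, e3, e4, e5] with p p1 p2 p3 p4 p5
    exact ⟨p1, p2, p3, p4, p5⟩
  · -- ψ smooth
    have hne : ∀ w ∈ U, 1 - cos w.1 ≠ 0 := by
      rintro w ⟨_, w2, w3⟩ h0
      rw [h0] at w3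
      linarith
    have hBd : ContDiffOn ℝ ∞ (fun w : ℝ × ℝ => (1 / 1000000 - w.2 ^ 2) / (1 - cos w.1)) U := by
      refine ContDiffOn.div ?_ ?_ hne
      · exact ContDiff.contDiffOn (by fun_prop)
      · exact ContDiff.contDiffOn (by fun_prop)
    have hrh : ContDiffOn ℝ ∞ (fun w : ℝ × ℝ => 1 + 2 / 7 * (1 / 1000000 - w.2 ^ 2)) U :=
      ContDiff.contDiffOn (by fun_prop)
    rw [contDiffOn_euclidean]
    intro i
    fin_cases i
    · show ContDiffOn ℝ ∞ (fun w : ℝ × ℝ => (1 + 2 / 7 * (1 / 1000000 - w.2 ^ 2)) * sin w.1) U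
      exact ContDiff.contDiffOn (by fun_prop)
    · show ContDiffOn ℝ ∞ (fun w : ℝ × ℝ => (1 + 2 / 7 * (1 / 1000000 - w.2 ^ 2)) * (sg *
        √(2 * ((1 / 1000000 - w.2 ^ 2) / (1 - cos w.1)) -
          ((1 / 1000000 - w.2 ^ 2) / (1 - cos w.1)) ^ 2))) U
      refine hrh.mul (contDiffOn_const.mul ?_)
      refine ContDiffOn.sqrt ((contDiffOn_const.mul hBd).sub (hBd.pow 2)) ?_
      rintro w ⟨_, w2, w3⟩
      have hA : 0 < 1 - cos w.1 := by
        have : 0 < 1 / 1000000 - w.2 ^ 2 := by linarith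
        linarith
      have hB0 : 0 < (1 / 1000000 - w.2 ^ 2) / (1 - cos w.1) := div_pos (by linarith) hA
      have hB2 : (1 / 1000000 - w.2 ^ 2) / (1 - cos w.1) < 2 := by
        rw [div_lt_iff₀ hA]; exact w3
      set B := (1 / 1000000 - w.2 ^ 2) / (1 - cos w.1)
      have : 0 < B * (2 - B) := mul_pos hB0 (by linarith)
      have h' : 2 * B - B ^ 2 = B * (2 - B) := by ring
      rw [h']
      exact this.ne'
    · show ContDiffOn ℝ ∞ (fun w : ℝ × ℝ => (1 + 2 / 7 * (1 / 1000000 - w.2 ^ 2)) * ((1 - cos w.1) -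
        (1 / 1000000 - w.2 ^ 2) / (1 - cos w.1))) U
      refine hrh.mul (ContDiffOn.sub ?_ hBd)
      exact ContDiff.contDiffOn (by fun_prop)
    · show ContDiffOn ℝ ∞ (fun w : ℝ × ℝ => w.2) U
      exact ContDiff.contDiffOn (by fun_prop)
  · -- Λ differentiable
    rintro q ⟨q1, q2, q3, q4, q5⟩
    have hr := hrho q q1
    have cS := pS_cont_8930 hr
    have cA := pA_cont_8930 hr
    have h3 : DifferentiableAt ℝ (fun q : E4 => q 3) q := by fun_prop
    have hin : DifferentiableAt ℝ (fun q : E4 => pS q * cos α₀ - (1 - pA q) * sin α₀) q := by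
      fun_prop
    have harc : DifferentiableAt ℝ arcsin (pS q * cos α₀ - (1 - pA q) * sin α₀) := by
      rw [Real.differentiableAt_arcsin]
      exact ⟨q4.ne', q5.ne⟩
    have hcomp : DifferentiableAt ℝ
        (fun q : E4 => arcsin (pS q * cos α₀ - (1 - pA q) * sin α₀)) q :=
      DifferentiableAt.comp (g := arcsin)
        (f := fun q : E4 => pS q * cos α₀ - (1 - pA q) * sin α₀) q harc hin
    exact (hcomp.const_add α₀).prodMk h3
  · -- h1
    rintro ⟨x, t⟩ ⟨w1, w2, w3⟩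
    simp only at w1 w2 w3
    have hpos : 0 < 1 / 1000000 - t ^ 2 := by linarith
    have hA : 0 < 1 - cos x := by linarith
    set B := (1 / 1000000 - t ^ 2) / (1 - cos x) with hB
    have hB0 : 0 < B := div_pos hpos hA
    have hB2 : B < 2 := by rw [hB, div_lt_iff₀ hA]; exact w3
    set y := sg * arccos (1 - B) with hy
    have hcy : cos y = 1 - B := by
      have h1 : cos (arccos (1 - B)) = 1 - B := cos_arccos (by linarith) (by linarith)
      rcases hsgcase with h' | h'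
      · rw [hy, h', one_mul, h1]
      · rw [hy, h', neg_one_mul, cos_neg, h1]
    have hsy : sg * sin y = √(1 - (1 - B) ^ 2) := by
      have h1 : sin (arccos (1 - B)) = √(1 - (1 - B) ^ 2) := sin_arccos _
      rcases hsgcase with h' | h'
      · rw [hy, h', one_mul, one_mul, h1]
      · rw [hy, h', neg_one_mul, neg_one_mul, sin_neg, neg_neg, h1]
    have hsy0 : 0 < sg * sin y := by
      rw [hsy]
      apply sqrt_pos.2
      nlinarith
    have hAB : (1 - cos x) * (1 - cos y) = 1 / 1000000 - t ^ 2 := by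
      rw [hcy, hB]; field_simp; ring
    have hxy : t ^ 2 + (1 - cos x) * (1 - cos y) = 1 / 1000000 := by linarith
    have hE : ψ (x, t) = emb x y t := hemb x y t hxy hsy0 w2 x rfl rfl
    obtain ⟨c1, c2, c3, c4, c5, c6⟩ := coords hxy
    have hcospos : 0 < cos x * cos α₀ + sin x * sin α₀ := by
      rw [← cos_sub]
      have := abs_lt.1 w1
      exact cos_pos_of_mem_Ioo ⟨by linarith [this.1], this.2⟩
    obtain ⟨l1, l2, l3, l4⟩ := lift_angle hcospos
    refine ⟨⟨x, y, t, hxy, hE⟩, ?_, ?_⟩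
    · rw [hE]
      refine ⟨by rw [emb_3]; exact w2, ?_, ?_, ?_, ?_⟩
      · rw [emb_1]
        have : 0 < 1 + 2 / 7 * ((1 - cos x) * (1 - cos y)) := by
          rw [hAB]; positivity
        have e : sg * ((1 + 2 / 7 * ((1 - cos x) * (1 - cos y))) * sin y) =
          (1 + 2 / 7 * ((1 - cos x) * (1 - cos y))) * (sg * sin y) := by ring
        rw [e]
        exact mul_pos this hsy0
      · rw [c5, c2]; simpa using hcospos
      · rw [c5, c2]; simpa using l3
      · rw [c5, c2]; simpa using l4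
    · rw [hE]
      simp only [hΛ]
      rw [c5, c2, emb_3]
      refine Prod.ext ?_ rfl
      simp only [sub_sub_cancel]
      have := abs_lt.1 w1
      rw [← sin_sub, arcsin_sin (by linarith [this.1]) this.2.le]
      ring
  · -- h2
    rintro q ⟨a, b, t, hab, rfl⟩ ⟨q1, q2, q3, q4, q5⟩
    obtain ⟨c1, c2, c3, c4, c5, c6⟩ := coords hab
    rw [emb_3] at q1
    rw [c5, c2] at q3 q4 q5
    simp only [sub_sub_cancel] at q3 q4 q5
    have hAB : 0 < (1 - cos a) * (1 - cos b) := by linarith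
    have hrp : 0 < 1 + 2 / 7 * ((1 - cos a) * (1 - cos b)) := by positivity
    have hsb : 0 < sg * sin b := by
      rw [emb_1] at q2
      have e : sg * ((1 + 2 / 7 * ((1 - cos a) * (1 - cos b))) * sin b) =
          (1 + 2 / 7 * ((1 - cos a) * (1 - cos b))) * (sg * sin b) := by ring
      rw [e] at q2
      exact (pos_iff_pos_of_mul_pos q2).1 hrp
    have hsb0 : sin b ≠ 0 := fun h0 => by rw [h0, mul_zero] at hsb; exact lt_irrefl _ hsb
    have hA0 : 0 ≤ 1 - cos a := by linarith [cos_le_one a]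
    have hA : 0 < 1 - cos a := lt_of_le_of_ne hA0 (fun h0 => by
      rw [← h0, zero_mul] at hAB; exact lt_irrefl _ hAB)
    have hcb : -1 < cos b := by
      have h1 := sin_sq_add_cos_sq b
      have h2 : 0 < sin b ^ 2 := by positivity
      nlinarith [neg_one_le_cos b, cos_le_one b]
    obtain ⟨l1, l2, l3, l4⟩ := lift_angle q3
    have hL : Λ (emb a b t) = (α₀ + arcsin (sin a * cos α₀ - cos a * sin α₀), t) := by
      simp only [hΛ]
      rw [c5, c2, emb_3]
      simp only [sub_sub_cancel]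
    rw [hL]
    refine ⟨⟨?_, q1, ?_⟩, ?_⟩
    · simp only [add_sub_cancel_left]
      rw [abs_lt]
      constructor
      · have := neg_pi_div_two_lt_arcsin.2 l3
        linarith
      · exact arcsin_lt_pi_div_two.2 l4
    · simp only
      rw [l2]
      have : 1 / 1000000 - t ^ 2 = (1 - cos a) * (1 - cos b) := by linarith
      rw [this]
      nlinarith
    · exact hemb a b t hab hsb q1 _ l1 l2
  · -- base point
    have hAB : 0 < (1 - cos α₀) * (1 - cos β₀) := by norm_num at h; linarith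
    have hA0 : 0 ≤ 1 - cos α₀ := by linarith [cos_le_one α₀]
    have hA : 0 < 1 - cos α₀ := lt_of_le_of_ne hA0 (fun h0 => by
      rw [← h0, zero_mul] at hAB; exact lt_irrefl _ hAB)
    have hcb : -1 < cos β₀ := by
      have h1 := sin_sq_add_cos_sq β₀
      have h2 : 0 < sin β₀ ^ 2 := by positivity
      nlinarith [neg_one_le_cos β₀, cos_le_one β₀]
    refine ⟨(α₀, 0), ⟨?_, ?_, ?_⟩, ?_⟩
    · simp only [sub_self, abs_zero]
      positivity
    · norm_num
    · simp only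
      have : (1:ℝ) / 1000000 - 0 ^ 2 = (1 - cos α₀) * (1 - cos β₀) := by linarith
      rw [this]
      nlinarith
    · exact hemb α₀ β₀ 0 h hsgs (by norm_num) α₀ rfl rfl

end ChernG2
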