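import Pool.Agent.Helper427.Chern.Defs
import Pool.Agent.Helper427.Chern.Coords

open scoped ContDiff RealInnerProductSpace Topology
open Real

namespace ChernG2

theorem contDiff_coord (i : Fin 4) : ContDiff ℝ ∞ (fun q : E4 => q i) :=
  (EuclideanSpace.proj i : E4 →L[ℝ] ℝ).contDiff

theorem contDiff_rho : ContDiff ℝ ∞ rho := by
  have : ContDiff ℝ ∞ (fun q : E4 => 1 + 2/7 * (1 / 1000000 - q 3 ^ 2)) :=
    contDiff_const.add (contDiff_const.mul (contDiff_const.sub ((contDiff_coord 3).pow 2)))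
  exact this

theorem contDiffAt_pp {q : E4} (h : 0 < rho q) :
    ContDiffAt ℝ ∞ pS q ∧ ContDiffAt ℝ ∞ pR q ∧ ContDiffAt ℝ ∞ pA q ∧ ContDiffAt ℝ ∞ pB q := by
  have hr : ContDiffAt ℝ ∞ rho q := contDiff_rho.contDiffAt
  have hS : ContDiffAt ℝ ∞ pS q := ((contDiff_coord 0).contDiffAt).div hr h.ne'
  have hR : ContDiffAt ℝ ∞ pR q := ((contDiff_coord 1).contDiffAt).div hr h.ne'
  have hZ : ContDiffAt ℝ ∞ pZ q := ((contDiff_coord 2).contDiffAt).div hr h.ne'
  have h3 : ContDiffAt ℝ ∞ (fun q : E4 => q 3) q := (contDiff_coord 3).contDiffAt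
  have hsum : ContDiffAt ℝ ∞ (fun q => (pS q ^ 2 + pR q ^ 2 + pZ q ^ 2) / 2 +
      (1 / 1000000 - q 3 ^ 2)) q :=
    ((((hS.pow 2).add (hR.pow 2)).add (hZ.pow 2)).div_const 2).add
      (contDiffAt_const.sub (h3.pow 2))
  exact ⟨hS, hR, (hsum.add hZ).div_const 2, (hsum.sub hZ).div_const 2⟩

set_option maxHeartbeats 1000000 in
theorem chart_c (α₀ β₀ τ₀ : ℝ) (h : τ₀ ^ 2 + (1 - cos α₀) * (1 - cos β₀) = 1 / 1000000)
    (hτ : τ₀ = 0) (hs : sin α₀ ≠ 0) :
    ∃ (U : Set (ℝ × ℝ)) (ψ : ℝ × ℝ → E4), IsPatch MM U ψ ∧ emb α₀ β₀ τ₀ ∈ ψ '' U := by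
  obtain ⟨sg, hsg2, hsgs⟩ : ∃ sg : ℝ, sg * sg = 1 ∧ 0 < sg * sin α₀ := by
    rcases lt_or_gt_of_ne hs with h1 | h1
    · exact ⟨-1, by norm_num, by linarith⟩
    · exact ⟨1, by norm_num, by linarith⟩
  subst hτ
  -- the coordinate `A`
  let AA : ℝ × ℝ → ℝ := fun w => (1 / 1000000 - w.2 ^ 2) / (1 - cos w.1)
  let rh : ℝ × ℝ → ℝ := fun w => 1 + 2/7 * (1 / 1000000 - w.2 ^ 2)
  let U : Set (ℝ × ℝ) := {w | |w.1 - β₀| < π / 2 ∧ w.2 ^ 2 < 1 / 1000000 ∧
    1 / 1000000 - w.2 ^ 2 < 2 * (1 - cos w.1)}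
  let ψ : ℝ × ℝ → E4 := fun w => !₂[rh w * (sg * sqrt (2 * AA w - AA w ^ 2)), rh w * sin w.1,
    rh w * (AA w - (1 - cos w.1)), w.2]
  let W : Set E4 := {q | 0 < rho q} ∩ {q | q 3 ^ 2 < 1 / 1000000 ∧ 0 < sg * q 0 ∧
    0 < (1 - pB q) * cos β₀ + pR q * sin β₀ ∧ |pR q * cos β₀ - (1 - pB q) * sin β₀| < 1}
  let Λ : E4 → ℝ × ℝ := fun q => (β₀ + arcsin (pR q * cos β₀ - (1 - pB q) * sin β₀), q 3)
  -- facts on U
  have hUpos : ∀ w ∈ U, 0 < 1 - cos w.1 ∧ 0 < AA w ∧ AA w < 2 := by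
    rintro w ⟨-, h2, h3⟩
    have h4 : 0 < 1 - cos w.1 := by linarith
    refine ⟨h4, div_pos (by linarith) h4, ?_⟩
    rw [div_lt_iff₀ h4]
    exact h3
  have hUopen : IsOpen U := by
    have c1 : Continuous (fun w : ℝ × ℝ => |w.1 - β₀|) := by fun_prop
    have c2 : Continuous (fun w : ℝ × ℝ => w.2 ^ 2) := by fun_prop
    have c3 : Continuous (fun w : ℝ × ℝ => 1 / 1000000 - w.2 ^ 2) := by fun_prop
    have c4 : Continuous (fun w : ℝ × ℝ => 2 * (1 - cos w.1)) := by fun_prop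
    exact (isOpen_lt c1 continuous_const).inter ((isOpen_lt c2 continuous_const).inter
      (isOpen_lt c3 c4))
  have hkey : ∀ w ∈ U, ∃ y : ℝ, cos y = 1 - AA w ∧ sin y = sg * sqrt (2 * AA w - AA w ^ 2) := by
    intro w hw
    obtain ⟨h1, h2, h3⟩ := hUpos w hw
    have hs1 : sg = 1 ∨ sg = -1 := by
      have : (sg - 1) * (sg + 1) = 0 := by linarith
      rcases mul_eq_zero.1 this with h | h
      · left; linarith
      · right; linarith
    have hc : cos (arccos (1 - AA w)) = 1 - AA w := cos_arccos (by linarith) (by linarith)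
    have hsn : sin (arccos (1 - AA w)) = sqrt (2 * AA w - AA w ^ 2) := by
      rw [sin_arccos]; congr 1; ring
    rcases hs1 with rfl | rfl
    · exact ⟨arccos (1 - AA w), hc, by rw [hsn, one_mul]⟩
    · exact ⟨-arccos (1 - AA w), by rw [cos_neg, hc], by rw [sin_neg, hsn]; ring⟩
  have hemb : ∀ w ∈ U, ∃ y : ℝ, ψ w = emb y w.1 w.2 ∧
      w.2 ^ 2 + (1 - cos y) * (1 - cos w.1) = 1 / 1000000 := by
    intro w hw
    obtain ⟨h1, h2, h3⟩ := hUpos w hw
    obtain ⟨y, hy1, hy2⟩ := hkey w hw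
    have hA : AA w * (1 - cos w.1) = 1 / 1000000 - w.2 ^ 2 := div_mul_cancel₀ _ h1.ne'
    have hcy : (1 - cos y) * (1 - cos w.1) = 1 / 1000000 - w.2 ^ 2 := by
      rw [hy1, ← hA]; ring
    refine ⟨y, ?_, by rw [hcy]; ring⟩
    simp only [ψ, emb, hcy, rh]
    rw [hy1, hy2]
    congr 4
    congr 1
    ring
  have h2all : ∀ q ∈ MM, q ∈ W → Λ q ∈ U ∧ ψ (Λ q) = q := by
    rintro q ⟨a, b, t, hq, rfl⟩ ⟨b0, b1, b2, b3, b4⟩
    obtain ⟨k1, k2, k3, k4, k5, k6⟩ := coords hq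
    have hA0 : 0 ≤ 1 - cos a := by linarith [cos_le_one a]
    have hB0 : 0 ≤ 1 - cos b := by linarith [cos_le_one b]
    rw [emb_3] at b1
    have hAB : 0 < (1 - cos a) * (1 - cos b) := by linarith
    have hA : 0 < 1 - cos a := by
      rcases hA0.lt_or_eq with h1 | h1
      · exact h1
      · rw [← h1] at hAB; simp at hAB
    have hB : 0 < 1 - cos b := by
      rcases hB0.lt_or_eq with h1 | h1
      · exact h1
      · rw [← h1] at hAB; simp at hAB
    rw [emb_0] at b2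
    have hrpos : 0 < 1 + 2 / 7 * ((1 - cos a) * (1 - cos b)) := by positivity
    have hsa : 0 < sg * sin a := by
      have : sg * ((1 + 2 / 7 * ((1 - cos a) * (1 - cos b))) * sin a) =
          (1 + 2 / 7 * ((1 - cos a) * (1 - cos b))) * (sg * sin a) := by ring
      rw [this] at b2
      exact (mul_pos_iff_of_pos_left hrpos).1 b2
    have hsq := sin_sq_add_cos_sq a
    have hsa2 : 0 < sin a ^ 2 := by
      have : (sg * sin a) ^ 2 = sin a ^ 2 := by
        rw [mul_pow, pow_two sg, hsg2, one_mul]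
      rw [← this]; positivity
    have hA2 : 1 - cos a < 2 := by nlinarith
    have hsqrt : sqrt (2 * (1 - cos a) - (1 - cos a) ^ 2) = sg * sin a := by
      have e : 2 * (1 - cos a) - (1 - cos a) ^ 2 = (sg * sin a) ^ 2 := by
        rw [mul_pow, pow_two sg, hsg2, one_mul]; nlinarith
      rw [e, sqrt_sq hsa.le]
    rw [k6, k3] at b3 b4
    have b3' : 0 < cos b * cos β₀ + sin b * sin β₀ := by
      have : (1 - (1 - cos b)) * cos β₀ + sin b * sin β₀ = cos b * cos β₀ + sin b * sin β₀ := by ring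
      rwa [this] at b3
    obtain ⟨l1, l2, l3, l4⟩ := lift_angle b3'
    have hΛ : Λ (emb a b t) = (β₀ + arcsin (sin b * cos β₀ - cos b * sin β₀), t) := by
      simp only [Λ]
      rw [k6, k3, emb_3]
      congr 3
      ring
    rw [hΛ]
    have hx2 : |β₀ + arcsin (sin b * cos β₀ - cos b * sin β₀) - β₀| < π / 2 := by
      rw [add_sub_cancel_left, abs_lt]
      exact ⟨neg_pi_div_two_lt_arcsin.2 l3, arcsin_lt_pi_div_two.2 l4⟩
    have heps : 1 / 1000000 - t ^ 2 = (1 - cos a) * (1 - cos b) := by linarith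
    refine ⟨⟨hx2, b1, ?_⟩, ?_⟩
    · simp only [l2]
      rw [heps]
      exact mul_lt_mul_of_pos_right hA2 hB
    · have hAAv : AA (β₀ + arcsin (sin b * cos β₀ - cos b * sin β₀), t) = 1 - cos a := by
        simp only [AA, l2]
        rw [heps, mul_div_cancel_right₀ _ hB.ne']
      have hrhv : rh (β₀ + arcsin (sin b * cos β₀ - cos b * sin β₀), t) =
          1 + 2 / 7 * ((1 - cos a) * (1 - cos b)) := by
        simp only [rh, heps]
      simp only [ψ, emb, hAAv, hrhv, l1, l2]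
      rw [hsqrt]
      have e1 : sg * (sg * sin a) = sin a := by rw [← mul_assoc, hsg2, one_mul]
      rw [e1]
      congr 4
      congr 1
      ring
  refine ⟨U, ψ, isPatch_of_inverse (W := W) (Λ := Λ) hUopen ?_ ?_ ?_ ?_ ?_, ?_⟩
  · -- W open
    have hW0 : IsOpen {q : E4 | 0 < rho q} := isOpen_lt continuous_const contDiff_rho.continuous
    have cR : ContinuousOn pR {q : E4 | 0 < rho q} := fun q hq =>
      (contDiffAt_pp hq).2.1.continuousAt.continuousWithinAt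
    have cB : ContinuousOn pB {q : E4 | 0 < rho q} := fun q hq =>
      (contDiffAt_pp hq).2.2.2.continuousAt.continuousWithinAt
    have c3 : ContinuousOn (fun q : E4 => q 3 ^ 2) {q : E4 | 0 < rho q} :=
      ((contDiff_coord 3).continuous.pow 2).continuousOn
    have c0 : ContinuousOn (fun q : E4 => sg * q 0) {q : E4 | 0 < rho q} :=
      (continuous_const.mul (contDiff_coord 0).continuous).continuousOn
    have c1 : ContinuousOn (fun q : E4 => (1 - pB q) * cos β₀ + pR q * sin β₀)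
        {q : E4 | 0 < rho q} :=
      ((continuousOn_const.sub cB).mul continuousOn_const).add (cR.mul continuousOn_const)
    have c2 : ContinuousOn (fun q : E4 => |pR q * cos β₀ - (1 - pB q) * sin β₀|)
        {q : E4 | 0 < rho q} :=
      ((cR.mul continuousOn_const).sub ((continuousOn_const.sub cB).mul continuousOn_const)).abs
    have o1 := c3.isOpen_inter_preimage hW0 (isOpen_Iio (a := (1 / 1000000 : ℝ)))
    have o2 := c0.isOpen_inter_preimage hW0 (isOpen_Ioi (a := (0 : ℝ)))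
    have o3 := c1.isOpen_inter_preimage hW0 (isOpen_Ioi (a := (0 : ℝ)))
    have o4 := c2.isOpen_inter_preimage hW0 (isOpen_Iio (a := (1 : ℝ)))
    have heq : W = ({q : E4 | 0 < rho q} ∩ (fun q : E4 => q 3 ^ 2) ⁻¹' Set.Iio (1 / 1000000)) ∩
        (({q : E4 | 0 < rho q} ∩ (fun q : E4 => sg * q 0) ⁻¹' Set.Ioi 0) ∩
        (({q : E4 | 0 < rho q} ∩ (fun q : E4 => (1 - pB q) * cos β₀ + pR q * sin β₀) ⁻¹' Set.Ioi 0) ∩
        ({q : E4 | 0 < rho q} ∩ (fun q : E4 => |pR q * cos β₀ - (1 - pB q) * sin β₀|) ⁻¹' Set.Iio 1))) := by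
      ext q
      constructor
      · rintro ⟨a0, a1, a2, a3, a4⟩
        exact ⟨⟨a0, a1⟩, ⟨a0, a2⟩, ⟨a0, a3⟩, ⟨a0, a4⟩⟩
      · rintro ⟨⟨a0, a1⟩, ⟨_, a2⟩, ⟨_, a3⟩, ⟨_, a4⟩⟩
        exact ⟨a0, a1, a2, a3, a4⟩
    rw [heq]
    exact o1.inter (o2.inter (o3.inter o4))
  · -- smoothness of psi
    have d1 : ContDiffOn ℝ ∞ (fun w : ℝ × ℝ => 1 - cos w.1) U :=
      (contDiff_const.sub (contDiff_cos.comp contDiff_fst)).contDiffOn
    have d2 : ContDiffOn ℝ ∞ (fun w : ℝ × ℝ => 1 / 1000000 - w.2 ^ 2) U :=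
      (contDiff_const.sub (contDiff_snd.pow 2)).contDiffOn
    have dA : ContDiffOn ℝ ∞ AA U := d2.div d1 (fun w hw => (hUpos w hw).1.ne')
    have drh : ContDiffOn ℝ ∞ rh U := contDiffOn_const.add (contDiffOn_const.mul d2)
    have dsq : ContDiffOn ℝ ∞ (fun w => sqrt (2 * AA w - AA w ^ 2)) U := by
      refine ((contDiffOn_const.mul dA).sub (dA.pow 2)).sqrt (fun w hw => ?_)
      obtain ⟨h1, h2, h3⟩ := hUpos w hw
      have : 0 < AA w * (2 - AA w) := mul_pos h2 (by linarith)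
      have h4 : 2 * AA w - AA w ^ 2 = AA w * (2 - AA w) := by ring
      rw [h4]; exact this.ne'
    have dsin : ContDiffOn ℝ ∞ (fun w : ℝ × ℝ => sin w.1) U :=
      (contDiff_sin.comp contDiff_fst).contDiffOn
    rw [contDiffOn_euclidean]
    intro i
    fin_cases i
    · exact drh.mul (contDiffOn_const.mul dsq)
    · exact drh.mul dsin
    · exact drh.mul (dA.sub d1)
    · exact contDiff_snd.contDiffOn
  · -- differentiability of Lambda
    rintro q ⟨a0, a1, a2, a3, a4⟩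
    have hp := contDiffAt_pp a0
    have hR : DifferentiableAt ℝ pR q := hp.2.1.differentiableAt (by simp)
    have hB : DifferentiableAt ℝ pB q := hp.2.2.2.differentiableAt (by simp)
    have h3 : DifferentiableAt ℝ (fun q : E4 => q 3) q :=
      ((contDiff_coord 3).contDiffAt).differentiableAt (by simp)
    have harg : DifferentiableAt ℝ (fun q : E4 => pR q * cos β₀ - (1 - pB q) * sin β₀) q :=
      (hR.mul_const _).sub ((hB.const_sub 1).mul_const _)
    obtain ⟨g1, g2⟩ := abs_lt.1 a4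
    have harc : DifferentiableAt ℝ arcsin (pR q * cos β₀ - (1 - pB q) * sin β₀) :=
      differentiableAt_arcsin.2 ⟨g1.ne', g2.ne⟩
    have hcomp : DifferentiableAt ℝ (fun q : E4 => arcsin (pR q * cos β₀ - (1 - pB q) * sin β₀)) q :=
      DifferentiableAt.comp (g := arcsin)
        (f := fun q : E4 => pR q * cos β₀ - (1 - pB q) * sin β₀) q harc harg
    exact (hcomp.const_add β₀).prodMk h3
  · -- h1
    intro w hw
    obtain ⟨h1, h2, h3⟩ := hUpos w hw
    obtain ⟨y, hy1, hy2⟩ := hemb w hw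
    obtain ⟨hd, ht, _⟩ := hw
    obtain ⟨k1, k2, k3, k4, k5, k6⟩ := coords hy2
    rw [← hy1] at k1 k2 k3 k4 k5 k6
    obtain ⟨hd1, hd2⟩ := abs_lt.1 hd
    have hcos : 0 < cos (w.1 - β₀) := cos_pos_of_mem_Ioo ⟨by linarith, hd2⟩
    have hq3 : ψ w 3 = w.2 := by simp [ψ]
    have hq0 : ψ w 0 = rh w * (sg * sqrt (2 * AA w - AA w ^ 2)) := by simp [ψ]
    have hc1 : (1 - pB (ψ w)) * cos β₀ + pR (ψ w) * sin β₀ = cos (w.1 - β₀) := by
      rw [k6, k3, cos_sub]; ring
    have hc2 : pR (ψ w) * cos β₀ - (1 - pB (ψ w)) * sin β₀ = sin (w.1 - β₀) := by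
      rw [k6, k3, sin_sub]; ring
    refine ⟨⟨y, w.1, w.2, hy2, hy1⟩, ⟨?_, ?_, ?_, ?_, ?_⟩, ?_⟩
    · exact lt_of_lt_of_le one_pos k1
    · rw [hq3]; exact ht
    · rw [hq0]
      have e : sg * (rh w * (sg * sqrt (2 * AA w - AA w ^ 2))) =
          rh w * sqrt (2 * AA w - AA w ^ 2) * (sg * sg) := by ring
      rw [e, hsg2, mul_one]
      have h5 : 0 < AA w * (2 - AA w) := mul_pos h2 (by linarith)
      have h4 : 2 * AA w - AA w ^ 2 = AA w * (2 - AA w) := by ring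
      have h6 : 0 < rh w := by
        have : 0 < 1 / 1000000 - w.2 ^ 2 := by linarith
        simp only [rh]; positivity
      rw [h4]
      exact mul_pos h6 (sqrt_pos.2 h5)
    · rw [hc1]; exact hcos
    · rw [hc2]
      have hsq := sin_sq_add_cos_sq (w.1 - β₀)
      have hc3 : 0 < cos (w.1 - β₀) ^ 2 := by positivity
      rw [abs_lt]
      constructor <;> nlinarith
    · simp only [Λ]
      rw [hc2, hq3, arcsin_sin (by linarith) hd2.le]
      ext
      · simp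
      · simp
  · exact h2all
  · -- membership
    have hW0 : emb α₀ β₀ 0 ∈ W := by
      obtain ⟨k1, k2, k3, k4, k5, k6⟩ := coords h
      have hA0 : 0 ≤ 1 - cos α₀ := by linarith [cos_le_one α₀]
      have hB0 : 0 ≤ 1 - cos β₀ := by linarith [cos_le_one β₀]
      have hrpos : 0 < 1 + 2 / 7 * ((1 - cos α₀) * (1 - cos β₀)) := by positivity
      refine ⟨lt_of_lt_of_le one_pos k1, ?_, ?_, ?_, ?_⟩
      · rw [emb_3]; norm_num
      · rw [emb_0]
        have e : sg * ((1 + 2 / 7 * ((1 - cos α₀) * (1 - cos β₀))) * sin α₀) =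
          (1 + 2 / 7 * ((1 - cos α₀) * (1 - cos β₀))) * (sg * sin α₀) := by ring
        rw [e]
        exact mul_pos hrpos hsgs
      · rw [k6, k3]
        have := sin_sq_add_cos_sq β₀
        nlinarith
      · rw [k6, k3]
        have e : sin β₀ * cos β₀ - (1 - (1 - cos β₀)) * sin β₀ = 0 := by ring
        rw [e, abs_zero]
        exact one_pos
    obtain ⟨m1, m2⟩ := h2all _ ⟨α₀, β₀, 0, h, rfl⟩ hW0
    exact ⟨_, m1, m2⟩

end ChernG2
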