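import Pool.Agent.Helper427.Chern.Homeo

open scoped ContDiff RealInnerProductSpace Topology
open Real


open scoped ContDiff RealInnerProductSpace Topology
open Real

namespace ChernG2


lemma height_exp (a b : ℝ) : height (Circle.exp a, Circle.exp b) = (1 - cos a) * (1 - cos b) := by
  unfold height
  rw [Circle.coe_exp, Circle.coe_exp, Complex.exp_ofReal_mul_I_re, Complex.exp_ofReal_mul_I_re]

lemma cos_shrink (a s : ℝ) (ha : |a| ≤ π) (h0 : 0 ≤ s) (h1 : s ≤ 1) : cos a ≤ cos ((1 - s) * a) := by
  rw [← Real.cos_abs a, ← Real.cos_abs ((1 - s) * a)]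
  apply Real.cos_le_cos_of_nonneg_of_le_pi (abs_nonneg _) ha
  rw [abs_mul, abs_of_nonneg (by linarith : (0:ℝ) ≤ 1 - s)]
  nlinarith [abs_nonneg a]

lemma join_base (sg a b : ℝ) (hsg : sg ^ 2 = 1) (ha : |a| ≤ π) (hb : |b| ≤ π)
    (hh : height (Circle.exp a, Circle.exp b) ≤ 1 / 1000000) :
    JoinedIn Sigma2 ((Circle.exp a, Circle.exp b), sg * √(1 / 1000000 - height (Circle.exp a, Circle.exp b)))
      ((1, 1), sg * √(1 / 1000000)) := by
  set f : ℝ → (Circle × Circle) × ℝ := fun s =>
    ((Circle.exp ((1 - s) * a), Circle.exp ((1 - s) * b)),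
      sg * √(1 / 1000000 - height (Circle.exp ((1 - s) * a), Circle.exp ((1 - s) * b)))) with hf
  refine JoinedIn.ofLine (f := f) ?_ ?_ ?_ ?_
  · apply Continuous.continuousOn
    rw [hf]
    simp_rw [height_exp]
    have h1 : Continuous fun s : ℝ => Circle.exp ((1 - s) * a) := Circle.exp.continuous.comp (by fun_prop)
    have h2 : Continuous fun s : ℝ => Circle.exp ((1 - s) * b) := Circle.exp.continuous.comp (by fun_prop)
    have h3 : Continuous fun s : ℝ => sg * √(1 / 1000000 - (1 - cos ((1 - s) * a)) * (1 - cos ((1 - s) * b))) := by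
      fun_prop
    exact (h1.prodMk h2).prodMk h3
  · rw [hf]; simp
  · rw [hf]
    simp [height_exp]
    simp [height]
  · rintro _ ⟨s, hs, rfl⟩
    have h1 := cos_shrink a s ha hs.1 hs.2
    have h2 := cos_shrink b s hb hs.1 hs.2
    have h3 := Real.cos_le_one ((1 - s) * a)
    have h4 := Real.cos_le_one ((1 - s) * b)
    rw [height_exp] at hh
    have h5 : (1 - cos ((1 - s) * a)) * (1 - cos ((1 - s) * b)) ≤ (1 - cos a) * (1 - cos b) :=
      mul_le_mul (by linarith) (by linarith) (by linarith) (by linarith)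
    show (sg * √(1 / 1000000 - height (Circle.exp ((1 - s) * a), Circle.exp ((1 - s) * b)))) ^ 2
      = 1 / 1000000 - height (Circle.exp ((1 - s) * a), Circle.exp ((1 - s) * b))
    rw [mul_pow, hsg, one_mul, Real.sq_sqrt]
    rw [height_exp]
    linarith

lemma join_point (x : (Circle × Circle) × ℝ) (hx : x ∈ Sigma2) :
    JoinedIn Sigma2 x ((1, 1), √(1 / 1000000)) ∨ JoinedIn Sigma2 x ((1, 1), -√(1 / 1000000)) := by
  obtain ⟨⟨a, b⟩, t⟩ := x
  have hx' : t ^ 2 = 1 / 1000000 - height (a, b) := hx
  have ea : Circle.exp (Complex.arg (a : ℂ)) = a := Circle.exp_arg a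
  have eb : Circle.exp (Complex.arg (b : ℂ)) = b := Circle.exp_arg b
  have hh : height (a, b) ≤ 1 / 1000000 := by nlinarith [sq_nonneg t]
  rcases le_total 0 t with ht | ht
  · left
    have h := join_base 1 (Complex.arg (a : ℂ)) (Complex.arg (b : ℂ)) (by norm_num) (Complex.abs_arg_le_pi _)
      (Complex.abs_arg_le_pi _) (by rw [ea, eb]; exact hh)
    rw [ea, eb, ← hx', Real.sqrt_sq ht] at h
    simpa using h
  · right
    have h := join_base (-1) (Complex.arg (a : ℂ)) (Complex.arg (b : ℂ)) (by norm_num) (Complex.abs_arg_le_pi _)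
      (Complex.abs_arg_le_pi _) (by rw [ea, eb]; exact hh)
    rw [ea, eb, ← hx', Real.sqrt_sq_eq_abs, abs_of_nonpos ht] at h
    simpa using h

lemma join_two : JoinedIn Sigma2 ((1, 1), √(1 / 1000000)) ((1, 1), -√(1 / 1000000)) := by
  have hg0 : 0 ≤ arccos (999 / 1000) := arccos_nonneg _
  have hgpi : arccos (999 / 1000) ≤ π := arccos_le_pi _
  have hc : cos (arccos (999 / 1000)) = 999 / 1000 := cos_arccos (by norm_num) (by norm_num)
  have habs : |arccos (999 / 1000)| ≤ π := by rw [abs_of_nonneg hg0]; exact hgpi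
  have hH : height (Circle.exp (arccos (999 / 1000)), Circle.exp (arccos (999 / 1000))) = 1 / 1000000 := by
    rw [height_exp, hc]; norm_num
  have h1 := join_base 1 _ _ (by norm_num) habs habs hH.le
  have h2 := join_base (-1) _ _ (by norm_num) habs habs hH.le
  rw [hH, sub_self, Real.sqrt_zero, mul_zero] at h1 h2
  have h3 := h1.symm.trans h2
  simpa using h3

theorem isConnected_Sigma2 : IsConnected Sigma2 := by
  apply IsPathConnected.isConnected
  refine ⟨((1, 1), √(1 / 1000000)), ?_, ?_⟩
  · exact join_two.source_mem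
  · intro y hy
    rcases join_point y hy with h | h
    · exact h.symm
    · exact join_two.trans h.symm

end ChernG2

namespace ChernG2

theorem isConnected_MM : IsConnected MM := by
  obtain ⟨e⟩ := homeo_MM
  have h1 : ConnectedSpace Sigma2 := isConnected_iff_connectedSpace.1 isConnected_Sigma2
  have h2 : ConnectedSpace MM := e.symm.surjective.connectedSpace e.symm.continuous
  exact isConnected_iff_connectedSpace.2 h2

end ChernG2
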