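import Pool.Agent.Helper427.Chern.Surf

open scoped ContDiff RealInnerProductSpace
open Real

namespace ChernG2

/-- `height (a, b) = (1 - Re a) (1 - Re b)`, a function on the torus. -/
noncomputable def height (x : Circle × Circle) : ℝ :=
  (1 - (x.1 : ℂ).re) * (1 - (x.2 : ℂ).re)

/-- The closed orientable surface of genus two, as the double of the one-holed torus
`{x ∈ T² : height x ≤ 10⁻⁶}`. -/
def Sigma2 : Set ((Circle × Circle) × ℝ) :=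
  {x | x.2 ^ 2 = 1 / 1000000 - height x.1}

/-- the explicit map -/
noncomputable def emb (α β τ : ℝ) : E4 :=
  !₂[(1 + 2 / 7 * ((1 - cos α) * (1 - cos β))) * sin α,
     (1 + 2 / 7 * ((1 - cos α) * (1 - cos β))) * sin β,
     (1 + 2 / 7 * ((1 - cos α) * (1 - cos β))) * (cos β - cos α), τ]

/-- the surface -/
def MM : Set E4 :=
  {q | ∃ α β τ : ℝ, τ ^ 2 + (1 - cos α) * (1 - cos β) = 1 / 1000000 ∧ q = emb α β τ}

/-! polynomials, `c = 2/7` -/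

noncomputable def nn (A B : ℝ) : ℝ := 1 - B + 2/7 * B^2 + 8/7 * A * B - 6/7 * A * B^2
noncomputable def n3 (A B : ℝ) : ℝ :=
  (1 - A) * (1 - B) + 2/7 * A * B * (5 - 4 * A - 4 * B + 3 * A * B)
noncomputable def Dn (A B : ℝ) : ℝ :=
  A * (2 - A) * nn A B ^ 2 + B * (2 - B) * nn B A ^ 2 + n3 A B ^ 2
noncomputable def LL (A B : ℝ) : ℝ :=
  (1 + 2/7 * A * B) * (1 - B + 2/7 * A * B * (5 - A - 2 * B))
    - 2 * (2/7)^2 * A * (2 - A) * B^2 * (B - A) + 2/7 * (1 - A) * B * (1 + 2/7 * A * B) * (B - A)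
noncomputable def mm (A B : ℝ) : ℝ := 2/7 * (B - A) * (1 - 2/7 * A * B)
noncomputable def zx (A B : ℝ) : ℝ := (1 - B) * n3 A B + (A + B) * (2 - B) * nn B A
noncomputable def zz (A B : ℝ) : ℝ := (2 - A) * (1 - B) * nn A B - (2 - B) * (1 - A) * nn B A
noncomputable def hh (A B : ℝ) : ℝ :=
  (1 + 2/7 * A * B) * A * (-(2 - A) * zx A B + (1 - A) * zz A B)
    + 2 * (2/7) * A * (2 - A) * B * ((1 - A) * zx A B + A * zz A B)
    + 2/7 * (1 - A) * A * B * ((2 - A) * zx A B + (2 - B) * zx B A + (A - B) * zz A B)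
    - Dn A B * (1 - A)
noncomputable def kk (A B : ℝ) : ℝ :=
  2/7 * A * B * ((3 - 2 * B) * zx B A + (3 - 2 * A) * zx A B + 2 * (A - B) * zz A B) - Dn A B
noncomputable def QQ (A B : ℝ) : ℝ :=
  (2 - B) * hh A B - 2 * (2 - A) * (2 - B) * kk A B + (2 - A) * hh B A

end ChernG2

namespace ChernG2

/-- second order jets of the map `(α, β, τ) ↦ emb α β τ` with `a = cos α`, `s = sin α`, `b = cos β`,
`r = sin β`: the vector `X₁₁ e₁₁ + X₁₂ e₁₂ + X₂₂ e₂₂ + X₁ e₁ + X₂ e₂ + t ∂_τ`. -/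
noncomputable def jet (a s b r e1 e2 e11 e12 e22 t : ℝ) : E4 :=
  !₂[(-(1 + 2/7*((1-a)*(1-b)))*s + 2*(2/7)*(s*(1-b))*a + 2/7*(a*(1-b))*s) * e11
      + (2/7*(r*(1-a))*a + 2/7*(s*r)*s) * e12
      + (2/7*(b*(1-a))*s) * e22
      + ((1 + 2/7*((1-a)*(1-b)))*a + 2/7*(s*(1-b))*s) * e1
      + (2/7*(r*(1-a))*s) * e2,
     (2/7*(a*(1-b))*r) * e11
      + (2/7*(s*(1-b))*b + 2/7*(s*r)*r) * e12
      + (-(1 + 2/7*((1-a)*(1-b)))*r + 2*(2/7)*(r*(1-a))*b + 2/7*(b*(1-a))*r) * e22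
      + (2/7*(s*(1-b))*r) * e1
      + ((1 + 2/7*((1-a)*(1-b)))*b + 2/7*(r*(1-a))*r) * e2,
     ((1 + 2/7*((1-a)*(1-b)))*a + 2*(2/7)*(s*(1-b))*s + 2/7*(a*(1-b))*(b-a)) * e11
      + (-(2/7)*(s*(1-b))*r + 2/7*(r*(1-a))*s + 2/7*(s*r)*(b-a)) * e12
      + (-(1 + 2/7*((1-a)*(1-b)))*b - 2*(2/7)*(r*(1-a))*r + 2/7*(b*(1-a))*(b-a)) * e22
      + ((1 + 2/7*((1-a)*(1-b)))*s + 2/7*(s*(1-b))*(b-a)) * e1
      + (-(1 + 2/7*((1-a)*(1-b)))*r + 2/7*(r*(1-a))*(b-a)) * e2,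
     t]

/-- Gram type determinant -/
noncomputable def gram3 (a b p q : E4) : ℝ :=
  Matrix.det !![⟪a, b⟫, ⟪a, p⟫, ⟪a, q⟫; ⟪b, p⟫, ⟪p, p⟫, ⟪p, q⟫; ⟪b, q⟫, ⟪p, q⟫, ⟪q, q⟫]

end ChernG2
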