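import Pool.Agent.Helper427.Chern.Defs

open scoped ContDiff RealInnerProductSpace Topology
open Real

open scoped ContDiff RealInnerProductSpace Topology
open Real

namespace ChernG2

/-- the convex region -/
def CC : Set (EuclideanSpace ℝ (Fin 2)) :=
  {w | (0 ≤ w 0 ∧ w 0 ≤ π) ∧ (0 ≤ w 1 ∧ w 1 ≤ π) ∧ 1 / 2000 ≤ sin (w 0) * sin (w 1)}

theorem cont_coord (i : Fin 2) : Continuous (fun w : EuclideanSpace ℝ (Fin 2) => w i) := by fun_prop

theorem CC_closed : IsClosed CC := by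
  unfold CC
  have c0 := cont_coord 0
  have c1 := cont_coord 1
  exact (((isClosed_le continuous_const c0).inter (isClosed_le c0 continuous_const)).inter
    (((isClosed_le continuous_const c1).inter (isClosed_le c1 continuous_const)).inter
    (isClosed_le continuous_const ((continuous_sin.comp c0).mul (continuous_sin.comp c1)))))

theorem CC_mem {w : EuclideanSpace ℝ (Fin 2)} (hw : w ∈ CC) :
    (0 < w 0 ∧ w 0 < π) ∧ (0 < w 1 ∧ w 1 < π) := by
  obtain ⟨⟨h1, h2⟩, ⟨h3, h4⟩, h5⟩ := hw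
  refine ⟨⟨lt_of_le_of_ne h1 ?_, lt_of_le_of_ne h2 ?_⟩, ⟨lt_of_le_of_ne h3 ?_, lt_of_le_of_ne h4 ?_⟩⟩
  · intro h; rw [← h, sin_zero, zero_mul] at h5; norm_num at h5
  · intro h; rw [h, sin_pi, zero_mul] at h5; norm_num at h5
  · intro h; rw [← h, sin_zero, mul_zero] at h5; norm_num at h5
  · intro h; rw [h, sin_pi, mul_zero] at h5; norm_num at h5

theorem CC_convex : Convex ℝ CC := by
  intro p hp q hq a b ha hb hab
  obtain ⟨⟨p1, p2⟩, ⟨p3, p4⟩, p5⟩ := hp
  obtain ⟨⟨q1, q2⟩, ⟨q3, q4⟩, q5⟩ := hq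
  have e0 : (a • p + b • q) 0 = a * p 0 + b * q 0 := rfl
  have e1 : (a • p + b • q) 1 = a * p 1 + b * q 1 := rfl
  have hcv := strictConcaveOn_sin_Icc.concaveOn
  have s0 := hcv.2 ⟨p1, p2⟩ ⟨q1, q2⟩ ha hb hab
  have s1 := hcv.2 ⟨p3, p4⟩ ⟨q3, q4⟩ ha hb hab
  simp only [smul_eq_mul] at s0 s1
  have hP0 : 0 ≤ sin (p 0) := sin_nonneg_of_nonneg_of_le_pi p1 p2
  have hP1 : 0 ≤ sin (p 1) := sin_nonneg_of_nonneg_of_le_pi p3 p4
  have hQ0 : 0 ≤ sin (q 0) := sin_nonneg_of_nonneg_of_le_pi q1 q2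
  have hQ1 : 0 ≤ sin (q 1) := sin_nonneg_of_nonneg_of_le_pi q3 q4
  unfold CC
  rw [Set.mem_setOf_eq, e0, e1]
  refine ⟨⟨by positivity, ?_⟩, ⟨by positivity, ?_⟩, ?_⟩
  · calc a * p 0 + b * q 0 ≤ a * π + b * π := by gcongr
      _ = π := by rw [← add_mul, hab, one_mul]
  · calc a * p 1 + b * q 1 ≤ a * π + b * π := by gcongr
      _ = π := by rw [← add_mul, hab, one_mul]
  · have hcross : 1 / 1000 ≤ sin (p 0) * sin (q 1) + sin (q 0) * sin (p 1) := by
      have hprod : (1 / 2000) * (1 / 2000) ≤ (sin (p 0) * sin (p 1)) * (sin (q 0) * sin (q 1)) :=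
        mul_le_mul p5 q5 (by norm_num) (mul_nonneg hP0 hP1)
      have hu : 0 ≤ sin (p 0) * sin (q 1) := mul_nonneg hP0 hQ1
      have hv : 0 ≤ sin (q 0) * sin (p 1) := mul_nonneg hQ0 hP1
      by_contra hcon
      push Not at hcon
      nlinarith [sq_nonneg (sin (p 0) * sin (q 1) - sin (q 0) * sin (p 1))]
    calc (1:ℝ) / 2000 = (a + b) ^ 2 * (1 / 2000) := by rw [hab]; norm_num
      _ = a ^ 2 * (1 / 2000) + b ^ 2 * (1 / 2000) + a * b * (1 / 1000) := by ring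
      _ ≤ a ^ 2 * (sin (p 0) * sin (p 1)) + b ^ 2 * (sin (q 0) * sin (q 1)) +
          a * b * (sin (p 0) * sin (q 1) + sin (q 0) * sin (p 1)) := by gcongr
      _ = (a * sin (p 0) + b * sin (q 0)) * (a * sin (p 1) + b * sin (q 1)) := by ring
      _ ≤ sin (a * p 0 + b * q 0) * sin (a * p 1 + b * q 1) :=
          mul_le_mul s0 s1 (by positivity) (le_trans (by positivity) s0)

theorem CC_bounded : Bornology.IsBounded CC := by
  rw [isBounded_iff_forall_norm_le]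
  refine ⟨2 * π, fun w hw => ?_⟩
  obtain ⟨⟨h1, h2⟩, ⟨h3, h4⟩, -⟩ := hw
  rw [EuclideanSpace.norm_eq]
  apply Real.sqrt_le_iff.2
  refine ⟨by positivity, ?_⟩
  rw [Fin.sum_univ_two, Real.norm_eq_abs, Real.norm_eq_abs, sq_abs, sq_abs]
  nlinarith [pi_pos]

theorem CC_interior : interior CC = {w | w ∈ CC ∧ 1 / 2000 < sin (w 0) * sin (w 1)} := by
  apply Set.Subset.antisymm
  · intro w hw
    refine ⟨interior_subset hw, ?_⟩
    have hwC := interior_subset hw
    obtain ⟨⟨h1, h2⟩, ⟨h3, h4⟩⟩ := CC_mem hwC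
    rw [mem_interior_iff_mem_nhds, Metric.mem_nhds_iff] at hw
    obtain ⟨r, hr, hball⟩ := hw
    set δ : ℝ := min (r / 2) 1 with hδ
    have hδ0 : 0 < δ := lt_min (by linarith) one_pos
    have hδr : δ < r := lt_of_le_of_lt (min_le_left _ _) (by linarith)
    have hδ1 : δ ≤ 1 := min_le_right _ _
    have hin : ∀ σ : ℝ, |σ| = δ → w + σ • EuclideanSpace.single (0 : Fin 2) (1 : ℝ) ∈ CC := by
      intro σ hσ
      apply hball
      rw [Metric.mem_ball, dist_eq_norm, add_sub_cancel_left, norm_smul, EuclideanSpace.norm_single]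
      simp only [norm_one, mul_one, Real.norm_eq_abs]
      rw [hσ]
      exact hδr
    have c0 : ∀ σ : ℝ, (w + σ • EuclideanSpace.single (0 : Fin 2) (1 : ℝ)) 0 = w 0 + σ := by
      intro σ; simp
    have c1 : ∀ σ : ℝ, (w + σ • EuclideanSpace.single (0 : Fin 2) (1 : ℝ)) 1 = w 1 := by
      intro σ; simp
    have hp := (hin δ (abs_of_pos hδ0)).2.2
    have hm := (hin (-δ) (by rw [abs_neg, abs_of_pos hδ0])).2.2
    rw [c0, c1] at hp hm
    have hs0 : 0 < sin (w 0) := sin_pos_of_pos_of_lt_pi h1 h2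
    have hs1 : 0 < sin (w 1) := sin_pos_of_pos_of_lt_pi h3 h4
    have hsum : sin (w 0 + δ) + sin (w 0 + -δ) = 2 * sin (w 0) * cos δ := by
      rw [← sub_eq_add_neg, sin_add, sin_sub]
      ring
    have hcos : cos δ < 1 := by
      have := cos_lt_cos_of_nonneg_of_le_pi (le_refl (0:ℝ)) (by linarith [pi_gt_three]) hδ0
      rwa [cos_zero] at this
    have h6 : 1 / 2000 ≤ (sin (w 0) * sin (w 1)) * cos δ := by nlinarith
    have h7 : 0 < sin (w 0) * sin (w 1) := mul_pos hs0 hs1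
    nlinarith
  · intro w hw
    obtain ⟨hwC, hlt⟩ := hw
    obtain ⟨⟨h1, h2⟩, ⟨h3, h4⟩⟩ := CC_mem hwC
    have c0 := cont_coord 0
    have c1 := cont_coord 1
    have hopen : IsOpen {w : EuclideanSpace ℝ (Fin 2) | ((0 < w 0 ∧ w 0 < π) ∧ (0 < w 1 ∧ w 1 < π) ∧
        1 / 2000 < sin (w 0) * sin (w 1))} :=
      ((isOpen_lt continuous_const c0).inter (isOpen_lt c0 continuous_const)).inter
      (((isOpen_lt continuous_const c1).inter (isOpen_lt c1 continuous_const)).inter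
      (isOpen_lt continuous_const ((continuous_sin.comp c0).mul (continuous_sin.comp c1))))
    refine mem_interior.2 ⟨_, ?_, hopen, ⟨⟨h1, h2⟩, ⟨h3, h4⟩, hlt⟩⟩
    rintro x ⟨⟨a1, a2⟩, ⟨a3, a4⟩, a5⟩
    exact ⟨⟨a1.le, a2.le⟩, ⟨a3.le, a4.le⟩, a5.le⟩

/-- the parametrization -/
noncomputable def ep (w : EuclideanSpace ℝ (Fin 2)) : Circle × Circle :=
  (Circle.exp (2 * w 0), Circle.exp (2 * w 1))

theorem height_ep (w : EuclideanSpace ℝ (Fin 2)) :
    height (ep w) = 4 * (sin (w 0) * sin (w 1)) ^ 2 := by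
  unfold height ep
  simp only
  rw [Circle.coe_exp, Circle.coe_exp, Complex.exp_ofReal_mul_I_re, Complex.exp_ofReal_mul_I_re,
    cos_two_mul, cos_two_mul]
  have h0 := sin_sq_add_cos_sq (w 0)
  have h1 := sin_sq_add_cos_sq (w 1)
  have e0 : cos (w 0) ^ 2 = 1 - sin (w 0) ^ 2 := by linarith
  have e1 : cos (w 1) ^ 2 = 1 - sin (w 1) ^ 2 := by linarith
  rw [e0, e1]
  ring

theorem circle_lift (a : Circle) : ∃ θ : ℝ, 0 ≤ θ ∧ θ ≤ π ∧ Circle.exp (2 * θ) = a := by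
  have h := Circle.exp_arg a
  have h1 := Complex.neg_pi_lt_arg (a : ℂ)
  have h2 := Complex.arg_le_pi (a : ℂ)
  by_cases h3 : 0 ≤ Complex.arg (a : ℂ)
  · refine ⟨Complex.arg (a : ℂ) / 2, by linarith, by linarith [pi_pos], ?_⟩
    rw [mul_div_cancel₀ _ (two_ne_zero)]
    exact h
  · push Not at h3
    refine ⟨Complex.arg (a : ℂ) / 2 + π, by linarith, by linarith, ?_⟩
    have e : 2 * (Complex.arg (a : ℂ) / 2 + π) = Complex.arg (a : ℂ) + 2 * π := by ring
    rw [e, Circle.exp_add, Circle.exp_two_pi, mul_one]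
    exact h

theorem circle_inj {x y : ℝ} (hx : 0 < x ∧ x < π) (hy : 0 < y ∧ y < π)
    (h : Circle.exp (2 * x) = Circle.exp (2 * y)) : x = y := by
  rw [Circle.exp_eq_exp] at h
  obtain ⟨m, hm⟩ := h
  have h1 : x - y = m * π := by linarith
  have hm0 : m = 0 := by
    have hπ := pi_pos
    have h2 : (m:ℝ) * π < 1 * π := by linarith [hx.2, hy.1]
    have h3 : (-1:ℝ) * π < m * π := by linarith [hx.1, hy.2]
    have h4 : (m:ℝ) < 1 := lt_of_mul_lt_mul_right h2 hπ.le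
    have h5 : (-1:ℝ) < m := lt_of_mul_lt_mul_right h3 hπ.le
    have h6 : m < 1 := by exact_mod_cast h4
    have h7 : -1 < m := by exact_mod_cast h5
    omega
  rw [hm0] at h1
  simp at h1
  linarith

theorem ep_inj : Set.InjOn ep CC := by
  intro w hw w' hw' h
  obtain ⟨h1, h2⟩ := CC_mem hw
  obtain ⟨h1', h2'⟩ := CC_mem hw'
  unfold ep at h
  rw [Prod.mk.injEq] at h
  have e0 := circle_inj h1 h1' h.1
  have e1 := circle_inj h2 h2' h.2
  ext i
  fin_cases i
  · exact e0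
  · exact e1

theorem ep_exists (x : Circle × Circle) : ∃ w : EuclideanSpace ℝ (Fin 2),
    (0 ≤ w 0 ∧ w 0 ≤ π) ∧ (0 ≤ w 1 ∧ w 1 ≤ π) ∧ ep w = x := by
  obtain ⟨θ, h1, h2, h3⟩ := circle_lift x.1
  obtain ⟨φ, h4, h5, h6⟩ := circle_lift x.2
  refine ⟨!₂[θ, φ], ⟨h1, h2⟩, ⟨h4, h5⟩, ?_⟩
  have : ep !₂[θ, φ] = (Circle.exp (2 * θ), Circle.exp (2 * φ)) := rfl
  rw [this, h3, h6]

theorem ep_image : ep '' CC = {x | 1 / 1000000 ≤ height x} := by
  ext x
  constructor
  · rintro ⟨w, hw, rfl⟩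
    rw [Set.mem_setOf_eq, height_ep]
    have := hw.2.2
    nlinarith
  · intro hx
    obtain ⟨w, h1, h2, rfl⟩ := ep_exists x
    refine ⟨w, ⟨h1, h2, ?_⟩, rfl⟩
    rw [Set.mem_setOf_eq, height_ep] at hx
    have h3 : 0 ≤ sin (w 0) * sin (w 1) :=
      mul_nonneg (sin_nonneg_of_nonneg_of_le_pi h1.1 h1.2) (sin_nonneg_of_nonneg_of_le_pi h2.1 h2.2)
    by_contra hcon
    push Not at hcon
    nlinarith

theorem ep_image_int : ep '' interior CC = {x | 1 / 1000000 < height x} := by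
  rw [CC_interior]
  ext x
  constructor
  · rintro ⟨w, hw, rfl⟩
    rw [Set.mem_setOf_eq, height_ep]
    have := hw.2
    nlinarith
  · intro hx
    obtain ⟨w, h1, h2, rfl⟩ := ep_exists x
    rw [Set.mem_setOf_eq, height_ep] at hx
    have h3 : 0 ≤ sin (w 0) * sin (w 1) :=
      mul_nonneg (sin_nonneg_of_nonneg_of_le_pi h1.1 h1.2) (sin_nonneg_of_nonneg_of_le_pi h2.1 h2.2)
    have h4 : 1 / 2000 < sin (w 0) * sin (w 1) := by
      by_contra hcon
      push Not at hcon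
      nlinarith
    exact ⟨w, ⟨⟨h1, h2, h4.le⟩, h4⟩, rfl⟩

theorem disc : ∃ g : EuclideanSpace ℝ (Fin 2) → Circle × Circle,
    ContinuousOn g (Metric.closedBall 0 1) ∧ Set.InjOn g (Metric.closedBall 0 1) ∧
    g '' Metric.closedBall 0 1 = {x | 1 / 1000000 ≤ height x} ∧
    g '' Metric.ball 0 1 = {x | 1 / 1000000 < height x} := by
  have hne : (interior CC).Nonempty := by
    refine ⟨!₂[π / 2, π / 2], ?_⟩
    rw [CC_interior]
    have e0 : (!₂[π / 2, π / 2] : EuclideanSpace ℝ (Fin 2)) 0 = π / 2 := rfl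
    have e1 : (!₂[π / 2, π / 2] : EuclideanSpace ℝ (Fin 2)) 1 = π / 2 := rfl
    have hπ := pi_pos
    refine ⟨⟨⟨?_, ?_⟩, ⟨?_, ?_⟩, ?_⟩, ?_⟩ <;> simp only [e0, e1, sin_pi_div_two] <;> first | positivity | linarith | norm_num
  obtain ⟨h, hi, hc, -⟩ := exists_homeomorph_image_interior_closure_frontier_eq_unitBall
    CC_convex hne CC_bounded
  rw [CC_closed.closure_eq] at hc
  have hc' : h.symm '' Metric.closedBall 0 1 = CC := by
    rw [← hc, ← Set.image_comp]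
    simp
  have hi' : h.symm '' Metric.ball 0 1 = interior CC := by
    rw [← hi, ← Set.image_comp]
    simp
  refine ⟨ep ∘ h.symm, ?_, ?_, ?_, ?_⟩
  · apply Continuous.continuousOn
    apply Continuous.comp _ h.symm.continuous
    unfold ep
    have c0 := cont_coord 0
    have c1 := cont_coord 1
    exact (Circle.exp.continuous.comp (continuous_const.mul c0)).prodMk
      (Circle.exp.continuous.comp (continuous_const.mul c1))
  · intro z hz z' hz' hzz
    apply h.symm.injective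
    apply ep_inj _ _ hzz
    · rw [← hc']; exact ⟨z, hz, rfl⟩
    · rw [← hc']; exact ⟨z', hz', rfl⟩
  · rw [Set.image_comp, hc', ep_image]
  · rw [Set.image_comp, hi', ep_image_int]

end ChernG2
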