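import Pool.Agent.Helper427.Chern.Defs
import Pool.Agent.Helper427.Chern.Coords

open scoped ContDiff RealInnerProductSpace Topology
open Real

namespace ChernG2

/-- the map from the double -/
noncomputable def ff (x : (Circle × Circle) × ℝ) : E4 :=
  !₂[(1 + 2 / 7 * height x.1) * (x.1.1 : ℂ).im, (1 + 2 / 7 * height x.1) * (x.1.2 : ℂ).im,
    (1 + 2 / 7 * height x.1) * ((x.1.2 : ℂ).re - (x.1.1 : ℂ).re), x.2]

theorem continuous_height : Continuous height := by
  unfold height
  have h1 : Continuous (fun x : Circle × Circle => (x.1 : ℂ).re) :=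
    Complex.continuous_re.comp (continuous_induced_dom.comp continuous_fst)
  have h2 : Continuous (fun x : Circle × Circle => (x.2 : ℂ).re) :=
    Complex.continuous_re.comp (continuous_induced_dom.comp continuous_snd)
  exact (continuous_const.sub h1).mul (continuous_const.sub h2)

theorem continuous_ff : Continuous ff := by
  unfold ff
  have h0 : Continuous (fun x : (Circle × Circle) × ℝ => height x.1) :=
    continuous_height.comp continuous_fst
  have h1 : Continuous (fun x : (Circle × Circle) × ℝ => ((x.1.1 : ℂ))) :=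
    continuous_induced_dom.comp (continuous_fst.comp continuous_fst)
  have h2 : Continuous (fun x : (Circle × Circle) × ℝ => ((x.1.2 : ℂ))) :=
    continuous_induced_dom.comp (continuous_snd.comp continuous_fst)
  have h1r := Complex.continuous_re.comp h1
  have h1i := Complex.continuous_im.comp h1
  have h2r := Complex.continuous_re.comp h2
  have h2i := Complex.continuous_im.comp h2
  simp only [Function.comp_def] at h1r h1i h2r h2i
  have hs : Continuous (fun x : (Circle × Circle) × ℝ => 1 + 2 / 7 * height x.1) := by fun_prop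
  refine (PiLp.continuous_toLp 2 _).comp ?_
  rw [continuous_pi_iff]
  intro i
  fin_cases i
  · exact hs.mul h1i
  · exact hs.mul h2i
  · exact hs.mul (h2r.sub h1r)
  · exact continuous_snd

theorem isCompact_Sigma2 : IsCompact Sigma2 := by
  have hcl : IsClosed Sigma2 :=
    isClosed_eq (continuous_snd.pow 2) (continuous_const.sub (continuous_height.comp continuous_fst))
  have hsub : Sigma2 ⊆ (Set.univ : Set (Circle × Circle)) ×ˢ Set.Icc (-1 : ℝ) 1 := by
    rintro ⟨⟨a, b⟩, t⟩ hx
    have hx' : t ^ 2 = 1 / 1000000 - height (a, b) := hx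
    have ha : (a : ℂ).re ≤ 1 := by
      have := Complex.re_le_norm (a : ℂ)
      rwa [Circle.norm_coe] at this
    have hb : (b : ℂ).re ≤ 1 := by
      have := Complex.re_le_norm (b : ℂ)
      rwa [Circle.norm_coe] at this
    have hh : 0 ≤ height (a, b) := by
      unfold height
      exact mul_nonneg (by simpa using ha) (by simpa using hb)
    refine ⟨Set.mem_univ _, ?_⟩
    have : t ^ 2 ≤ 1 := by linarith
    rw [sq_le_one_iff_abs_le_one, abs_le] at this
    exact this
  exact (isCompact_univ.prod isCompact_Icc).of_isClosed_subset hcl hsub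

theorem circle_exp_re (α : ℝ) : ((Circle.exp α : Circle) : ℂ).re = cos α := by
  rw [Circle.coe_exp, Complex.exp_ofReal_mul_I_re]

theorem circle_exp_im (α : ℝ) : ((Circle.exp α : Circle) : ℂ).im = sin α := by
  rw [Circle.coe_exp, Complex.exp_ofReal_mul_I_im]

theorem ff_exp (α β τ : ℝ) : ff ((Circle.exp α, Circle.exp β), τ) = emb α β τ := by
  simp only [ff, emb, height, circle_exp_re, circle_exp_im]

theorem mem_Sigma2_exp (α β τ : ℝ) : ((Circle.exp α, Circle.exp β), τ) ∈ Sigma2 ↔
    τ ^ 2 + (1 - cos α) * (1 - cos β) = 1 / 1000000 := by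
  show τ ^ 2 = 1 / 1000000 - height (Circle.exp α, Circle.exp β) ↔ _
  simp only [height, circle_exp_re]
  constructor <;> intro h <;> linarith

theorem circle_surj (a : Circle) : ∃ α : ℝ, Circle.exp α = a := ⟨_, Circle.exp_arg a⟩

theorem image_ff : ff '' Sigma2 = MM := by
  ext q
  constructor
  · rintro ⟨⟨⟨a, b⟩, t⟩, hx, rfl⟩
    obtain ⟨α, rfl⟩ := circle_surj a
    obtain ⟨β, rfl⟩ := circle_surj b
    exact ⟨α, β, t, (mem_Sigma2_exp α β t).1 hx, ff_exp α β t⟩
  · rintro ⟨α, β, τ, h, rfl⟩
    exact ⟨((Circle.exp α, Circle.exp β), τ), (mem_Sigma2_exp α β τ).2 h, ff_exp α β τ⟩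

theorem injOn_ff : Set.InjOn ff Sigma2 := by
  rintro ⟨⟨a, b⟩, t⟩ hx ⟨⟨a', b'⟩, t'⟩ hx' heq
  obtain ⟨α, rfl⟩ := circle_surj a
  obtain ⟨β, rfl⟩ := circle_surj b
  obtain ⟨α', rfl⟩ := circle_surj a'
  obtain ⟨β', rfl⟩ := circle_surj b'
  rw [mem_Sigma2_exp] at hx hx'
  rw [ff_exp, ff_exp] at heq
  obtain ⟨-, h1, h2, -, h3, h4⟩ := coords hx
  obtain ⟨-, h1', h2', -, h3', h4'⟩ := coords hx'
  rw [heq] at h1 h2 h3 h4
  have ht : t = t' := by
    have := congrArg (fun q : E4 => q 3) heq
    simpa only [emb_3] using this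
  have e1 : Circle.exp α = Circle.exp α' := by
    apply Circle.ext
    apply Complex.ext
    · rw [circle_exp_re, circle_exp_re]; linarith
    · rw [circle_exp_im, circle_exp_im]; linarith
  have e2 : Circle.exp β = Circle.exp β' := by
    apply Circle.ext
    apply Complex.ext
    · rw [circle_exp_re, circle_exp_re]; linarith
    · rw [circle_exp_im, circle_exp_im]; linarith
  rw [e1, e2, ht]

theorem isCompact_MM : IsCompact MM := by
  rw [← image_ff]
  exact isCompact_Sigma2.image continuous_ff

theorem homeo_MM : Nonempty (MM ≃ₜ Sigma2) := by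
  haveI : CompactSpace Sigma2 := isCompact_iff_compactSpace.1 isCompact_Sigma2
  let F : Sigma2 → MM := fun x => ⟨ff x.1, by rw [← image_ff]; exact ⟨x.1, x.2, rfl⟩⟩
  have hF : Continuous F := (continuous_ff.comp continuous_subtype_val).subtype_mk _
  have hinj : Function.Injective F := by
    intro x y hxy
    apply Subtype.ext
    exact injOn_ff x.2 y.2 (congrArg Subtype.val hxy)
  have hsurj : Function.Surjective F := by
    rintro ⟨q, hq⟩
    have hq' := hq
    rw [← image_ff] at hq'
    obtain ⟨x, hx, hxq⟩ := hq'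
    exact ⟨⟨x, hx⟩, Subtype.ext hxq⟩
  let e : Sigma2 ≃ MM := Equiv.ofBijective F ⟨hinj, hsurj⟩
  have he : Continuous e := hF
  exact ⟨(he.homeoOfEquivCompactToT2).symm⟩

end ChernG2
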