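import Pool.Agent.Helper427.Chern.Defs
import Pool.Agent.Helper427.Chern.Coords

open scoped ContDiff RealInnerProductSpace Topology
open Real

namespace ChernG2

/-- a germ of a `C⁴` function extends to a globally `C⁴` function -/
theorem exists_global_germ (f : ℝ × ℝ → ℝ) (w : ℝ × ℝ) (hf : ContDiffAt ℝ 4 f w) :
    ∃ g : ℝ × ℝ → ℝ, ContDiff ℝ 4 g ∧ g =ᶠ[𝓝 w] f := by
  have h1 : ∀ᶠ y in 𝓝 w, ContDiffAt ℝ 4 f y := hf.eventually (by decide)
  obtain ⟨ε, hε, hb⟩ := Metric.eventually_nhds_iff_ball.mp h1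
  let χ : ContDiffBump w := ⟨ε / 4, ε / 2, by linarith, by linarith⟩
  refine ⟨fun x => χ x * f x, ?_, ?_⟩
  · rw [contDiff_iff_contDiffAt]
    intro x
    by_cases hx : x ∈ Metric.ball w ε
    · exact (χ.contDiffAt (x := x)).mul (hb x hx)
    · have hx' : x ∉ tsupport (χ : ℝ × ℝ → ℝ) := by
        rw [χ.tsupport_eq, Metric.mem_closedBall]
        rw [Metric.mem_ball] at hx
        push Not at hx ⊢
        have h3 : χ.rOut = ε / 2 := rfl
        rw [h3]
        linarith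
      have h4 := notMem_tsupport_iff_eventuallyEq.mp hx'
      have h5 : (fun x => χ x * f x) =ᶠ[𝓝 x] fun _ => 0 := by
        filter_upwards [h4] with y hy
        rw [hy]
        simp
      exact (contDiffAt_const (c := (0 : ℝ))).congr_of_eventuallyEq h5
  · filter_upwards [χ.eventuallyEq_one] with y hy
    rw [hy]
    simp

theorem exists_lift (ψ : ℝ × ℝ → E4) (w : ℝ × ℝ) (hψ : ContDiffAt ℝ 4 ψ w)
    (hM : ∀ᶠ w' in 𝓝 w, ψ w' ∈ MM) :
    ∃ α β τ : ℝ × ℝ → ℝ, ContDiff ℝ 4 α ∧ ContDiff ℝ 4 β ∧ ContDiff ℝ 4 τ ∧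
      (ψ =ᶠ[𝓝 w] fun w' => emb (α w') (β w') (τ w')) ∧
      ∀ᶠ w' in 𝓝 w, τ w' ^ 2 + (1 - cos (α w')) * (1 - cos (β w')) = 1 / 1000000 := by
  obtain ⟨α₀, β₀, τ₀, hc0, hψ0⟩ := hM.self_of_nhds
  obtain ⟨hr0, hS0, hR0, -, hA0, hB0⟩ := coords hc0
  rw [← hψ0] at hr0 hS0 hR0 hA0 hB0
  have hcomp := contDiffAt_euclidean.mp hψ
  have h0 := hcomp 0
  have h1 := hcomp 1
  have h2 := hcomp 2
  have h3 := hcomp 3
  have hrho : ContDiffAt ℝ 4 (fun w' => rho (ψ w')) w :=
    contDiffAt_const.add (contDiffAt_const.mul (contDiffAt_const.sub (h3.pow 2)))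
  have hrho0 : rho (ψ w) ≠ 0 := by
    intro h
    rw [h] at hr0
    linarith
  have hS : ContDiffAt ℝ 4 (fun w' => pS (ψ w')) w := h0.div hrho hrho0
  have hR : ContDiffAt ℝ 4 (fun w' => pR (ψ w')) w := h1.div hrho hrho0
  have hZ : ContDiffAt ℝ 4 (fun w' => pZ (ψ w')) w := h2.div hrho hrho0
  have hA : ContDiffAt ℝ 4 (fun w' => pA (ψ w')) w :=
    ((((((hS.pow 2).add (hR.pow 2)).add (hZ.pow 2)).div_const 2).add
      (contDiffAt_const.sub (h3.pow 2))).add hZ).div_const 2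
  have hB : ContDiffAt ℝ 4 (fun w' => pB (ψ w')) w :=
    ((((((hS.pow 2).add (hR.pow 2)).add (hZ.pow 2)).div_const 2).add
      (contDiffAt_const.sub (h3.pow 2))).sub hZ).div_const 2
  have hα1 : ContDiffAt ℝ 4 (fun w' => α₀ +
      arcsin (pS (ψ w') * cos α₀ - (1 - pA (ψ w')) * sin α₀)) w := by
    have harg : ContDiffAt ℝ 4 (fun w' => pS (ψ w') * cos α₀ - (1 - pA (ψ w')) * sin α₀) w :=
      (hS.mul contDiffAt_const).sub ((contDiffAt_const.sub hA).mul contDiffAt_const)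
    have hval : pS (ψ w) * cos α₀ - (1 - pA (ψ w)) * sin α₀ = 0 := by
      rw [hS0, hA0]; ring
    have has : ContDiffAt ℝ 4 arcsin (pS (ψ w) * cos α₀ - (1 - pA (ψ w)) * sin α₀) := by
      rw [hval]
      exact contDiffAt_arcsin (by norm_num) (by norm_num)
    exact contDiffAt_const.add (ContDiffAt.comp (g := arcsin) w has harg)
  have hβ1 : ContDiffAt ℝ 4 (fun w' => β₀ +
      arcsin (pR (ψ w') * cos β₀ - (1 - pB (ψ w')) * sin β₀)) w := by
    have harg : ContDiffAt ℝ 4 (fun w' => pR (ψ w') * cos β₀ - (1 - pB (ψ w')) * sin β₀) w :=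
      (hR.mul contDiffAt_const).sub ((contDiffAt_const.sub hB).mul contDiffAt_const)
    have hval : pR (ψ w) * cos β₀ - (1 - pB (ψ w)) * sin β₀ = 0 := by
      rw [hR0, hB0]; ring
    have has : ContDiffAt ℝ 4 arcsin (pR (ψ w) * cos β₀ - (1 - pB (ψ w)) * sin β₀) := by
      rw [hval]
      exact contDiffAt_arcsin (by norm_num) (by norm_num)
    exact contDiffAt_const.add (ContDiffAt.comp (g := arcsin) w has harg)
  have hFα : ∀ᶠ w' in 𝓝 w, 0 < (1 - pA (ψ w')) * cos α₀ + pS (ψ w') * sin α₀ := by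
    have hcont : ContinuousAt (fun w' => (1 - pA (ψ w')) * cos α₀ + pS (ψ w') * sin α₀) w :=
      (((contDiffAt_const.sub hA).mul contDiffAt_const).add
        (hS.mul contDiffAt_const)).continuousAt
    refine hcont.eventually (lt_mem_nhds ?_)
    show 0 < (1 - pA (ψ w)) * cos α₀ + pS (ψ w) * sin α₀
    rw [hS0, hA0]
    have := sin_sq_add_cos_sq α₀
    nlinarith
  have hFβ : ∀ᶠ w' in 𝓝 w, 0 < (1 - pB (ψ w')) * cos β₀ + pR (ψ w') * sin β₀ := by
    have hcont : ContinuousAt (fun w' => (1 - pB (ψ w')) * cos β₀ + pR (ψ w') * sin β₀) w :=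
      (((contDiffAt_const.sub hB).mul contDiffAt_const).add
        (hR.mul contDiffAt_const)).continuousAt
    refine hcont.eventually (lt_mem_nhds ?_)
    show 0 < (1 - pB (ψ w)) * cos β₀ + pR (ψ w) * sin β₀
    rw [hR0, hB0]
    have := sin_sq_add_cos_sq β₀
    nlinarith
  obtain ⟨α, hαc, hαe⟩ := exists_global_germ _ w hα1
  obtain ⟨β, hβc, hβe⟩ := exists_global_germ _ w hβ1
  obtain ⟨τ, hτc, hτe⟩ := exists_global_germ _ w h3
  have key : ∀ᶠ w' in 𝓝 w, ψ w' = emb (α w') (β w') (τ w') ∧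
      τ w' ^ 2 + (1 - cos (α w')) * (1 - cos (β w')) = 1 / 1000000 := by
    filter_upwards [hM, hFα, hFβ, hαe, hβe, hτe] with w' hw' hFa hFb ha hb ht
    obtain ⟨a, b, t, hc, hψ'⟩ := hw'
    obtain ⟨-, hS', hR', -, hA', hB'⟩ := coords hc
    rw [hψ', hS', hA'] at hFa ha
    rw [hψ', hR', hB'] at hFb hb
    rw [hψ', emb_3] at ht
    have hFa' : 0 < cos a * cos α₀ + sin a * sin α₀ := by linarith
    have hFb' : 0 < cos b * cos β₀ + sin b * sin β₀ := by linarith
    obtain ⟨ha1, ha2, -, -⟩ := lift_angle hFa'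
    obtain ⟨hb1, hb2, -, -⟩ := lift_angle hFb'
    have ea : α w' = α₀ + arcsin (sin a * cos α₀ - cos a * sin α₀) := by
      rw [ha]; congr 2; ring
    have eb : β w' = β₀ + arcsin (sin b * cos β₀ - cos b * sin β₀) := by
      rw [hb]; congr 2; ring
    have sa : sin (α w') = sin a := by rw [ea]; exact ha1
    have ca : cos (α w') = cos a := by rw [ea]; exact ha2
    have sb : sin (β w') = sin b := by rw [eb]; exact hb1
    have cb : cos (β w') = cos b := by rw [eb]; exact hb2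
    constructor
    · rw [hψ']
      unfold emb
      rw [sa, ca, sb, cb, ht]
    · rw [ca, cb, ht]
      exact hc
  refine ⟨α, β, τ, hαc, hβc, hτc, ?_, ?_⟩
  · filter_upwards [key] with w' h
    exact h.1
  · filter_upwards [key] with w' h
    exact h.2

end ChernG2
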