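import Pool.Agent.Helper427.Chern.Asm
import Pool.Agent.Helper427.Chern.Lift
import Pool.Agent.Helper427.Chern.ChartA
import Pool.Agent.Helper427.Chern.ChartB
import Pool.Agent.Helper427.Chern.ChartC
import Pool.Agent.Helper427.Chern.Homeo
import Pool.Agent.Helper427.Chern.Disc

open scoped ContDiff RealInnerProductSpace Topology
open Real

namespace ChernG2

theorem isSmoothSurface_MM : IsSmoothSurface MM := by
  rintro p ⟨α, β, τ, h, rfl⟩
  by_cases hτ : τ = 0
  · have hp : (1 - cos α) * (1 - cos β) = 1 / 1000000 := by rw [hτ] at h; linarith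
    by_cases hs : sin β = 0
    · by_cases hs' : sin α = 0
      · exfalso
        have q1 := sin_sq_add_cos_sq α
        have q2 := sin_sq_add_cos_sq β
        rw [hs'] at q1
        rw [hs] at q2
        have e1 : (cos α - 1) * (cos α + 1) = 0 := by linarith
        have e2 : (cos β - 1) * (cos β + 1) = 0 := by linarith
        rcases mul_eq_zero.1 e1 with h1 | h1
        · rw [show cos α = 1 by linarith] at hp; norm_num at hp
        · rcases mul_eq_zero.1 e2 with h2 | h2
          · rw [show cos β = 1 by linarith] at hp; norm_num at hp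
          · rw [show cos α = -1 by linarith, show cos β = -1 by linarith] at hp; norm_num at hp
      · exact chart_c α β τ h hτ hs'
    · exact chart_b α β τ h hτ hs
  · exact chart_a α β τ h hτ

theorem neg_curvature {U : Set (ℝ × ℝ)} {ψ : ℝ × ℝ → E4} (h : IsPatch MM U ψ) {w : ℝ × ℝ}
    (hw : w ∈ U) : gaussK ψ w < 0 := by
  have hU : U ∈ 𝓝 w := h.isOpen.mem_nhds hw
  have hsm : ContDiffAt ℝ 4 ψ w := (h.smooth.contDiffAt hU).of_le (by
    have h4 : (4 : ℕ∞) ≤ ⊤ := le_top
    exact WithTop.coe_le_coe.2 h4)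
  have hM : ∀ᶠ w' in 𝓝 w, ψ w' ∈ MM := by
    filter_upwards [hU] with x hx
    obtain ⟨W, -, hW⟩ := h.image
    have : ψ x ∈ MM ∩ W := hW ▸ Set.mem_image_of_mem ψ hx
    exact this.1
  obtain ⟨α, β, τ, hα, hβ, hτ, he, hc⟩ := exists_lift ψ w hsm hM
  rw [gaussK_congr he]
  refine neg_of_lift α β τ hα hβ hτ w hc ?_
  rw [← he.fderiv_eq]
  exact h.immersion w hw

end ChernG2
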