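import Mathlib

open scoped ContDiff RealInnerProductSpace
open Real

namespace ChernG2

/-- Euclidean four-space `𝔼⁴`. -/
abbrev E4 := EuclideanSpace ℝ (Fin 4)

/-- Partial derivative in the first variable `u` of a map of the `(u,v)`-plane. -/
noncomputable def Du {V : Type} [NormedAddCommGroup V] [NormedSpace ℝ V]
    (f : ℝ × ℝ → V) (w : ℝ × ℝ) : V := fderiv ℝ f w (1, 0)

/-- Partial derivative in the second variable `v` of a map of the `(u,v)`-plane. -/
noncomputable def Dv {V : Type} [NormedAddCommGroup V] [NormedSpace ℝ V]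
    (f : ℝ × ℝ → V) (w : ℝ × ℝ) : V := fderiv ℝ f w (0, 1)

/-- The Gaussian curvature of the Riemannian metric `E du² + 2 F du dv + G dv²`,
by Brioschi's (intrinsic) formula. -/
noncomputable def brioschi (E F G : ℝ × ℝ → ℝ) (w : ℝ × ℝ) : ℝ :=
  (Matrix.det !![-(1/2) * Dv (Dv E) w + Du (Dv F) w - (1/2) * Du (Du G) w,
        (1/2) * Du E w, Du F w - (1/2) * Dv E w;
      Dv F w - (1/2) * Du G w, E w, F w;
      (1/2) * Dv G w, F w, G w]
    - Matrix.det !![0, (1/2) * Dv E w, (1/2) * Du G w;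
      (1/2) * Dv E w, E w, F w;
      (1/2) * Du G w, F w, G w]) / (E w * G w - F w ^ 2) ^ 2

/-- The Gaussian curvature, at the parameter value `w`, of the metric induced by a
parametrised surface `ψ` in `𝔼⁴`. -/
noncomputable def gaussK (ψ : ℝ × ℝ → E4) (w : ℝ × ℝ) : ℝ :=
  brioschi (fun w => ⟪Du ψ w, Du ψ w⟫) (fun w => ⟪Du ψ w, Dv ψ w⟫)
    (fun w => ⟪Dv ψ w, Dv ψ w⟫) w

/-- `ψ` is a regular (smooth, immersive, homeomorphic onto a relatively open subset of `M`)
local parametrisation of `M ⊆ 𝔼⁴` with parameter domain `U`. -/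
structure IsPatch (M : Set E4) (U : Set (ℝ × ℝ)) (ψ : ℝ × ℝ → E4) : Prop where
  isOpen : IsOpen U
  smooth : ContDiffOn ℝ ∞ ψ U
  immersion : ∀ w ∈ U, Function.Injective (fderiv ℝ ψ w)
  embedding : Topology.IsEmbedding (U.domRestrict ψ)
  image : ∃ W : Set E4, IsOpen W ∧ ψ '' U = M ∩ W

/-- `M ⊆ 𝔼⁴` is a smooth embedded surface (2-dimensional submanifold without boundary). -/
def IsSmoothSurface (M : Set E4) : Prop :=
  ∀ p ∈ M, ∃ (U : Set (ℝ × ℝ)) (ψ : ℝ × ℝ → E4), IsPatch M U ψ ∧ p ∈ ψ '' U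

/-- `X` is homeomorphic to the closed orientable surface of genus two, realised as the double
of a torus minus an open disc, i.e. as the connected sum of two tori: `h` is a continuous function
on the torus `Circle × Circle` for which `{h ≤ 0}` is a closed disc with open disc `{h < 0}`
(parametrised by `g`), and `{(x, t) : t ^ 2 = h x}` consists of two copies `t = ± √(h x)` of
the one-holed torus `{h ≥ 0}`, glued along its boundary circle `{h = 0}`. -/
def IsGenusTwo (X : Type) [TopologicalSpace X] : Prop :=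
  ∃ (h : Circle × Circle → ℝ) (g : EuclideanSpace ℝ (Fin 2) → Circle × Circle),
    Continuous h ∧
    ContinuousOn g (Metric.closedBall 0 1) ∧ Set.InjOn g (Metric.closedBall 0 1) ∧
    g '' Metric.closedBall 0 1 = {x | h x ≤ 0} ∧ g '' Metric.ball 0 1 = {x | h x < 0} ∧
    Nonempty (X ≃ₜ {p : (Circle × Circle) × ℝ | p.2 ^ 2 = h p.1})

end ChernG2
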